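import Pool.Agent.Helper74.AL.L3
import Pool.Agent.Helper97.DV.Lq
import Pool.Agent.Helper35.MD.G7

/-!
ALPHA: the output in the form of the users.
-/

open Finset RP4 KP

namespace AL

/-- ALPHA, frames of nonzero sites (unconditional) -/
theorem frame_all : ∃ c : ℝ, 0 < c ∧ ∃ L n₀ : ℕ, 9 ≤ L ∧ 1 ≤ n₀ ∧ ∀ n : ℕ, n₀ ≤ n →
    ∀ (D : Finset V) (p : ℤ) (Z : Finset V) (x : V), Env D p Z x (4 * n - 1) (L * n) →
      c ≤ avg (Zs D p Z) (fun h => ind (DV.Frm Adj (DV.nz h) x (4 * n) (8 * n))) := by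
  obtain ⟨C, hC, h⟩ := MD.row_all
  exact frame hC h

/-- ALPHA, frames of height at least two (unconditional) -/
theorem loop_all : ∃ c : ℝ, 0 < c ∧ ∃ M L n₀ : ℕ, 9 ≤ M ∧ 2 * M ≤ L ∧ 1 ≤ n₀ ∧ ∀ n : ℕ, n₀ ≤ n →
    ∀ (D : Finset V) (p : ℤ) (Z : Finset V) (x : V), Env D p Z x (4 * n - 1) (L * n) →
      c ≤ avg (Zs D p Z) (fun h => ind (DV.Frm Adj {v | 2 ≤ h v} x (M * n) (2 * M * n))) := by
  obtain ⟨C, hC, h⟩ := MD.row_all
  exact loop hC h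

/-- LOOP in the form of helper97 -/
theorem exists_LP : ∃ (c : ℝ) (K n0 : ℤ), 0 < c ∧ 1 ≤ K ∧ 1 ≤ n0 ∧ DV.LP c K n0 := by
  obtain ⟨c, hc, M, L, n₀, hM, hML, hn₀, H⟩ := loop_all
  refine ⟨c, L + 1, n₀, hc, by omega, by exact_mod_cast hn₀, ?_⟩
  intro n hn x D p Z hb hZD hpar hfree
  obtain ⟨k, rfl⟩ : ∃ k : ℕ, n = k := ⟨n.toNat, by omega⟩
  have hk : n₀ ≤ k := by exact_mod_cast hn
  have hk1 : (1 : ℤ) ≤ k := by
    have : 1 ≤ k := hn₀.trans hk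
    exact_mod_cast this
  have hM' : (9 : ℤ) ≤ M := by exact_mod_cast hM
  have hML' : 2 * (M : ℤ) ≤ L := by exact_mod_cast hML
  have hLk : (L : ℤ) * k ≤ (L + 1) * k := by nlinarith
  have hE : Env D p Z x (4 * k - 1) (L * k) := by
    have key : ∀ v ∈ DV.Sq x (L * k), v ∉ DV.Sq x (4 * k - 1) → v ∈ D ∧ v ∉ Z := by
      intro v hv hv'
      exact hfree v (DV.Sq_mono hLk hv) fun h1 => hv' (DV.Sq_mono (by omega) h1)
    refine ⟨hb, hZD, fun v hv => ?_, fun v hv hv' => (key v hv hv').1, fun v hv hv' => (key v hv hv').2⟩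
    have h1 := hpar v hv
    rw [Int.even_sub]
    rwa [Int.even_add] at h1
  have h1 := H k hk D p Z x hE
  refine h1.trans ?_
  unfold DV.pr
  refine avg_mono fun g _ => ?_
  unfold ind
  by_cases hF : DV.Frm Adj {v | 2 ≤ g v} x (M * k) (2 * M * k)
  · rw [if_pos hF, if_pos]
    rintro ⟨u, hu, v, hv, huv⟩
    have hMk : (M : ℤ) * k ≤ 2 * M * k := by nlinarith
    obtain ⟨w, hw, hw'⟩ := DV.block_king (P := {w | |g w| ≤ 1}) hMk hF
      (DV.Jn.mono (fun _ _ h => DV.adj_kng h) subset_rfl huv) (DV.Sq_mono (by nlinarith) hu)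
      (fun h2 => hv (DV.Sq_mono (by nlinarith) h2))
    have h3 : |g w| ≤ 1 := hw
    have h4 : 2 ≤ g w := hw'
    rw [abs_le] at h3
    omega
  · rw [if_neg hF]
    split_ifs <;> norm_num

end AL
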