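import Pool.Agent.Helper35.MD.Defs
import Pool.Agent.Helper97.DV.Pz
import Pool.Agent.Helper97.DV.Gk
import Pool.Agent.Helper97.DV.Fr
import Pool.Agent.Helper97.DV.Fl

/-!
# Project ALPHA (MP_973bc8_pr): nonzero frames in square ice with zero boundary values

Definitions.  Note 2598 (III).  Rows, covariances of row sums, doubled domains.
Plan: K1 - K6 lower bound of the variance of the average in the diamond (KP), S1 two rows with positive covariance,
R1, R2 reflection positivity doubles the distance of the rows, U1 tubes, F1 - F4 frames, L1 - L4 one level up.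
-/

open Finset RP4 KP

namespace AL

/-- the segment of the row `y` between the columns `-T` and `T` -/
noncomputable def row (T : ℕ) (y : ℤ) : Finset V := (Icc (-(T : ℤ)) T).image (fun a => ((a, y) : V))

lemma mem_row {T : ℕ} {y : ℤ} {v : V} : v ∈ row T y ↔ |v.1| ≤ T ∧ v.2 = y := by
  unfold row
  rw [mem_image]
  constructor
  · rintro ⟨a, ha, rfl⟩
    rw [mem_Icc] at ha
    exact ⟨abs_le.2 ha, rfl⟩
  · rintro ⟨h1, h2⟩
    refine ⟨v.1, mem_Icc.2 (abs_le.1 h1), ?_⟩
    rw [← h2]

lemma card_row (T : ℕ) (y : ℤ) : (row T y).card = 2 * T + 1 := by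
  unfold row
  rw [card_image_of_injective _ (fun a b h => congrArg Prod.fst h), Int.card_Icc]
  omega

/-- the sum of the heights over a row segment -/
noncomputable def rs (T : ℕ) (y : ℤ) (h : V → ℤ) : ℝ := ∑ x ∈ row T y, (h x : ℝ)

/-- covariance of two row sums -/
noncomputable def Cr (D : Finset V) (T : ℕ) (y y' : ℤ) : ℝ := avg (Om D) (fun h => rs T y h * rs T y' h)

lemma avg_sum' {ι : Type*} (S : Finset (V → ℤ)) (t : Finset ι) (F : ι → (V → ℤ) → ℝ) :
    avg S (fun h => ∑ i ∈ t, F i h) = ∑ i ∈ t, avg S (F i) := by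
  unfold avg
  rw [Finset.sum_comm, Finset.sum_div]

/-- The covariance of two row sums is the sum of the covariances. -/
lemma Cr_eq (D : Finset V) (T : ℕ) (y y' : ℤ) :
    Cr D T y y' = ∑ x ∈ row T y, ∑ w ∈ row T y', MD.cv D x w := by
  unfold Cr rs MD.cv
  simp only [Finset.sum_mul_sum, avg_sum']

/-- the domain together with its reflection in the row `c` -/
noncomputable def dbl (D : Finset V) (c : ℤ) : Finset V := by
  classical exact D ∪ D.image (MD.th c)

lemma mem_dbl {D : Finset V} {c : ℤ} {v : V} : v ∈ dbl D c ↔ v ∈ D ∨ MD.th c v ∈ D := by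
  classical
  unfold dbl
  rw [mem_union, mem_image]
  constructor
  · rintro (h | ⟨w, hw, rfl⟩)
    · exact Or.inl h
    · right
      rwa [MD.th_th]
  · rintro (h | h)
    · exact Or.inl h
    · exact Or.inr ⟨_, h, MD.th_th c v⟩

/-- the uniform bound of the row sums of the covariances (MD, every row) -/
def RowAll (C : ℝ) : Prop := ∀ (R : ℕ), 1 ≤ R → ∀ D : Finset V, BdryPar D 0 →
    (∀ u ∈ D, ∀ v ∈ D, |u.1 - v.1| ≤ R ∧ |u.2 - v.2| ≤ R) → ∀ w ∈ D, ∀ y : ℤ,
      ∑ x ∈ D.filter (fun x => x.2 = y), MD.cv D x w ≤ C * R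

/-- increasing function of the absolute values -/
structure Inc (F : (V → ℤ) → ℝ) : Prop where
  nn : ∀ g, 0 ≤ F g
  abs : ∀ g : V → ℤ, F (fun v => |g v|) = F g
  mono : ∀ g g' : V → ℤ, (∀ v, 0 ≤ g v) → (∀ v, g v ≤ g' v) → F g ≤ F g'

/-- increasing event of the absolute values -/
structure IncE (E : (V → ℤ) → Prop) : Prop where
  abs : ∀ g : V → ℤ, E (fun v => |g v|) ↔ E g
  mono : ∀ g g' : V → ℤ, (∀ v, 0 ≤ g v) → (∀ v, g v ≤ g' v) → E g → E g'

lemma IncE.inc {E : (V → ℤ) → Prop} (h : IncE E) : Inc (fun g => ind (E g)) := by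
  refine ⟨fun g => ind_nonneg _, fun g => ?_, fun g g' h1 h2 => ind_mono (h.mono g g' h1 h2)⟩
  show ind (E fun v => |g v|) = ind (E g)
  rw [propext (h.abs g)]

/-- environment: zeros of the parity of `p` which contain the boundary, the annulus between the squares of radius `a`
and `b` about `x` lies in the domain and contains no zeros -/
structure Env (D : Finset V) (p : ℤ) (Z : Finset V) (x : V) (a b : ℤ) : Prop where
  bd : bdry D ⊆ Z
  sub : Z ⊆ D
  par : ∀ v ∈ Z, Even (RP4.par v - p)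
  dom : ∀ v ∈ DV.Sq x b, v ∉ DV.Sq x a → v ∈ D
  free : ∀ v ∈ DV.Sq x b, v ∉ DV.Sq x a → v ∉ Z

lemma Env.mono {D : Finset V} {p : ℤ} {Z : Finset V} {x : V} {a b a' b' : ℤ} (h : Env D p Z x a b)
    (ha : a ≤ a') (hb : b' ≤ b) : Env D p Z x a' b' := by
  refine ⟨h.bd, h.sub, h.par, fun v hv hv' => h.dom v (DV.Sq_mono hb hv) fun h1 => hv' (DV.Sq_mono ha h1),
    fun v hv hv' => h.free v (DV.Sq_mono hb hv) fun h1 => hv' (DV.Sq_mono ha h1)⟩

end AL
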