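import Pool.Agent.Helper74.AL.F1a

/-!
ALPHA piece F1: local increasing functions and smaller domains.
-/

open Finset RP4 KP

namespace AL

/-- `abs_fkg_gen` (file E2) with `Z' = Z ∪ bdry W`, then `avg_restrict` for `Z'`. -/
theorem mono_restrict {D W : Finset V} {p : ℤ} {Z : Finset V} (hb : bdry D ⊆ Z) (hZD : Z ⊆ D)
    (hpar : ∀ v ∈ Z, Even (par v - p)) (hWD : W ⊆ D) (hWp : ∀ v ∈ bdry W, Even (par v - p)) (hZW : ∀ v ∈ Z, v ∉ W)
    {F : (V → ℤ) → ℝ} (hF : Inc F) (hloc : ∀ g g' : V → ℤ, (∀ v ∈ W, g v = g' v) → F g = F g') :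
    avg (Zs W p (bdry W)) F ≤ avg (Zs D p Z) F := by
  classical
  have h1 : Z ∪ bdry W ⊆ D := by
    intro v hv
    rcases mem_union.1 hv with hv | hv
    · exact hZD hv
    · exact hWD (mem_bdry.1 hv).1
  have h2 : ∀ v ∈ Z ∪ bdry W, Even (par v - p) := by
    intro v hv
    rcases mem_union.1 hv with hv | hv
    · exact hpar v hv
    · exact hWp v hv
  have h3 : ∀ v ∈ W, v ∈ Z ∪ bdry W ↔ v ∈ bdry W := by
    intro v hv
    constructor
    · intro h
      rcases mem_union.1 h with h | h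
      · exact absurd hv (hZW v h)
      · exact h
    · exact fun h => mem_union_right _ h
  rw [← avg_restrict (hb.trans subset_union_left) h1 h2 hWD h3 hloc]
  exact abs_fkg_gen D p Z (Z ∪ bdry W) hb subset_union_left h1 h2 F hF.nn hF.abs hF.mono

end AL
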