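import Pool.Agent.Helper74.AL.Defs
import Pool.Agent.Helper63.RP4.E3

/-!
ALPHA piece F1a: restriction to a smaller domain.
-/

open Finset RP4 KP

namespace AL

/-- the values on `W` -/
private noncomputable def F1a_in (W : Finset V) (g : V → ℤ) : V → ℤ := by
  classical exact fun v => if v ∈ W then g v else 0

/-- the values off `W` -/
private noncomputable def F1a_out (W : Finset V) (g : V → ℤ) : V → ℤ := by
  classical exact fun v => if v ∈ W then 0 else g v

private lemma F1a_in_mem {W : Finset V} {g : V → ℤ} {v : V} (h : v ∈ W) : F1a_in W g v = g v := by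
  unfold F1a_in
  exact if_pos h

private lemma F1a_in_not {W : Finset V} {g : V → ℤ} {v : V} (h : v ∉ W) : F1a_in W g v = 0 := by
  unfold F1a_in
  exact if_neg h

private lemma F1a_out_mem {W : Finset V} {g : V → ℤ} {v : V} (h : v ∈ W) : F1a_out W g v = 0 := by
  unfold F1a_out
  exact if_pos h

private lemma F1a_out_not {W : Finset V} {g : V → ℤ} {v : V} (h : v ∉ W) : F1a_out W g v = g v := by
  unfold F1a_out
  exact if_neg h

private lemma F1a_adj {u v : V} (h : Adj u v) : Adj v u := by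
  unfold Adj at h ⊢
  rw [abs_sub_comm v.1, abs_sub_comm v.2]
  exact h

private lemma F1a_rho {D W : Finset V} {p : ℤ} {Z : Finset V} (hb : bdry D ⊆ Z)
    (hWD : W ⊆ D) (hZW : ∀ v ∈ W, v ∈ Z ↔ v ∈ bdry W) {g : V → ℤ} (hg : g ∈ Zs D p Z) :
    F1a_in W g ∈ Zs W p (bdry W) := by
  rw [mem_Zs hb] at hg
  rw [mem_Zs (Subset.refl _)]
  refine ⟨⟨fun v hv => F1a_in_not hv, fun v hv => ?_, fun u hu v hv ha => ?_⟩, fun v hv => ?_⟩
  · rw [F1a_in_mem hv]
    exact hg.1.par v (hWD hv)
  · rw [F1a_in_mem hu, F1a_in_mem hv]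
    exact hg.1.step u (hWD hu) v (hWD hv) ha
  · have h1 := bdry_subset W hv
    rw [F1a_in_mem h1]
    exact hg.2 v ((hZW v h1).2 hv)

private lemma F1a_glue {D W : Finset V} {p : ℤ} {Z : Finset V} (hb : bdry D ⊆ Z)
    (hWD : W ⊆ D) (hZW : ∀ v ∈ W, v ∈ Z ↔ v ∈ bdry W) {u g : V → ℤ} (hu : u ∈ Zs W p (bdry W))
    (hg : g ∈ Zs D p Z) : u + F1a_out W g ∈ Zs D p Z := by
  rw [mem_Zs hb] at hg ⊢
  rw [mem_Zs (Subset.refl _)] at hu
  have e1 : ∀ v ∈ W, (u + F1a_out W g) v = u v := fun v hv => by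
    rw [Pi.add_apply, F1a_out_mem hv, add_zero]
  have e2 : ∀ v, v ∉ W → (u + F1a_out W g) v = g v := fun v hv => by
    rw [Pi.add_apply, F1a_out_not hv, hu.1.off v hv, zero_add]
  have key : ∀ a ∈ D, ∀ b ∈ D, Adj a b → a ∈ W → b ∉ W →
      |(u + F1a_out W g) a - (u + F1a_out W g) b| = 1 := by
    intro a ha b hb' hab haW hbW
    have h1 : a ∈ bdry W := mem_bdry.2 ⟨haW, b, F1a_adj hab, hbW⟩
    have h2 := hg.2 a ((hZW a haW).2 h1)
    have h3 := hg.1.step a ha b hb' hab
    rw [e1 a haW, e2 b hbW, hu.2 a h1]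
    rwa [h2] at h3
  refine ⟨⟨fun v hv => ?_, fun v hv => ?_, fun a ha b hb' hab => ?_⟩, fun v hv => ?_⟩
  · rw [e2 v (fun h => hv (hWD h))]
    exact hg.1.off v hv
  · by_cases h : v ∈ W
    · rw [e1 v h]
      exact hu.1.par v h
    · rw [e2 v h]
      exact hg.1.par v hv
  · by_cases h1 : a ∈ W
    · by_cases h2 : b ∈ W
      · rw [e1 a h1, e1 b h2]
        exact hu.1.step a h1 b h2 hab
      · exact key a ha b hb' hab h1 h2
    · by_cases h2 : b ∈ W
      · rw [abs_sub_comm]
        exact key b hb' a ha (F1a_adj hab) h2 h1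
      · rw [e2 a h1, e2 b h2]
        exact hg.1.step a ha b hb' hab
  · by_cases h : v ∈ W
    · rw [e1 v h]
      exact hu.2 v ((hZW v h).1 hv)
    · rw [e2 v h]
      exact hg.2 v hv

/-- RESTRICTION.  `W ⊆ D`, `Z` meets `W` exactly in the boundary of `W`, `F` depends only on the values on `W`.  Compare `RP4.clu_restrict` (file E3).  For `g ∈ Zs D p Z` let `g'` be `g` on `W` and `0` off `W`:
`g' ∈ Zs W p (bdry W)` and `F g = F g'`.  All fibres of `g ↦ g'` have the same number of elements: for `k ∈ Zs W p (bdry W)` the map which replaces the values on `W` by those of `k` is a bijection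
from the fibre over `k₀` to the fibre over `k` (an edge between `W` and its complement has its end in `W` in `bdry W`, where both are `0`; the parity conditions are the same; members of `Zs` by
`mem_Zs` with `hb`, resp. `subset_rfl`).  The fibre over one (every) `k` is nonempty iff `Zs D p Z` is nonempty; both sets are nonempty by `flat_mem_Zs` (`hZD`, `hpar`, file A02).
So `∑_{g ∈ Zs D p Z} F g = N ∑_{k ∈ Zs W p (bdry W)} F k` and `#(Zs D p Z) = N #(Zs W p (bdry W))`, `N > 0`. -/
theorem avg_restrict {D W : Finset V} {p : ℤ} {Z : Finset V} (hb : bdry D ⊆ Z) (hZD : Z ⊆ D)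
    (hpar : ∀ v ∈ Z, Even (par v - p)) (hWD : W ⊆ D) (hZW : ∀ v ∈ W, v ∈ Z ↔ v ∈ bdry W) {F : (V → ℤ) → ℝ}
    (hloc : ∀ g g' : V → ℤ, (∀ v ∈ W, g v = g' v) → F g = F g') : avg (Zs D p Z) F = avg (Zs W p (bdry W)) F := by
  classical
  set A := Zs D p Z with hA
  set B := Zs W p (bdry W) with hB
  have hrho : ∀ g ∈ A, F1a_in W g ∈ B := fun g hg => F1a_rho hb hWD hZW hg
  have hglue : ∀ u ∈ B, ∀ g ∈ A, u + F1a_out W g ∈ A := fun u hu g hg => F1a_glue hb hWD hZW hu hg
  have hne : A.Nonempty := ⟨flat D p, flat_mem_Zs hb hZD hpar⟩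
  have hBoff : ∀ u ∈ B, ∀ v, v ∉ W → u v = 0 := fun u hu v hv =>
    ((mem_Zs (Subset.refl (bdry W))).1 hu).1.off v hv
  set O := A.image (F1a_out W) with hO
  have hOne : O.Nonempty := hne.image _
  have key : ∀ G : (V → ℤ) → ℝ, (∀ g ∈ A, G g = G (F1a_in W g)) →
      ∑ g ∈ A, G g = O.card * ∑ u ∈ B, G u := by
    intro G hG
    have h1 : ∑ g ∈ A, G g = ∑ q ∈ B ×ˢ O, G q.1 := by
      refine Finset.sum_nbij' (fun g => (F1a_in W g, F1a_out W g)) (fun q => q.1 + q.2)
        ?_ ?_ ?_ ?_ ?_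
      · intro g hg
        exact mem_product.2 ⟨hrho g hg, mem_image_of_mem _ hg⟩
      · intro q hq
        obtain ⟨h1, h2⟩ := mem_product.1 hq
        obtain ⟨g, hg, hg'⟩ := mem_image.1 h2
        rw [← hg']
        exact hglue _ h1 g hg
      · intro g hg
        funext v
        by_cases hv : v ∈ W
        · simp only [Pi.add_apply, F1a_in_mem hv, F1a_out_mem hv, add_zero]
        · simp only [Pi.add_apply, F1a_in_not hv, F1a_out_not hv, zero_add]
      · intro q hq
        obtain ⟨h1, h2⟩ := mem_product.1 hq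
        obtain ⟨g, hg, hg'⟩ := mem_image.1 h2
        have h3 := hBoff _ h1
        refine Prod.ext ?_ ?_
        · funext v
          by_cases hv : v ∈ W
          · simp only [F1a_in_mem hv, Pi.add_apply, ← hg', F1a_out_mem hv, add_zero]
          · simp only [F1a_in_not hv, h3 v hv]
        · funext v
          by_cases hv : v ∈ W
          · simp only [F1a_out_mem hv, ← hg']
          · simp only [F1a_out_not hv, Pi.add_apply, h3 v hv, zero_add]
      · intro g hg
        exact hG g hg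
    rw [h1, Finset.sum_product, Finset.mul_sum]
    refine Finset.sum_congr rfl fun u _ => ?_
    simp only [sum_const, nsmul_eq_mul]
  have hc := key (fun _ => 1) (fun _ _ => rfl)
  simp only [sum_const, nsmul_eq_mul, mul_one] at hc
  have hOc : (O.card : ℝ) ≠ 0 := by
    exact_mod_cast hOne.card_pos.ne'
  show avg A F = avg B F
  unfold avg
  rw [key F (fun g _ => hloc g _ fun v hv => (F1a_in_mem hv).symm), hc, mul_div_mul_left _ _ hOc]

end AL
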