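import Pool.Agent.Helper74.AL.F2a
import Pool.Agent.Helper63.RP4.A03h

/-!
ALPHA piece F2: positive association, absolute values and heights.
-/

open Finset RP4 KP

namespace AL

/-- POSITIVE ASSOCIATION OF THE HEIGHTS.  The same computation with `holley_avg` (file A03h): `A = Zs D p Z` is closed under `⊔`, `⊓` (pointwise maximum and minimum of two members: see the proofs in A03 / A03s, e.g.
`sup_mem`, `inf_mem`-type lemmas for `IsHom`), `B = A.filter (¬ E')`, `a ⊓ b ∈ B` for `a ∈ A`, `b ∈ B` because `E'` is increasing; `F = ind E`. -/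
theorem hpa_ev {D : Finset V} {p : ℤ} {Z : Finset V} (hb : bdry D ⊆ Z) {E E' : (V → ℤ) → Prop}
    (hE : ∀ g g' : V → ℤ, (∀ v, g v ≤ g' v) → E g → E g') (hE' : ∀ g g' : V → ℤ, (∀ v, g v ≤ g' v) → E' g → E' g') :
    avg (Zs D p Z) (fun h => ind (E h)) * avg (Zs D p Z) (fun h => ind (E' h)) ≤
      avg (Zs D p Z) (fun h => ind (E h ∧ E' h)) := by
  classical
  set A := Zs D p Z with hA
  set B := A.filter (fun h => ¬ E' h) with hB
  have hmem : ∀ g, g ∈ A ↔ IsHom D p g ∧ ∀ v ∈ Z, g v = 0 := fun g => mem_Zs hb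
  have hsup : ∀ a ∈ A, ∀ b ∈ B, a ⊔ b ∈ A := by
    intro a ha b hbB
    have hbA := (mem_filter.1 hbB).1
    rw [hmem] at ha hbA ⊢
    refine ⟨ha.1.sup hbA.1, fun v hv => ?_⟩
    rw [Pi.sup_apply, ha.2 v hv, hbA.2 v hv, sup_idem]
  have hinf : ∀ a ∈ A, ∀ b ∈ B, a ⊓ b ∈ B := by
    intro a ha b hbB
    obtain ⟨hbA, hbE⟩ := mem_filter.1 hbB
    refine mem_filter.2 ⟨?_, fun h => hbE (hE' _ _ (fun v => ?_) h)⟩
    · rw [hmem] at ha hbA ⊢
      refine ⟨ha.1.inf hbA.1, fun v hv => ?_⟩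
      rw [Pi.inf_apply, ha.2 v hv, hbA.2 v hv, inf_idem]
    · exact inf_le_right
  have key := holley_sets A B hsup hinf (fun h => ind (E h))
    (fun a _ b _ => ind_mono (hE _ _ (fun v => le_sup_right)))
  have e1 : ∑ b ∈ B, ind (E b) = ∑ h ∈ A, ind (E h) - ∑ h ∈ A, ind (E h ∧ E' h) := by
    rw [hB, sum_filter, ← sum_sub_distrib]
    refine sum_congr rfl fun h _ => ?_
    unfold ind
    by_cases h1 : E h <;> by_cases h2 : E' h <;> simp [h1, h2]
  have e2 : (B.card : ℝ) = A.card - ∑ h ∈ A, ind (E' h) := by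
    have h1 : (B.card : ℝ) = ∑ h ∈ A, (if ¬ E' h then (1 : ℝ) else 0) := by
      rw [← sum_filter, sum_const, nsmul_eq_mul, mul_one]
    have h2 : (A.card : ℝ) = ∑ h ∈ A, (1 : ℝ) := by
      rw [sum_const, nsmul_eq_mul, mul_one]
    rw [h1, h2, ← sum_sub_distrib]
    refine sum_congr rfl fun h _ => ?_
    unfold ind
    by_cases h2 : E' h <;> simp [h2]
  simp only at key
  rw [e1, e2] at key
  unfold avg
  rcases Nat.eq_zero_or_pos A.card with h0 | h0
  · simp [h0]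
  · have h1 : (0 : ℝ) < A.card := by exact_mod_cast h0
    rw [div_mul_div_comm, div_le_div_iff₀ (mul_pos h1 h1) h1]
    nlinarith [key]

end AL
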