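import Pool.Agent.Helper74.AL.Defs
import Pool.Agent.Helper97.DV.Gc

/-!
ALPHA piece F2a: positive association of the absolute values.
-/

open Finset RP4 KP

namespace AL

private lemma F2a_inc {E : (V → ℤ) → Prop} (hE : IncE E) : DV.Inc E :=
  ⟨fun g => hE.abs g, fun g g' h1 h2 h3 => hE.mono g g' h1 h2 h3⟩

private lemma F2a_pr (A : Finset (V → ℤ)) (E : (V → ℤ) → Prop) :
    avg A (fun h => ind (E h)) = DV.pr A E := by
  unfold DV.pr ind
  rfl

/-- POSITIVE ASSOCIATION OF THE ABSOLUTE VALUES.  `DV.gfkg` (Helper97, DV, Gk) with `B = B' = ∅`, `A = Zs D p Z`, `T = {ξ | ∀ v ∈ Z, ξ v = 0}`, `A' = A.filter (¬ E')`, `T' = {ξ | (∀ v ∈ Z, ξ v = 0) ∧ ¬ E' ξ}`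
(`E'` is a property of the absolute value, increasing, so `ξ' ∈ T'`, `ξ ∈ T` give `ξ' ⊓ ξ ∈ T'`), `F = ind E`: `avg A' (ind E) ≤ avg A (ind E)`.  With `a = #A`, `b = #(A.filter E')`, `e = #(A.filter E)`, `m = #(A.filter (E ∧ E'))`:
`(e - m) / (a - b) ≤ e / a`, i.e. `e b ≤ m a`.  (If `A'` is empty then `E'` holds on all of `A`, if `A` is empty everything is `0`.)  Members of `Zs` by `mem_Zs hb`. -/
theorem pa_ev {D : Finset V} {p : ℤ} {Z : Finset V} (hb : bdry D ⊆ Z) {E E' : (V → ℤ) → Prop} (hE : IncE E) (hE' : IncE E') :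
    avg (Zs D p Z) (fun h => ind (E h)) * avg (Zs D p Z) (fun h => ind (E' h)) ≤
      avg (Zs D p Z) (fun h => ind (E h ∧ E' h)) := by
  rw [F2a_pr, F2a_pr, F2a_pr]
  exact DV.pr_inc_inc (DV.fam_Zs hb) (DV.lat_Tb D p (Z : Set V) 0) (F2a_inc hE) (F2a_inc hE')

end AL
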