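import Pool.Agent.Helper74.AL.F3a
import Pool.Agent.Helper74.AL.F1

/-!
ALPHA piece F3: transport by symmetries, crossings in any environment from a tube.
-/

open Finset RP4 KP

namespace AL

/-- the local event -/
private def F3_ev (W : Finset V) (τ : V ≃ V) (a b : ℤ) (h : V → ℤ) : Prop :=
  ∃ q q', DV.Con {v | v ∈ W ∧ h (τ v) ≠ 0} q q' ∧ q.2 ≤ a ∧ b ≤ q'.2

private lemma F3_ev_mono {W : Finset V} {τ : V ≃ V} {a b : ℤ} {h h' : V → ℤ}
    (hh : ∀ v ∈ W, h (τ v) ≠ 0 → h' (τ v) ≠ 0) (H : F3_ev W τ a b h) : F3_ev W τ a b h' := by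
  obtain ⟨q, q', h1, h2, h3⟩ := H
  refine ⟨q, q', h1.mono (fun _ _ h => h) ?_, h2, h3⟩
  intro v hv
  exact ⟨hv.1, hh v hv.1 hv.2⟩

private lemma F3_incE (W : Finset V) (τ : V ≃ V) (a b : ℤ) : IncE (F3_ev W τ a b) := by
  constructor
  · intro g
    constructor
    · exact F3_ev_mono fun v _ hv => by simpa using hv
    · exact F3_ev_mono fun v _ hv => by simpa using hv
  · intro g g' h0 hle
    refine F3_ev_mono fun v _ hv => ?_
    have h1 := h0 (τ v)
    have h2 := hle (τ v)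
    omega

private lemma F3_base (W : Finset V) (a b : ℤ) :
    avg (Om W) (fun h => ind (∃ q q', DV.Con (DV.nz h) q q' ∧ q.2 ≤ a ∧ b ≤ q'.2)) ≤
      avg (Zs W 0 (bdry W)) (fun h => ind (F3_ev W (Equiv.refl V) a b h)) := by
  unfold Om
  refine avg_mono fun g hg => ind_mono ?_
  rintro ⟨q, q', h1, h2, h3⟩
  refine ⟨q, q', h1.mono (fun _ _ h => h) ?_, h2, h3⟩
  intro v hv
  refine ⟨?_, hv⟩
  by_contra hvW
  exact hv (((mem_Zs (Subset.refl (bdry W))).1 hg).1.off v hvW)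

/-- CROSSING IN AN ENVIRONMENT.  Let `E₀ h := ∃ q q', Con {v | v ∈ W ∧ h (τ v) ≠ 0} q q' ∧ q.2 ≤ a ∧ b ≤ q'.2`.  It is increasing in `|h|` and depends only on `h` on `img τ W`.  For `g ∈ Om W` (zero off `W`) `nz g = {v | v ∈ W ∧ g v ≠ 0}`, so by
`avg_Zs_img` (`p = 0`, `Z = bdry W`, `bdry_img`) `c ≤ avg (Zs (img τ W) p (bdry (img τ W))) (ind E₀)`, and `mono_restrict` (the boundary of `img τ W` has the parity of `p` by `hp` and `hW`) gives
`≤ avg (Zs D p Z) (ind E₀) ≤ avg (Zs D p Z) (ind E)`. -/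
theorem cross_gen {c : ℝ} {a b : ℤ} {W : Finset V} (hW : BdryPar W 0)
    (hc : c ≤ avg (Om W) (fun h => ind (∃ q q', DV.Con (DV.nz h) q q' ∧ q.2 ≤ a ∧ b ≤ q'.2))) {τ : V ≃ V} (hτ : LSym τ)
    {p : ℤ} (hp : ∀ v, Even (par (τ v) + p - par v)) {D Z : Finset V} (hb : bdry D ⊆ Z) (hZD : Z ⊆ D)
    (hZ : ∀ v ∈ Z, Even (par v - p)) (hWD : ∀ v ∈ W, τ v ∈ D ∧ τ v ∉ Z) {E : (V → ℤ) → Prop}
    (hEv : ∀ h : V → ℤ, (∃ q q', DV.Con {v | v ∈ W ∧ h (τ v) ≠ 0} q q' ∧ q.2 ≤ a ∧ b ≤ q'.2) → E h) :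
    c ≤ avg (Zs D p Z) (fun h => ind (E h)) := by
  have h1 := hc.trans (F3_base W a b)
  have h2 : avg (Zs (img τ W) p (img τ (bdry W))) (fun g => ind (F3_ev W (Equiv.refl V) a b (fun v => g (τ v)))) =
      avg (Zs W 0 (bdry W)) (fun h => ind (F3_ev W (Equiv.refl V) a b h)) :=
    avg_Zs_img hτ (p := 0) (q := p) (fun v => by simpa using hp v) W (bdry W)
      (fun h => ind (F3_ev W (Equiv.refl V) a b h))
  rw [← h2, ← bdry_img hτ] at h1
  have h3 : avg (Zs (img τ W) p (bdry (img τ W))) (fun g => ind (F3_ev W τ a b g)) ≤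
      avg (Zs D p Z) (fun g => ind (F3_ev W τ a b g)) := by
    refine mono_restrict hb hZD hZ ?_ ?_ ?_ (F3_incE W τ a b).inc ?_
    · intro v hv
      have := (hWD _ (T1_mem_img.1 hv)).1
      rwa [Equiv.apply_symm_apply] at this
    · intro v hv
      rw [bdry_img hτ] at hv
      have e1 := hW _ (T1_mem_img.1 hv)
      have e2 := hp (τ.symm v)
      rw [Equiv.apply_symm_apply] at e2
      rw [Int.even_iff] at e1 e2 ⊢
      omega
    · intro v hv hv'
      have := (hWD _ (T1_mem_img.1 hv')).2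
      rw [Equiv.apply_symm_apply] at this
      exact this hv
    · intro g g' hgg
      have : F3_ev W τ a b g ↔ F3_ev W τ a b g' := by
        constructor
        · exact F3_ev_mono fun v hv h => by rwa [← hgg _ (T1_mem_img'.2 hv)]
        · exact F3_ev_mono fun v hv h => by rwa [hgg _ (T1_mem_img'.2 hv)]
      show ind _ = ind _
      rw [propext this]
  exact h1.trans (h3.trans (avg_mono fun g _ => ind_mono (hEv g)))

end AL
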