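import Pool.Agent.Helper74.AL.Defs
import Pool.Agent.Helper63.RP4.T1

/-!
ALPHA piece F3a: transport by symmetries.
-/

open Finset RP4 KP

namespace AL

private lemma avg_Zs_img_mem {τ : V ≃ V} (h : LSym τ) {p q : ℤ}
    (hpq : ∀ v, Even (par (τ v) + q - par v - p)) {D Z : Finset V} {g : V → ℤ}
    (hg : g ∈ zeroSet (img τ D) q (img τ Z)) : (fun v => g (τ v)) ∈ zeroSet D p Z :=
  ⟨T1_isHom h hpq hg.1, fun v hv => hg.2 _ (T1_mem_img'.2 hv)⟩

private lemma avg_Zs_img_mem' {τ : V ≃ V} (h : LSym τ) {p q : ℤ}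
    (hpq : ∀ v, Even (par (τ v) + q - par v - p)) {D Z : Finset V} {f : V → ℤ}
    (hf : f ∈ zeroSet D p Z) : (fun v => f (τ.symm v)) ∈ zeroSet (img τ D) q (img τ Z) := by
  refine avg_Zs_img_mem (p := q) (q := p) (T1_symm h) (fun v => ?_) ?_
  · have h1 := hpq (τ.symm v)
    rw [Equiv.apply_symm_apply] at h1
    rw [Int.even_iff] at h1 ⊢
    omega
  · rw [T1_img_symm, T1_img_symm]
    exact hf

private lemma avg_Zs_img_fin {τ : V ≃ V} (h : LSym τ) {p q : ℤ}
    (hpq : ∀ v, Even (par (τ v) + q - par v - p)) (D Z : Finset V) :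
    (zeroSet (img τ D) q (img τ Z)).Finite ↔ (zeroSet D p Z).Finite := by
  constructor
  · intro hf
    refine (hf.image (fun g : V → ℤ => fun v => g (τ v))).subset fun f hf' => ?_
    refine ⟨fun v => f (τ.symm v), avg_Zs_img_mem' h hpq hf', ?_⟩
    funext v
    simp only [Equiv.symm_apply_apply]
  · intro hf
    refine (hf.image (fun g : V → ℤ => fun v => g (τ.symm v))).subset fun f hf' => ?_
    refine ⟨fun v => f (τ v), avg_Zs_img_mem h hpq hf', ?_⟩
    funext v
    simp only [Equiv.apply_symm_apply]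

/-- As `avg_Om_img` (file T1): `T1_avg` with `T1_isHom` for `τ` and for `τ.symm`; `g ↦ g ∘ τ` is a bijection between `zeroSet (img τ D) q (img τ Z)` and `zeroSet D p Z`, in particular both are finite or both are infinite
(then both `Zs` are empty). -/
theorem avg_Zs_img {τ : V ≃ V} (h : LSym τ) {p q : ℤ} (hpq : ∀ v, Even (par (τ v) + q - par v - p)) (D Z : Finset V)
    (F : (V → ℤ) → ℝ) : avg (Zs (img τ D) q (img τ Z)) (fun g => F (fun v => g (τ v))) = avg (Zs D p Z) F := by
  have hfin := avg_Zs_img_fin h hpq D Z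
  by_cases hf : (zeroSet D p Z).Finite
  · have hf' := hfin.2 hf
    refine T1_avg τ _ _ F (fun g hg => ?_) (fun f hf1 => ?_)
    · unfold Zs at hg ⊢
      rw [dif_pos hf', Set.Finite.mem_toFinset] at hg
      rw [dif_pos hf, Set.Finite.mem_toFinset]
      exact avg_Zs_img_mem h hpq hg
    · unfold Zs at hf1 ⊢
      rw [dif_pos hf, Set.Finite.mem_toFinset] at hf1
      rw [dif_pos hf', Set.Finite.mem_toFinset]
      exact avg_Zs_img_mem' h hpq hf1
  · have hf' : ¬(zeroSet (img τ D) q (img τ Z)).Finite := fun h1 => hf (hfin.1 h1)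
    unfold Zs
    rw [dif_neg hf, dif_neg hf']
    unfold avg
    rw [Finset.sum_empty, Finset.sum_empty]

end AL
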