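import Pool.Agent.Helper74.AL.Defs
import Pool.Agent.Helper63.RP4.T1

/-!
ALPHA piece F4a: cutting a path to a rectangle.
-/

open Finset RP4 KP

namespace AL

/-- Use `DV.Jn.level` (file Fr, Helper97) twice: first with `φ v = -v.2`, level `-b`, from `q` (`φ q ≥ -b` since `q.2 ≤ a ≤ b`) to `q'` (`φ q' ≤ -b`): a point `u'` with `u'.2 = b` and a path from `q` to `u'` in `{v.2 ≤ b}`; reverse it
(`DV.Con.symm'`) and use `DV.Jn.level` with `φ v = v.2`, level `a`, from `u'` to `q`. -/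
theorem cut_rows {S : Set V} {q q' : V} {a b : ℤ} (hab : a ≤ b) (h : DV.Con S q q') (hq : q.2 ≤ a) (hq' : b ≤ q'.2) :
    ∃ u u', DV.Con (S ∩ {v | a ≤ v.2 ∧ v.2 ≤ b}) u u' ∧ u.2 = a ∧ u'.2 = b := by
  obtain ⟨p, h1, h2⟩ := DV.Jn.level (φ := fun v => -v.2)
    (fun a b h => by
      have h3 := (DV.adj_kng h).2
      rw [abs_le] at h3 ⊢
      constructor <;> linarith [h3.1, h3.2]) h (n := -b) (by show -b ≤ -q.2; omega) (by show -q'.2 ≤ -b; omega)
  have h2' : p.2 = b := by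
    have : -p.2 = -b := h2
    omega
  obtain ⟨p', h3, h4⟩ := DV.Jn.level (φ := fun v => v.2) (fun a b h => (DV.adj_kng h).2) (DV.Con.symm' h1) (n := a)
    (by show a ≤ p.2; omega) hq
  refine ⟨p', p, (DV.Con.symm' h3).mono (fun _ _ h => h) ?_, h4, h2'⟩
  rintro v ⟨⟨h5, h6⟩, h7⟩
  have h6' : -b ≤ -v.2 := h6
  have h7' : a ≤ v.2 := h7
  exact ⟨h5, h7', by omega⟩

/-- the path moved by a bijection which preserves adjacency -/
theorem con_map {τ : V ≃ V} (hτ : LSym τ) {S S' : Set V} {u v : V} (h : DV.Con S u v) (hS : ∀ w ∈ S, τ w ∈ S') :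
    DV.Con S' (τ u) (τ v) := by
  obtain ⟨hu, h⟩ := h
  refine ⟨hS _ hu, ?_⟩
  induction h with
  | refl => exact Relation.ReflTransGen.refl
  | tail _ h ih => exact ih.tail ⟨(hτ.adj _ _).2 h.1, hS _ h.2.1, hS _ h.2.2⟩

private lemma F4a_nz_abs (g : V → ℤ) : DV.nz (fun v => |g v|) = DV.nz g := by
  ext v
  show |g v| ≠ 0 ↔ g v ≠ 0
  rw [ne_eq, ne_eq, abs_eq_zero]

private lemma F4a_nz_mono {g g' : V → ℤ} (h0 : ∀ v, 0 ≤ g v) (h : ∀ v, g v ≤ g' v) : DV.nz g ⊆ DV.nz g' := by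
  intro v hv
  have hv' : g v ≠ 0 := hv
  show g' v ≠ 0
  have h1 := h0 v
  have h2 := h v
  omega

/-- monotonicity of the frame in the set: the events `XL`, `XR`, `XT`, `XB` for the nonzero sites are increasing in the absolute value (`DV.nz`: `|g v| ≤ |g' v|` for all `v` gives `nz g ⊆ nz g'`) -/
theorem incE_XL (x : V) (n m : ℤ) : IncE (fun h => DV.XL Adj (DV.nz h) x n m) := by
  refine ⟨fun g => by rw [F4a_nz_abs], ?_⟩
  rintro g g' h0 h ⟨q, q', h1, h2⟩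
  exact ⟨q, q', h1.mono (fun _ _ h => h) (Set.inter_subset_inter_left _ (F4a_nz_mono h0 h)), h2⟩

theorem incE_XR (x : V) (n m : ℤ) : IncE (fun h => DV.XR Adj (DV.nz h) x n m) := by
  refine ⟨fun g => by rw [F4a_nz_abs], ?_⟩
  rintro g g' h0 h ⟨q, q', h1, h2⟩
  exact ⟨q, q', h1.mono (fun _ _ h => h) (Set.inter_subset_inter_left _ (F4a_nz_mono h0 h)), h2⟩

theorem incE_XT (x : V) (n m : ℤ) : IncE (fun h => DV.XT Adj (DV.nz h) x n m) := by
  refine ⟨fun g => by rw [F4a_nz_abs], ?_⟩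
  rintro g g' h0 h ⟨q, q', h1, h2⟩
  exact ⟨q, q', h1.mono (fun _ _ h => h) (Set.inter_subset_inter_left _ (F4a_nz_mono h0 h)), h2⟩

theorem incE_XB (x : V) (n m : ℤ) : IncE (fun h => DV.XB Adj (DV.nz h) x n m) := by
  refine ⟨fun g => by rw [F4a_nz_abs], ?_⟩
  rintro g g' h0 h ⟨q, q', h1, h2⟩
  exact ⟨q, q', h1.mono (fun _ _ h => h) (Set.inter_subset_inter_left _ (F4a_nz_mono h0 h)), h2⟩

end AL
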