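import Pool.Agent.Helper74.AL.Defs
import Pool.Agent.Helper35.MD.F2
import Pool.Agent.Helper35.MD.F3b
import Pool.Agent.Helper35.MD.F4

/-!
ALPHA piece K2: the probability of a relative pattern.
-/

open Finset RP4 KP

namespace AL

private lemma K2_zero {p : Prop} (h : ¬ p) : ind p = 0 := by
  unfold ind
  rw [if_neg h]

private lemma K2_one {p : Prop} (h : p) : ind p = 1 := by
  unfold ind
  rw [if_pos h]

/-- Split according to the value `h x₀ = 2 k` (even because `x₀` is even, `h ∈ Om D`; `|k| ≤ K` for a `K` that bounds all `|h x₀|`, `h` in the finite set `Om D`).  For each `k` the event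
`h x₀ = 2 k` and `h v = h x₀ + ρ v` on `S` is contained in the pattern `h = 2 k + ρ` on `S`, probability `≤ avg (Om D) (ind (h x₀ = 0)) / 2 ^ #O` by `MD.patt_bound` (file F2), and
in `h x₀ = 2 k`, probability `MD.pr D x₀ k` (file F3).  So the probability is at most `∑ k ∈ Icc (-K) K, min (p 0 / 2 ^ #O) (p k)` with `p = MD.pr D x₀`, and
`MD.min_sum` (file F4) with `MD.pr_nonneg, pr_neg, pr_one, pr_add, pr_sum` gives the bound.  Compare `MD.PT_le` (file F5), which is the same argument for towers. -/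
theorem rel_patt {D S O : Finset V} (hD : BdryPar D 0) (hS : S ⊆ D) (hOS : O ⊆ S)
    (hO : ∀ v ∈ O, v ∈ core D ∧ par v % 2 = 1 ∧ ∀ u, Adj u v → u ∈ S) (ρ : V → ℤ) {x₀ : V} (hx : x₀ ∈ S)
    (hx0 : par x₀ % 2 = 0) :
    avg (Om D) (fun h => ind (∀ v ∈ S, h v = h x₀ + ρ v)) ≤ (4 * O.card + 8) / 2 ^ O.card := by
  classical
  have hxD : x₀ ∈ D := hS hx
  -- the pattern
  have hk : ∀ k : ℤ, avg (Om D) (fun h => ind ((∀ v ∈ S, h v = h x₀ + ρ v) ∧ h x₀ = 2 * k)) ≤
      min (MD.pr D x₀ 0 / 2 ^ O.card) (MD.pr D x₀ k) := by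
    intro k
    refine le_min ?_ (avg_mono fun h _ => ind_mono fun hu => hu.2)
    calc avg (Om D) (fun h => ind ((∀ v ∈ S, h v = h x₀ + ρ v) ∧ h x₀ = 2 * k))
        ≤ avg (Om D) (fun h => ind (∀ v ∈ S, h v = 2 * k + ρ v)) := by
          refine avg_mono fun h _ => ind_mono ?_
          rintro ⟨hu, hu2⟩ v hv
          rw [hu v hv, hu2]
      _ ≤ avg (Om D) (fun h => ind (h x₀ = 0)) / 2 ^ O.card :=
          MD.patt_bound hS hOS hO (fun v => 2 * k + ρ v) hx hx0
      _ = MD.pr D x₀ 0 / 2 ^ O.card := by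
          unfold MD.pr
          rw [mul_zero]
  -- the sum over the values
  have hsum : avg (Om D) (fun h => ind (∀ v ∈ S, h v = h x₀ + ρ v)) ≤
      ∑ k ∈ Icc (-(D.card : ℤ)) D.card,
        avg (Om D) (fun h => ind ((∀ v ∈ S, h v = h x₀ + ρ v) ∧ h x₀ = 2 * k)) := by
    have hex : ∑ k ∈ Icc (-(D.card : ℤ)) D.card,
          avg (Om D) (fun h => ind ((∀ v ∈ S, h v = h x₀ + ρ v) ∧ h x₀ = 2 * k)) =
        avg (Om D) (fun h => ∑ k ∈ Icc (-(D.card : ℤ)) D.card,
          ind ((∀ v ∈ S, h v = h x₀ + ρ v) ∧ h x₀ = 2 * k)) := by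
      unfold avg
      rw [Finset.sum_comm, Finset.sum_div]
    rw [hex]
    refine avg_mono fun h hh => ?_
    by_cases hu : ∀ v ∈ S, h v = h x₀ + ρ v
    · rw [K2_one hu]
      have hm := mem_Om.1 hh
      have hpar := hm.1.par x₀ hxD
      rw [Int.even_iff] at hpar
      obtain ⟨b, hb, hbv⟩ := hm.1.bound_bdry hxD
      rw [hm.2 b hb, sub_zero, abs_le] at hbv
      have hmem : h x₀ / 2 ∈ Icc (-(D.card : ℤ)) D.card := by
        rw [mem_Icc]
        omega
      have h1 : ind ((∀ v ∈ S, h v = h x₀ + ρ v) ∧ h x₀ = 2 * (h x₀ / 2)) = 1 := by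
        apply K2_one
        refine ⟨hu, ?_⟩
        omega
      rw [← h1]
      exact Finset.single_le_sum (f := fun k : ℤ =>
        ind ((∀ v ∈ S, h v = h x₀ + ρ v) ∧ h x₀ = 2 * k)) (fun _ _ => ind_nonneg _) hmem
    · rw [K2_zero hu]
      exact Finset.sum_nonneg fun _ _ => ind_nonneg _
  calc avg (Om D) (fun h => ind (∀ v ∈ S, h v = h x₀ + ρ v)) ≤ _ := hsum
    _ ≤ ∑ k ∈ Icc (-(D.card : ℤ)) D.card, min (MD.pr D x₀ 0 / 2 ^ O.card) (MD.pr D x₀ k) :=
        Finset.sum_le_sum fun k _ => hk k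
    _ ≤ (4 * O.card + 8) / 2 ^ O.card :=
        MD.min_sum (MD.pr D x₀) (MD.pr_nonneg D x₀) (MD.pr_neg D x₀) (MD.pr_one D x₀ hx0)
          (fun a b => MD.pr_add D x₀ a b) D.card (MD.pr_sum D x₀ D.card) O.card

end AL
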