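import Pool.Agent.Helper74.AL.K4a
import Pool.Agent.Helper74.AL.K2

/-!
ALPHA piece K4: uniform tails of the height differences along lines, in every domain.
-/

open Finset RP4 KP

namespace AL

private def ci62 (x d v : V) : ℤ := (v.1 - x.1) * d.1 + (v.2 - x.2) * d.2
private def cj62 (x d v : V) : ℤ := (v.1 - x.1) * d.2 + (v.2 - x.2) * d.1

private lemma ci_pt62 {x d : V} (hd : d ∈ dirs) (i : ℤ) : ci62 x d (pt x d i) = i := by
  rcases mem_dirs.1 hd with rfl | rfl | rfl | rfl <;> simp [ci62, pt]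

private lemma cj_pt62 {x d : V} (hd : d ∈ dirs) (i : ℤ) : cj62 x d (pt x d i) = 0 := by
  rcases mem_dirs.1 hd with rfl | rfl | rfl | rfl <;> simp [cj62, pt]

private lemma ci_sd62 {x d : V} (hd : d ∈ dirs) (i j : ℤ) : ci62 x d (pt (pt x d i) (prp d) j) = i := by
  rcases mem_dirs.1 hd with rfl | rfl | rfl | rfl <;> simp [ci62, pt, prp]

private lemma cj_sd62 {x d : V} (hd : d ∈ dirs) (i j : ℤ) : cj62 x d (pt (pt x d i) (prp d) j) = j := by
  rcases mem_dirs.1 hd with rfl | rfl | rfl | rfl <;> simp [cj62, pt, prp]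

/-- the pattern relative to `h x` -/
private def bs62 (x d : V) (s : ℤ) (m m' : ℕ) (v : V) : ℤ :=
  s * ci62 x d v + (if cj62 x d v = 1 then (if ci62 x d v < m then s else -s)
    else if cj62 x d v = -1 then (if ci62 x d v < m' then s else -s) else 0)

private noncomputable def S62 (x d : V) (l : ℕ) : Finset V :=
  (Icc (0 : ℤ) l).image (fun i => pt x d i) ∪ ((Icc (0 : ℤ) l).image (fun i => pt (pt x d i) (prp d) 1) ∪
    (Icc (0 : ℤ) l).image (fun i => pt (pt x d i) (prp d) (-1)))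

private lemma mem_S62 {x d : V} {l : ℕ} {v : V} : v ∈ S62 x d l ↔ ∃ i : ℤ, 0 ≤ i ∧ i ≤ l ∧
    (v = pt x d i ∨ v = pt (pt x d i) (prp d) 1 ∨ v = pt (pt x d i) (prp d) (-1)) := by
  unfold S62
  simp only [mem_union, mem_image, mem_Icc]
  constructor
  · rintro (⟨i, ⟨h0, h1⟩, rfl⟩ | ⟨i, ⟨h0, h1⟩, rfl⟩ | ⟨i, ⟨h0, h1⟩, rfl⟩)
    · exact ⟨i, h0, h1, Or.inl rfl⟩
    · exact ⟨i, h0, h1, Or.inr (Or.inl rfl)⟩
    · exact ⟨i, h0, h1, Or.inr (Or.inr rfl)⟩
  · rintro ⟨i, h0, h1, rfl | rfl | rfl⟩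
    · exact Or.inl ⟨i, ⟨h0, h1⟩, rfl⟩
    · exact Or.inr (Or.inl ⟨i, ⟨h0, h1⟩, rfl⟩)
    · exact Or.inr (Or.inr ⟨i, ⟨h0, h1⟩, rfl⟩)

private def O62 (x d : V) (l : ℕ) : Finset V :=
  (range ((l - 1) / 2)).image (fun t : ℕ => pt x d (2 * (t : ℤ) + 1 + par x % 2))

private lemma card_O62 {x d : V} (hd : d ∈ dirs) (l : ℕ) : (O62 x d l).card = (l - 1) / 2 := by
  unfold O62
  rw [card_image_of_injective, card_range]
  intro a b hab
  have := congrArg (ci62 x d) hab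
  simp only [ci_pt62 hd] at this
  omega

private lemma dist_pt62 {x d : V} (hd : d ∈ dirs) {i : ℤ} (hi : 0 ≤ i) : dist1 x (pt x d i) = i := by
  rcases mem_dirs.1 hd with rfl | rfl | rfl | rfl <;> simp [dist1, pt, abs_of_nonneg hi]

private lemma dist_sd62 {x d : V} (hd : d ∈ dirs) {i j : ℤ} (hi : 0 ≤ i) (hj : j = 1 ∨ j = -1) :
    dist1 x (pt (pt x d i) (prp d) j) = i + 1 := by
  rcases mem_dirs.1 hd with rfl | rfl | rfl | rfl <;> rcases hj with rfl | rfl <;>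
    simp [dist1, pt, prp, abs_of_nonneg hi, add_comm]

private lemma adj_cases62 {x d : V} (hd : d ∈ dirs) {i : ℤ} {u : V} (hu : Adj u (pt x d i)) :
    u = pt x d (i + 1) ∨ u = pt x d (i - 1) ∨ u = pt (pt x d i) (prp d) 1 ∨ u = pt (pt x d i) (prp d) (-1) := by
  obtain ⟨a, b⟩ := u
  obtain ⟨x1, x2⟩ := x
  unfold Adj at hu
  rcases mem_dirs.1 hd with rfl | rfl | rfl | rfl <;>
    simp only [pt, prp, Prod.mk.injEq, mul_one, mul_zero, add_zero, mul_neg] at hu ⊢ <;>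
    (rcases abs_cases (a - _) with ⟨h1, h2⟩ | ⟨h1, h2⟩ <;> rcases abs_cases (b - _) with ⟨h3, h4⟩ | ⟨h3, h4⟩ <;>
      rw [h1, h3] at hu <;> omega)

private lemma poly62 : ∃ B : ℝ, 0 ≤ B ∧ ∀ n : ℕ, (n : ℝ) ^ 19 / 2 ^ n ≤ B := by
  have h := (tendsto_pow_const_div_const_pow_of_one_lt 19 (one_lt_two : (1 : ℝ) < 2)).bddAbove_range
  obtain ⟨B, hB⟩ := h
  have hB' : ∀ n : ℕ, (n : ℝ) ^ 19 / 2 ^ n ≤ B := fun n => hB ⟨n, rfl⟩
  refine ⟨B, ?_, hB'⟩
  have := hB' 0
  simpa using this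

/-- `S` as in `line_patt`, `O` = the points `pt x d i`, `1 ≤ i ≤ l - 1`, of odd parity: all neighbours are in `S`, they are in `core D` (their neighbours are at distance
`≤ l + 1` from `x`), `#O ≥ (l - 1) / 2`.  `x₀ = x` if `x` is even, otherwise `x₀ = pt x d 1` (`l ≥ 1`).  The event is contained in the union over the `2 (l + 2) ^ 2` patterns of
`line_patt` (as functions of `v ∈ S`, written relative to `x₀`: `h v = h x₀ + ρ v`), each has probability `≤ (4 m + 8) / 2 ^ m`, `m = (l - 1) / 2` (`rel_patt` with a subset of `O` with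
exactly `m` elements, or monotonicity).  So
the probability is at most `2 (l + 2) ^ 2 (4 m + 8) / 2 ^ m`, and `(l + 1) ^ 16` times this is bounded in `l` (a polynomial times `2 ^ (-l/2)` tends to `0`:
`tendsto_pow_const_div_const_pow_of_one_lt`, bounded sequence).  `l = 0`: the probability is at most `1`. -/
theorem tail_all : ∃ C : ℝ, 0 ≤ C ∧ ∀ D : Finset V, BdryPar D 0 → ∀ x d : V, d ∈ dirs → ∀ l : ℕ,
    (∀ v, dist1 x v ≤ l + 1 → v ∈ D) →
      avg (Om D) (fun h => ind (|h (pt x d l) - h x| = l)) ≤ C / ((l : ℝ) + 1) ^ 16 := by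
  obtain ⟨B, hB0, hB⟩ := poly62
  refine ⟨2 ^ 30 * B + 1, by positivity, fun D hD x d hd l hb => ?_⟩
  rcases Nat.eq_zero_or_pos l with rfl | hl
  · have h1 : avg (Om D) (fun h => ind (|h (pt x d (0 : ℕ)) - h x| = ((0 : ℕ) : ℤ))) ≤ 1 := by
      unfold avg
      refine div_le_one_of_le₀ ?_ (Nat.cast_nonneg _)
      calc ∑ g ∈ Om D, ind (|g (pt x d (0 : ℕ)) - g x| = ((0 : ℕ) : ℤ)) ≤ ∑ g ∈ Om D, (1 : ℝ) :=
            Finset.sum_le_sum fun g _ => ind_le_one _
        _ = (Om D).card := by simp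
    refine h1.trans ?_
    have : (0 : ℝ) ≤ 2 ^ 30 * B := by positivity
    simp only [Nat.cast_zero, zero_add, one_pow, div_one]
    linarith
  -- the base point
  set e : ℤ := par x % 2 with he
  have he01 : e = 0 ∨ e = 1 := by omega
  set x₀ : V := pt x d e with hx₀
  have hx₀S : x₀ ∈ S62 x d l := mem_S62.2 ⟨e, by omega, by omega, Or.inl rfl⟩
  have hx₀p : par x₀ % 2 = 0 := by
    rw [hx₀]
    rcases mem_dirs.1 hd with rfl | rfl | rfl | rfl <;> simp only [pt, par] at he ⊢ <;> omega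
  have hSD : S62 x d l ⊆ D := by
    intro v hv
    obtain ⟨i, h0, h1, rfl | rfl | rfl⟩ := mem_S62.1 hv
    · exact hb _ (by rw [dist_pt62 hd h0]; omega)
    · exact hb _ (by rw [dist_sd62 hd h0 (Or.inl rfl)]; omega)
    · exact hb _ (by rw [dist_sd62 hd h0 (Or.inr rfl)]; omega)
  have hOi : ∀ v ∈ O62 x d l, ∃ i : ℤ, 1 ≤ i ∧ i ≤ l - 1 ∧ v = pt x d i ∧ par v % 2 = 1 := by
    intro v hv
    unfold O62 at hv
    obtain ⟨t, ht, rfl⟩ := mem_image.1 hv
    rw [mem_range] at ht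
    refine ⟨2 * (t : ℤ) + 1 + par x % 2, by omega, by omega, rfl, ?_⟩
    rcases mem_dirs.1 hd with rfl | rfl | rfl | rfl <;> simp only [pt, par] <;> omega
  have hOS : O62 x d l ⊆ S62 x d l := by
    intro v hv
    obtain ⟨i, h1, h2, rfl, _⟩ := hOi v hv
    exact mem_S62.2 ⟨i, by omega, by omega, Or.inl rfl⟩
  have hO : ∀ v ∈ O62 x d l, v ∈ core D ∧ par v % 2 = 1 ∧ ∀ u, Adj u v → u ∈ S62 x d l := by
    intro v hv
    obtain ⟨i, h1, h2, rfl, hp⟩ := hOi v hv
    have hN : ∀ u, Adj u (pt x d i) → u ∈ S62 x d l := by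
      intro u hu
      rcases adj_cases62 hd hu with rfl | rfl | rfl | rfl
      · exact mem_S62.2 ⟨i + 1, by omega, by omega, Or.inl rfl⟩
      · exact mem_S62.2 ⟨i - 1, by omega, by omega, Or.inl rfl⟩
      · exact mem_S62.2 ⟨i, by omega, by omega, Or.inr (Or.inl rfl)⟩
      · exact mem_S62.2 ⟨i, by omega, by omega, Or.inr (Or.inr rfl)⟩
    refine ⟨?_, hp, hN⟩
    unfold core
    rw [mem_sdiff]
    refine ⟨hSD (hOS hv), fun hbd => ?_⟩
    obtain ⟨_, u, hu, huD⟩ := mem_bdry.1 hbd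
    exact huD (hSD (hN u hu))
  -- union bound
  have key : ∀ h ∈ Om D, ind (|h (pt x d l) - h x| = l) ≤
      ∑ s ∈ ({1, -1} : Finset ℤ), ∑ m ∈ range (l + 2), ∑ m' ∈ range (l + 2),
        ind (∀ v ∈ S62 x d l, h v = h x₀ + (bs62 x d s m m' v - bs62 x d s m m' x₀)) := by
    intro h hh
    by_cases hev : |h (pt x d l) - h x| = l
    · obtain ⟨s, hs, m, hm, m', hm', h1, h2, h3⟩ := line_patt hd hl hb hh hev
      have hall : ∀ v ∈ S62 x d l, h v = h x + bs62 x d s m m' v := by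
        intro v hv
        obtain ⟨i, h0, hi, rfl | rfl | rfl⟩ := mem_S62.1 hv
        · rw [h1 i h0 hi]
          unfold bs62
          rw [ci_pt62 hd, cj_pt62 hd]
          simp
        · rw [h2 i h0 hi]
          unfold bs62
          rw [ci_sd62 hd, cj_sd62 hd]
          simp only [if_true]
          ring
        · rw [h3 i h0 hi]
          unfold bs62
          rw [ci_sd62 hd, cj_sd62 hd]
          rw [if_neg (by norm_num : ¬ ((-1 : ℤ) = 1)), if_pos rfl]
          ring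
      have h4 : ∀ v ∈ S62 x d l, h v = h x₀ + (bs62 x d s m m' v - bs62 x d s m m' x₀) := by
        intro v hv
        rw [hall v hv, hall x₀ hx₀S]
        ring
      have hs' : s ∈ ({1, -1} : Finset ℤ) := by
        rcases hs with rfl | rfl <;> simp
      have e1 : ind (|h (pt x d l) - h x| = l) ≤
          ind (∀ v ∈ S62 x d l, h v = h x₀ + (bs62 x d s m m' v - bs62 x d s m m' x₀)) :=
        ind_mono fun _ => h4
      refine e1.trans ?_
      refine le_trans ?_ (Finset.single_le_sum (f := fun s => ∑ m ∈ range (l + 2), ∑ m' ∈ range (l + 2),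
        ind (∀ v ∈ S62 x d l, h v = h x₀ + (bs62 x d s m m' v - bs62 x d s m m' x₀)))
        (fun _ _ => Finset.sum_nonneg fun _ _ => Finset.sum_nonneg fun _ _ => ind_nonneg _) hs')
      refine le_trans ?_ (Finset.single_le_sum (f := fun m => ∑ m' ∈ range (l + 2),
        ind (∀ v ∈ S62 x d l, h v = h x₀ + (bs62 x d s m m' v - bs62 x d s m m' x₀)))
        (fun _ _ => Finset.sum_nonneg fun _ _ => ind_nonneg _) hm)
      exact Finset.single_le_sum (f := fun m' =>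
        ind (∀ v ∈ S62 x d l, h v = h x₀ + (bs62 x d s m m' v - bs62 x d s m m' x₀)))
        (fun _ _ => ind_nonneg _) hm'
    · have : ind (|h (pt x d l) - h x| = l) = 0 := by
        unfold ind
        rw [if_neg hev]
      rw [this]
      exact Finset.sum_nonneg fun _ _ => Finset.sum_nonneg fun _ _ => Finset.sum_nonneg fun _ _ => ind_nonneg _
  set k : ℕ := (l - 1) / 2 with hk
  have hpat : ∀ ρ : V → ℤ, avg (Om D) (fun h => ind (∀ v ∈ S62 x d l, h v = h x₀ + ρ v)) ≤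
      (4 * (k : ℝ) + 8) / 2 ^ k := by
    intro ρ
    have := rel_patt hD hSD hOS hO ρ hx₀S hx₀p
    rw [card_O62 hd] at this
    exact this
  have hsum : avg (Om D) (fun h => ind (|h (pt x d l) - h x| = l)) ≤
      2 * ((l : ℝ) + 2) ^ 2 * ((4 * (k : ℝ) + 8) / 2 ^ k) := by
    refine (avg_mono key).trans ?_
    rw [avg_sum']
    calc ∑ s ∈ ({1, -1} : Finset ℤ), avg (Om D) (fun h => ∑ m ∈ range (l + 2), ∑ m' ∈ range (l + 2),
          ind (∀ v ∈ S62 x d l, h v = h x₀ + (bs62 x d s m m' v - bs62 x d s m m' x₀)))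
        ≤ ∑ s ∈ ({1, -1} : Finset ℤ), ∑ m ∈ range (l + 2), ∑ m' ∈ range (l + 2), (4 * (k : ℝ) + 8) / 2 ^ k := by
          refine Finset.sum_le_sum fun s _ => ?_
          rw [avg_sum']
          refine Finset.sum_le_sum fun m _ => ?_
          rw [avg_sum']
          exact Finset.sum_le_sum fun m' _ => hpat _
      _ = 2 * ((l : ℝ) + 2) ^ 2 * ((4 * (k : ℝ) + 8) / 2 ^ k) := by
          rw [Finset.sum_const, Finset.sum_const, Finset.sum_const, card_range]
          rw [show ({1, -1} : Finset ℤ).card = 2 from rfl]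
          simp only [nsmul_eq_mul]
          push_cast
          ring
  refine hsum.trans ?_
  rw [le_div_iff₀ (by positivity)]
  -- `l ≤ 2 k + 2`
  have hlk : (l : ℝ) ≤ 2 * (k : ℝ) + 2 := by
    have : l ≤ 2 * k + 2 := by omega
    exact_mod_cast this
  have hk0 : (0 : ℝ) ≤ k := Nat.cast_nonneg _
  have hl0 : (0 : ℝ) ≤ l := Nat.cast_nonneg _
  have b1 : ((l : ℝ) + 2) ^ 2 ≤ (2 * ((k : ℝ) + 2)) ^ 2 := by
    apply pow_le_pow_left₀ (by positivity)
    linarith
  have b2 : ((l : ℝ) + 1) ^ 16 ≤ (2 * ((k : ℝ) + 2)) ^ 16 := by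
    apply pow_le_pow_left₀ (by positivity)
    linarith
  have b3 := hB (k + 2)
  have hp : (0 : ℝ) < 2 ^ k := by positivity
  have b4 : ((k : ℝ) + 2) ^ 19 ≤ 4 * B * 2 ^ k := by
    rw [div_le_iff₀ (by positivity), pow_add] at b3
    push_cast at b3
    linarith
  calc 2 * ((l : ℝ) + 2) ^ 2 * ((4 * (k : ℝ) + 8) / 2 ^ k) * ((l : ℝ) + 1) ^ 16
      ≤ 2 * (2 * ((k : ℝ) + 2)) ^ 2 * ((4 * (k : ℝ) + 8) / 2 ^ k) * (2 * ((k : ℝ) + 2)) ^ 16 := by gcongr
    _ = 2 ^ 21 * ((k : ℝ) + 2) ^ 19 / 2 ^ k := by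
        field_simp
        ring
    _ ≤ 2 ^ 21 * (4 * B * 2 ^ k) / 2 ^ k := by gcongr
    _ = 2 ^ 23 * B := by
        field_simp
        ring
    _ ≤ 2 ^ 30 * B + 1 := by
        nlinarith

/-- From `tail_all`. -/
theorem tailD : ∃ C : ℝ, 0 ≤ C ∧ ∀ D : Finset V, BdryPar D 0 → ∀ (S : Finset V) (R : ℕ), Deep D S (R + 1) →
    TailD D S R C := by
  obtain ⟨C, hC, h⟩ := tail_all
  refine ⟨C, hC, fun D hD S R hdeep x hx d hd l hl => h D hD x d hd l fun v hv => hdeep x hx v (hv.trans ?_)⟩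
  have : (l : ℤ) ≤ R := by exact_mod_cast hl
  linarith

end AL
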