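import Pool.Agent.Helper74.AL.Defs
import Pool.Agent.Helper58.KP.E

/-!
ALPHA piece K5: the inequality of Bogoliubov with the activity of the single sites.
-/

open Finset RP4 KP

namespace AL

private lemma bog_lower_h4 {D S : Finset V} {R T : ℕ} {C Λ B : ℝ} (hR : 1 ≤ R) (hC : 0 ≤ C)
    (hT : TailD D S R C)
    (hD : Deep D (Box (0, 0) (T + 3 * R)) (8 * R + 8)) (hS : Deep S (Box (0, 0) (T + 3 * R)) (8 * R + 8))
    (f : V → ℝ) (hΛ : 0 ≤ Λ) (hfL : ∀ x y, |f x - f y| ≤ Λ * dist1 x y) (hfB : ∀ x, |f x| ≤ B) :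
    (1 / 8) * (∑ y ∈ Box (0, 0) (T + 3 * R), f y ^ 2 * avg (Om D) (fun h => (Lap h y : ℝ) ^ 2)) -
      (8 * C / ((R : ℝ) + 1) ^ 16 * B ^ 2 + 32 * C * Λ ^ 2) * (Box (0, 0) (T + 3 * R)).card ≤
      ∑ y ∈ Box (0, 0) (T + 3 * R), ∑ d ∈ dirs, ∑ l ∈ Icc 1 R,
        4 * rho l * avg (Om D) (fun h => ind (Up h y d l)) * (∑ i ∈ range l, f (pt y d i)) ^ 2 := by
  have hyS : ∀ y ∈ Box (0, 0) (T + 3 * R), y ∈ S := fun y hy => hS y hy y (by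
    unfold dist1
    simp only [sub_self, abs_zero, add_zero]
    positivity)
  have hyD : ∀ y ∈ Box (0, 0) (T + 3 * R), ∀ v, dist1 y v ≤ R + 2 → v ∈ D :=
    fun y hy v hv => hD y hy v (hv.trans (by
      have : (0 : ℤ) ≤ R := Int.natCast_nonneg R
      linarith))
  have hE : 0 ≤ 8 * C / ((R : ℝ) + 1) ^ 16 := by positivity
  have h1 : ∑ y ∈ Box (0, 0) (T + 3 * R),
      ((1 / 8) * (f y ^ 2 * avg (Om D) (fun h => (Lap h y : ℝ) ^ 2)) -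
        (8 * C / ((R : ℝ) + 1) ^ 16 * B ^ 2 + 32 * C * Λ ^ 2)) ≤
      ∑ y ∈ Box (0, 0) (T + 3 * R), ∑ d ∈ dirs, ∑ l ∈ Icc 1 R,
        4 * rho l * avg (Om D) (fun h => ind (Up h y d l)) * (∑ i ∈ range l, f (pt y d i)) ^ 2 := by
    refine Finset.sum_le_sum fun y hy => ?_
    have h2 := head_lower hC hT (hyS y hy) f hΛ hfL
    have h3 := chgU_lower hR hT (hyS y hy) (hyD y hy)
    have h4 := mul_le_mul_of_nonneg_left h3 (sq_nonneg (f y))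
    have h5 : f y ^ 2 ≤ B ^ 2 := sq_le_sq' (abs_le.1 (hfB y)).1 (abs_le.1 (hfB y)).2
    have h6 := mul_le_mul_of_nonneg_left h5 hE
    refine le_trans ?_ h2
    linarith
  refine le_trans (le_of_eq ?_) h1
  rw [Finset.sum_sub_distrib, Finset.sum_const, nsmul_eq_mul, Finset.mul_sum]
  ring

/-- Copy the proof of `KP.bogoliubov` (Helper58, KP, E.lean), without the hypothesis `hlap`.  `dir_form`: with `P = ∑ x, f x * psi R h x`, `X = ∑ x, f x * h x` (sums over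
`Box (0,0) (T + 3 R)`), `-avg (P X)` is the sum over `y` of the left side of `head_lower`; `head_lower` and `chgU_lower` (`f y ^ 2 ≥ 0`) give for each `y`
`f y ^ 2 * (avg (Lap h y ^ 2) / 8 - 8 C / (R+1)^16) - 32 C Λ ^ 2 ≤ ...`, and `f y ^ 2 ≤ B ^ 2` in the error term.  Sum over `y`; then `A ≤ -avg (P X)`, `A ≥ 0`, so
`A ^ 2 ≤ avg (P X) ^ 2 ≤ avg (P ^ 2) * avg (X ^ 2)` (`avg_cs`) and `quad_upper`. -/
theorem bog_act {D S : Finset V} {R T : ℕ} {C Λ B : ℝ} (hR : 1 ≤ R) (hC : 0 ≤ C) (hT : TailD D S R C)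
    (hD : Deep D (Box (0, 0) (T + 3 * R)) (8 * R + 8)) (hS : Deep S (Box (0, 0) (T + 3 * R)) (8 * R + 8))
    (f : V → ℝ) (hf0 : ∀ x, x ∉ Box (0, 0) T → f x = 0) (hΛ : 0 ≤ Λ)
    (hfL : ∀ x y, |f x - f y| ≤ Λ * dist1 x y) (hfB : ∀ x, |f x| ≤ B) (A : ℝ) (hA0 : 0 ≤ A)
    (hA : A = (1 / 8) * (∑ y ∈ Box (0, 0) (T + 3 * R), f y ^ 2 * avg (Om D) (fun h => (Lap h y : ℝ) ^ 2)) -
      (8 * C / ((R : ℝ) + 1) ^ 16 * B ^ 2 + 32 * C * Λ ^ 2) * (Box (0, 0) (T + 3 * R)).card) :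
    A ^ 2 ≤ (12000000 * C * Λ ^ 2 + 12544 * C / ((R : ℝ) + 1) ^ 6 * B ^ 2) * (Box (0, 0) (T + 3 * R)).card *
        avg (Om D) (fun h => (∑ x ∈ Box (0, 0) (T + 3 * R), f x * h x) ^ 2) := by
  have h1 := bog_lower_h4 hR hC hT hD hS f hΛ hfL hfB
  rw [← hA] at h1
  have h2 := dir_form hD f hf0
  have h3 := avg_cs (Om D) (fun h => ∑ x ∈ Box (0, 0) (T + 3 * R), f x * psi R h x)
    (fun h => ∑ x ∈ Box (0, 0) (T + 3 * R), f x * h x)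
  have h4 := quad_upper hR hC hT hD hS f hf0 hfL hfB
  have h5 : 0 ≤ avg (Om D) (fun h => (∑ x ∈ Box (0, 0) (T + 3 * R), f x * (h x : ℝ)) ^ 2) := by
    unfold avg
    exact div_nonneg (Finset.sum_nonneg fun g _ => sq_nonneg _) (Nat.cast_nonneg _)
  rw [h2, neg_sq] at h3
  exact ((pow_le_pow_left₀ hA0 h1 2).trans h3).trans (mul_le_mul_of_nonneg_right h4 h5)

end AL
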