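import Pool.Agent.Helper74.AL.K3

/-!
ALPHA piece K6b: activity of a square.
-/

open Finset RP4 KP

namespace AL

/-- Double counting: every `x` lies in `81` blocks `Box z 4`, so `81 ∑_{x ∈ Box 0 M} a x ≥ ∑_{z ∈ Box 0 (M - 4)} ∑_{x ∈ Box z 4} a x ≥ #(Box 0 (M - 4)) / 2` for
`a x = avg (Om D) (Lap h x ^ 2) ≥ 0` by `act` (`Box z 5 ⊆ D` for `z ∈ Box 0 (M - 4)` if `Box 0 (M + 1) ⊆ D`).  `#(Box 0 N) = (2 N + 1) ^ 2`. -/
theorem act_sum {D : Finset V} (hD : BdryPar D 0) {M : ℕ} (hM : 8 ≤ M) (hB : Box (0, 0) (M + 1) ⊆ D) :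
    (M : ℝ) ^ 2 / 200 ≤ ∑ x ∈ Box (0, 0) M, avg (Om D) (fun h => (Lap h x : ℝ) ^ 2) := by
  classical
  set a : V → ℝ := fun x => avg (Om D) (fun h => (Lap h x : ℝ) ^ 2) with ha
  have ha0 : ∀ x, 0 ≤ a x := fun x =>
    div_nonneg (Finset.sum_nonneg fun h _ => sq_nonneg _) (Nat.cast_nonneg _)
  have hcard : ∀ (z : V) (N : ℕ), ((Box z N).card : ℝ) = (2 * N + 1) ^ 2 := by
    intro z N
    unfold Box
    rw [Finset.card_product, Int.card_Icc, Int.card_Icc]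
    have h1 : (z.1 + (N : ℤ) + 1 - (z.1 - N)).toNat = 2 * N + 1 := by omega
    have h2 : (z.2 + (N : ℤ) + 1 - (z.2 - N)).toNat = 2 * N + 1 := by omega
    rw [h1, h2]
    push_cast
    ring
  have hblock : ∀ z ∈ Box (0, 0) (M - 4), 1 / 2 ≤ ∑ x ∈ Box z 4, a x := by
    intro z hz
    refine act hD (fun x hx => hB ?_)
    rw [mem_Box, abs_le, abs_le] at hz hx ⊢
    simp only at hz hx ⊢
    omega
  have hshift : ∀ z : V, ∑ x ∈ Box z 4, a x =
      ∑ d ∈ Box (0, 0) 4, a (z.1 + d.1, z.2 + d.2) := by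
    intro z
    refine Finset.sum_nbij' (fun x => (x.1 - z.1, x.2 - z.2)) (fun d => (z.1 + d.1, z.2 + d.2))
      ?_ ?_ ?_ ?_ ?_
    · intro x hx
      rw [mem_Box] at hx ⊢
      simpa using hx
    · intro d hd
      rw [mem_Box] at hd ⊢
      simpa using hd
    · intro x _
      ext <;> simp
    · intro d _
      ext <;> simp
    · intro x _
      congr 1
      ext <;> simp
  have hd1 : ∀ d ∈ Box (0, 0) 4, ∑ z ∈ Box (0, 0) (M - 4), a (z.1 + d.1, z.2 + d.2) ≤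
      ∑ x ∈ Box (0, 0) M, a x := by
    intro d hd
    have hinj : Function.Injective (fun z : V => ((z.1 + d.1, z.2 + d.2) : V)) := by
      intro z z' h
      have h1 := congrArg Prod.fst h
      have h2 := congrArg Prod.snd h
      simp only [add_left_inj] at h1 h2
      exact Prod.ext h1 h2
    rw [← Finset.sum_image (f := a) (g := fun z : V => ((z.1 + d.1, z.2 + d.2) : V))
      (fun z _ z' _ h => hinj h)]
    refine Finset.sum_le_sum_of_subset_of_nonneg ?_ fun x _ _ => ha0 x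
    intro x hx
    obtain ⟨z, hz, rfl⟩ := Finset.mem_image.1 hx
    rw [mem_Box, abs_le, abs_le] at hz hd ⊢
    simp only at hz hd ⊢
    omega
  have h1 : ((Box (0, 0) (M - 4)).card : ℝ) * (1 / 2) ≤
      ∑ z ∈ Box (0, 0) (M - 4), ∑ x ∈ Box z 4, a x := by
    rw [← nsmul_eq_mul]
    exact Finset.card_nsmul_le_sum _ _ _ hblock
  have h2 : ∑ z ∈ Box (0, 0) (M - 4), ∑ x ∈ Box z 4, a x ≤ 81 * ∑ x ∈ Box (0, 0) M, a x := by
    simp only [hshift]
    rw [Finset.sum_comm]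
    have h3 := Finset.sum_le_card_nsmul _ _ _ hd1
    rw [nsmul_eq_mul, hcard] at h3
    refine h3.trans (le_of_eq ?_)
    norm_num
  rw [hcard] at h1
  have h4 : ((M - 4 : ℕ) : ℝ) = (M : ℝ) - 4 := by
    rw [Nat.cast_sub (by omega)]
    norm_num
  rw [h4] at h1
  have h5 : (8 : ℝ) ≤ M := by exact_mod_cast hM
  have h6 : (M : ℝ) ^ 2 ≤ (2 * ((M : ℝ) - 4) + 1) ^ 2 := by
    refine pow_le_pow_left₀ (by linarith) (by linarith) 2
  have h7 : (M : ℝ) ^ 2 / 200 ≤ (M : ℝ) ^ 2 * (1 / 2) / 81 := by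
    have h8 : 0 ≤ (M : ℝ) ^ 2 := sq_nonneg _
    linarith
  linarith

end AL
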