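import Pool.Agent.Helper74.AL.K6a
import Pool.Agent.Helper74.AL.K6b
import Pool.Agent.Helper74.AL.K4
import Pool.Agent.Helper74.AL.K5
import Pool.Agent.Helper35.MD.B2
import Pool.Agent.Helper35.MD.G2

/-!
ALPHA piece K6: lower bound of the variance of the average over a square in the middle of the diamond.
-/

open Finset RP4 KP

namespace AL

private lemma K6_card_h80 (N : ℕ) : ((Box (0, 0) N).card : ℝ) = (2 * (N : ℝ) + 1) ^ 2 := by
  unfold Box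
  have h : (Finset.Icc ((0 : ℤ) - (N : ℤ)) (0 + (N : ℤ))).card = 2 * N + 1 := by
    rw [Int.card_Icc]
    omega
  have h2 : (Finset.Icc ((0 : ℤ) - (N : ℤ)) (0 + (N : ℤ)) ×ˢ
      Finset.Icc ((0 : ℤ) - (N : ℤ)) (0 + (N : ℤ))).card = (2 * N + 1) * (2 * N + 1) := by
    rw [Finset.card_product, h]
  calc (((Finset.Icc ((0 : ℤ) - (N : ℤ)) (0 + (N : ℤ)) ×ˢ
      Finset.Icc ((0 : ℤ) - (N : ℤ)) (0 + (N : ℤ))).card : ℕ) : ℝ)
      = (((2 * N + 1) * (2 * N + 1) : ℕ) : ℝ) := by rw [h2]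
    _ = (2 * (N : ℝ) + 1) ^ 2 := by push_cast; ring

private lemma K6_cmul_h80 (S : Finset (V → ℤ)) (a : ℝ) (F : (V → ℤ) → ℝ) :
    avg S (fun h => a * F h) = a * avg S F := by
  unfold avg
  rw [← Finset.mul_sum, mul_div_assoc]

private lemma K6_expand_h80 (D s : Finset V) (f : V → ℝ) :
    avg (Om D) (fun h => (∑ x ∈ s, f x * (h x : ℝ)) ^ 2) = ∑ x ∈ s, ∑ w ∈ s, f x * f w * MD.cv D x w := by
  have h1 : ∀ h : V → ℤ, (∑ x ∈ s, f x * (h x : ℝ)) ^ 2 =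
      ∑ x ∈ s, ∑ w ∈ s, f x * f w * ((h x : ℝ) * h w) := by
    intro h
    rw [sq, Finset.sum_mul_sum]
    refine Finset.sum_congr rfl fun x _ => Finset.sum_congr rfl fun w _ => ?_
    ring
  simp only [h1, avg_sum', K6_cmul_h80]
  rfl

private lemma K6_var_h80 (D : Finset V) {T M : ℕ} (hTM : T ≤ M) (f : V → ℝ)
    (hf0 : ∀ x, x ∉ Box (0, 0) T → f x = 0) (hf : ∀ x, 0 ≤ f x ∧ f x ≤ 1) :
    avg (Om D) (fun h => (∑ x ∈ Box (0, 0) M, f x * (h x : ℝ)) ^ 2) ≤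
      avg (Om D) (fun h => (∑ x ∈ Box (0, 0) T, (h x : ℝ)) ^ 2) := by
  have hsub : Box (0, 0) T ⊆ Box (0, 0) M := by
    intro x hx
    rw [mem_Box] at hx ⊢
    have h : (T : ℤ) ≤ M := by exact_mod_cast hTM
    exact ⟨hx.1.trans h, hx.2.trans h⟩
  have e1 : ∀ h : V → ℤ, ∑ x ∈ Box (0, 0) M, f x * (h x : ℝ) = ∑ x ∈ Box (0, 0) T, f x * (h x : ℝ) := by
    intro h
    symm
    refine Finset.sum_subset hsub fun x _ hx => ?_
    rw [hf0 x hx, zero_mul]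
  have e2 := K6_expand_h80 D (Box (0, 0) T) (fun _ => 1)
  simp only [one_mul] at e2
  simp only [e1]
  rw [K6_expand_h80, e2]
  refine Finset.sum_le_sum fun x _ => Finset.sum_le_sum fun w _ => ?_
  have h1 : f x * f w ≤ 1 := mul_le_one₀ (hf x).2 (hf w).1 (hf w).2
  calc f x * f w * MD.cv D x w ≤ 1 * MD.cv D x w := mul_le_mul_of_nonneg_right h1 (MD.cv_nonneg D x w)
    _ = MD.cv D x w := one_mul _

/-- Lower bound (KP).  `D = diam (2 n)`, `T = n / 2`, `R = Nat.sqrt n`, `f = tent T`, `Λ = 1 / T`, `B = 1`, `C` of `tailD` with `S = Box (0,0) (T + 3 R + 8 R + 8)` or simply `S` = the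
finite set of all points at distance `≤ 8 R + 8` from `Box (0,0) (T + 3 R)`: `Deep D S (R + 1)` as
`|x|₁ ≤ 2 T + 6 R + 8 R + 8 + R + 1 ≤ n + 15 √n + 9 ≤ 2 n` for large `n`.
`bog_act`: `A ≥ (1/8) (1/4) ∑_{y ∈ Box 0 (T/2)} avg (Lap^2) - (8 C / (R+1)^16 + 32 C / T^2) (2 (T + 3 R) + 1)^2 ≥ c T^2 - C'` by `act_sum`
(`f ≥ 1/2` on `Box 0 (T/2)`; `(R + 1)^2 > n`, so `(R+1)^16 ≥ n^8`), and the right side is `≤ (12000000 C / T^2 + 12544 C / (R+1)^6) (2 (T + 3R) + 1)^2 * V ≤ C'' V`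
(`(R + 1)^6 ≥ n^3`).  So `V = avg (X_f ^ 2) ≥ c n^4` for `n ≥ n₀`.  Finally `X_f = ∑ f x h x` with `0 ≤ f ≤ 1`, `f = 0` off `Box 0 T`: expanding the squares, `avg (X_f^2) = ∑∑ f x f w cv x w ≤ ∑∑ cv x w`
over `Box 0 T` (`MD.cv_nonneg`), which is the variance of the sum over `Box 0 T`, `T = n / 2`. -/
theorem kp_diam : ∃ c : ℝ, 0 < c ∧ ∃ n₀ : ℕ, 1 ≤ n₀ ∧ ∀ n : ℕ, n₀ ≤ n →
    c * (n : ℝ) ^ 4 ≤ avg (Om (diam (2 * n))) (fun h => (∑ x ∈ Box (0, 0) (n / 2), (h x : ℝ)) ^ 2) := by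
  obtain ⟨C, hC, htail⟩ := tailD
  refine ⟨1 / (320000 ^ 2 * (432050176 * (C + 1))), by positivity, max 1000 ⌈320000 * 1184 * C⌉₊,
    le_trans (by norm_num) (le_max_left _ _), fun n hn => ?_⟩
  have hn1 : 1000 ≤ n := (le_max_left _ _).trans hn
  have hn2 : 320000 * 1184 * C ≤ n := by
    have h := Nat.le_ceil (320000 * 1184 * C)
    have h2 : ((⌈320000 * 1184 * C⌉₊ : ℕ) : ℝ) ≤ n := by exact_mod_cast (le_max_right _ _).trans hn
    exact h.trans h2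
  set R : ℕ := Nat.sqrt n with hRdef
  have hR1 : R * R ≤ n := Nat.sqrt_le n
  have hR2 : n < (R + 1) * (R + 1) := Nat.lt_succ_sqrt n
  have hR3 : 23 * R + 17 ≤ n := by
    rcases le_or_gt R 24 with h | h
    · omega
    · nlinarith
  have hR4 : 1 ≤ R := by
    by_contra h
    have h0 : R = 0 := by omega
    rw [h0] at hR2
    omega
  set T : ℕ := n / 2 with hTdef
  have hT1 : 1 ≤ T := by omega
  have hT2 : 2 * T ≤ n := by omega
  have hT3 : n ≤ 3 * T := by omega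
  set D : Finset V := diam (2 * n) with hDdef
  have hDpar : BdryPar D 0 := diam_bdryPar (2 * n) (even_two_mul n)
  obtain ⟨ht0, ht1, htL, hthalf⟩ := tent_props hT1
  -- domains
  set S : Finset V := Box (0, 0) (T + 11 * R + 8) with hSdef
  have hdeepS : Deep S (Box (0, 0) (T + 3 * R)) (8 * R + 8) := by
    intro x hx v hv
    rw [mem_Box] at hx
    rw [hSdef, mem_Box]
    unfold dist1 at hv
    have a1 := abs_nonneg (x.1 - v.1)
    have a2 := abs_nonneg (x.2 - v.2)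
    have b1 := abs_sub_abs_le_abs_sub v.1 x.1
    have b2 := abs_sub_abs_le_abs_sub v.2 x.2
    rw [abs_sub_comm] at b1 b2
    simp only [sub_zero] at hx ⊢
    push_cast at hx ⊢
    constructor <;> linarith [hx.1, hx.2]
  have hdeepD : Deep D S (R + 1) := by
    intro x hx v hv
    rw [hSdef, mem_Box] at hx
    rw [hDdef, mem_diam]
    unfold dist1 at hv
    have b1 := abs_sub_abs_le_abs_sub v.1 x.1
    have b2 := abs_sub_abs_le_abs_sub v.2 x.2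
    rw [abs_sub_comm] at b1 b2
    simp only [sub_zero] at hx
    push_cast at hx ⊢
    have h1 : (2 : ℤ) * T ≤ n := by exact_mod_cast hT2
    have h2 : (23 : ℤ) * R + 17 ≤ n := by exact_mod_cast hR3
    linarith [hx.1, hx.2]
  have hdeepD2 : Deep D (Box (0, 0) (T + 3 * R)) (8 * R + 8) := by
    intro x hx v hv
    rw [mem_Box] at hx
    rw [hDdef, mem_diam]
    unfold dist1 at hv
    have b1 := abs_sub_abs_le_abs_sub v.1 x.1
    have b2 := abs_sub_abs_le_abs_sub v.2 x.2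
    rw [abs_sub_comm] at b1 b2
    simp only [sub_zero] at hx
    push_cast at hx ⊢
    have h1 : (2 : ℤ) * T ≤ n := by exact_mod_cast hT2
    have h2 : (23 : ℤ) * R + 17 ≤ n := by exact_mod_cast hR3
    have h3 : (0 : ℤ) ≤ R := Int.natCast_nonneg R
    linarith [hx.1, hx.2]
  have hTail : TailD D S R C := htail D hDpar S R hdeepD
  -- real versions
  have rn : (1000 : ℝ) ≤ n := by exact_mod_cast hn1
  have rR : (n : ℝ) ≤ ((R : ℝ) + 1) ^ 2 := by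
    have : (n : ℝ) < ((R : ℝ) + 1) * ((R : ℝ) + 1) := by exact_mod_cast hR2
    nlinarith
  have rR3 : (23 : ℝ) * R + 17 ≤ n := by exact_mod_cast hR3
  have rR0 : (0 : ℝ) ≤ R := Nat.cast_nonneg R
  have rT2 : (2 : ℝ) * T ≤ n := by exact_mod_cast hT2
  have rT3 : (n : ℝ) ≤ 3 * T := by exact_mod_cast hT3
  have rT0 : (0 : ℝ) < T := by linarith
  have hcard : ((Box (0, 0) (T + 3 * R)).card : ℝ) ≤ 4 * (n : ℝ) ^ 2 := by
    rw [K6_card_h80]
    push_cast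
    have h1 : 2 * ((T : ℝ) + 3 * R) + 1 ≤ 2 * n := by linarith
    have h2 : (0 : ℝ) ≤ 2 * ((T : ℝ) + 3 * R) + 1 := by positivity
    nlinarith
  have hcard0 : (0 : ℝ) ≤ ((Box (0, 0) (T + 3 * R)).card : ℝ) := Nat.cast_nonneg _
  have hL : (1 / (T : ℝ)) ^ 2 ≤ 9 / (n : ℝ) ^ 2 := by
    rw [div_pow, one_pow, div_le_div_iff₀ (by positivity) (by positivity)]
    nlinarith
  have hq6 : (n : ℝ) ^ 3 ≤ ((R : ℝ) + 1) ^ 6 := by
    calc (n : ℝ) ^ 3 ≤ (((R : ℝ) + 1) ^ 2) ^ 3 := pow_le_pow_left₀ (by positivity) rR 3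
      _ = ((R : ℝ) + 1) ^ 6 := by ring
  have hq16 : (n : ℝ) ^ 8 ≤ ((R : ℝ) + 1) ^ 16 := by
    calc (n : ℝ) ^ 8 ≤ (((R : ℝ) + 1) ^ 2) ^ 8 := pow_le_pow_left₀ (by positivity) rR 8
      _ = ((R : ℝ) + 1) ^ 16 := by ring
  have hn3 : (n : ℝ) ^ 2 ≤ (n : ℝ) ^ 3 := pow_le_pow_right₀ (by linarith) (by norm_num)
  have hn8 : (n : ℝ) ^ 2 ≤ (n : ℝ) ^ 8 := pow_le_pow_right₀ (by linarith) (by norm_num)
  have hnsq : 0 < (n : ℝ) ^ 2 := by positivity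
  have hd6 : 1 / ((R : ℝ) + 1) ^ 6 ≤ 1 / (n : ℝ) ^ 2 := one_div_le_one_div_of_le hnsq (hn3.trans hq6)
  have hd16 : 1 / ((R : ℝ) + 1) ^ 16 ≤ 1 / (n : ℝ) ^ 2 := one_div_le_one_div_of_le hnsq (hn8.trans hq16)
  -- activity
  set A : ℝ := (1 / 8) * (∑ y ∈ Box (0, 0) (T + 3 * R), tent T y ^ 2 *
    avg (Om D) (fun h => (Lap h y : ℝ) ^ 2)) -
      (8 * C / ((R : ℝ) + 1) ^ 16 * 1 ^ 2 + 32 * C * (1 / (T : ℝ)) ^ 2) *
        (Box (0, 0) (T + 3 * R)).card with hAdef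
  have hlapnn : ∀ y, 0 ≤ avg (Om D) (fun h => (Lap h y : ℝ) ^ 2) := by
    intro y
    unfold avg
    exact div_nonneg (Finset.sum_nonneg fun h _ => sq_nonneg _) (Nat.cast_nonneg _)
  have hact : ((T / 2 : ℕ) : ℝ) ^ 2 / 200 ≤
      ∑ x ∈ Box (0, 0) (T / 2), avg (Om D) (fun h => (Lap h x : ℝ) ^ 2) := by
    refine act_sum hDpar (by omega) ?_
    intro x hx
    rw [mem_Box] at hx
    rw [hDdef, mem_diam]
    simp only [sub_zero] at hx
    push_cast at hx ⊢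
    have h1 : 2 * (((T / 2 : ℕ) : ℤ) + 1) ≤ 2 * n := by omega
    push_cast at h1
    linarith [hx.1, hx.2]
  have hsum : (1 / 4) * ∑ x ∈ Box (0, 0) (T / 2), avg (Om D) (fun h => (Lap h x : ℝ) ^ 2) ≤
      ∑ y ∈ Box (0, 0) (T + 3 * R), tent T y ^ 2 * avg (Om D) (fun h => (Lap h y : ℝ) ^ 2) := by
    have hsub : Box (0, 0) (T / 2) ⊆ Box (0, 0) (T + 3 * R) := by
      intro x hx
      rw [mem_Box] at hx ⊢
      have h : ((T / 2 : ℕ) : ℤ) ≤ ((T + 3 * R : ℕ) : ℤ) := by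
        have : T / 2 ≤ T + 3 * R := by omega
        exact_mod_cast this
      exact ⟨hx.1.trans h, hx.2.trans h⟩
    refine le_trans ?_ (Finset.sum_le_sum_of_subset_of_nonneg hsub
      fun x _ _ => mul_nonneg (sq_nonneg _) (hlapnn x))
    rw [Finset.mul_sum]
    refine Finset.sum_le_sum fun x hx => mul_le_mul_of_nonneg_right ?_ (hlapnn x)
    have h1 := hthalf x hx
    nlinarith
  have hM : (n : ℝ) / 5 ≤ ((T / 2 : ℕ) : ℝ) := by
    have h : n ≤ 5 * (T / 2) := by omega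
    have h2 : (n : ℝ) ≤ 5 * ((T / 2 : ℕ) : ℝ) := by exact_mod_cast h
    linarith
  have hM2 : (n : ℝ) ^ 2 / 25 ≤ ((T / 2 : ℕ) : ℝ) ^ 2 := by
    have h := pow_le_pow_left₀ (by positivity) hM 2
    calc (n : ℝ) ^ 2 / 25 = ((n : ℝ) / 5) ^ 2 := by ring
      _ ≤ _ := h
  have herr : (8 * C / ((R : ℝ) + 1) ^ 16 * 1 ^ 2 + 32 * C * (1 / (T : ℝ)) ^ 2) *
      (Box (0, 0) (T + 3 * R)).card ≤ 1184 * C := by
    have h1 : 8 * C / ((R : ℝ) + 1) ^ 16 * 1 ^ 2 + 32 * C * (1 / (T : ℝ)) ^ 2 ≤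
        296 * C / (n : ℝ) ^ 2 := by
      have a1 : 8 * C / ((R : ℝ) + 1) ^ 16 * 1 ^ 2 ≤ 8 * C * (1 / (n : ℝ) ^ 2) := by
        have := mul_le_mul_of_nonneg_left hd16 (by positivity : 0 ≤ 8 * C)
        calc 8 * C / ((R : ℝ) + 1) ^ 16 * 1 ^ 2 = 8 * C * (1 / ((R : ℝ) + 1) ^ 16) := by ring
          _ ≤ _ := this
      have a2 : 32 * C * (1 / (T : ℝ)) ^ 2 ≤ 32 * C * (9 / (n : ℝ) ^ 2) :=
        mul_le_mul_of_nonneg_left hL (by positivity)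
      calc _ ≤ 8 * C * (1 / (n : ℝ) ^ 2) + 32 * C * (9 / (n : ℝ) ^ 2) := add_le_add a1 a2
        _ = 296 * C / (n : ℝ) ^ 2 := by ring
    calc _ ≤ 296 * C / (n : ℝ) ^ 2 * (4 * (n : ℝ) ^ 2) :=
          mul_le_mul h1 hcard hcard0 (by positivity)
      _ = 1184 * C := by field_simp; ring
  have hA1 : (n : ℝ) ^ 2 / 320000 ≤ A := by
    have h1 : (n : ℝ) ≤ (n : ℝ) ^ 2 := by nlinarith
    have h2 : 320000 * 1184 * C ≤ (n : ℝ) ^ 2 := hn2.trans h1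
    have h3 : (n : ℝ) ^ 2 / 160000 ≤ (1 / 8) * (∑ y ∈ Box (0, 0) (T + 3 * R), tent T y ^ 2 *
        avg (Om D) (fun h => (Lap h y : ℝ) ^ 2)) := by linarith
    rw [hAdef]
    linarith
  have hA0 : 0 ≤ A := le_trans (by positivity) hA1
  have hbog := bog_act hR4 hC hTail hdeepD2 hdeepS (tent T) ht0 (by positivity : (0 : ℝ) ≤ 1 / T) htL
    (fun x => by rw [abs_of_nonneg (ht1 x).1]; exact (ht1 x).2) A hA0 hAdef
  have hvar := K6_var_h80 D (show T ≤ T + 3 * R by omega) (tent T) ht0 ht1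
  set Vf : ℝ := avg (Om D) (fun h => (∑ x ∈ Box (0, 0) (T + 3 * R), tent T x * (h x : ℝ)) ^ 2) with hVf
  have hVf0 : 0 ≤ Vf := by
    rw [hVf]
    unfold avg
    exact div_nonneg (Finset.sum_nonneg fun h _ => sq_nonneg _) (Nat.cast_nonneg _)
  have hco : (12000000 * C * (1 / (T : ℝ)) ^ 2 + 12544 * C / ((R : ℝ) + 1) ^ 6 * 1 ^ 2) *
      (Box (0, 0) (T + 3 * R)).card ≤ 432050176 * (C + 1) := by
    have h1 : 12000000 * C * (1 / (T : ℝ)) ^ 2 + 12544 * C / ((R : ℝ) + 1) ^ 6 * 1 ^ 2 ≤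
        108012544 * C / (n : ℝ) ^ 2 := by
      have a1 : 12544 * C / ((R : ℝ) + 1) ^ 6 * 1 ^ 2 ≤ 12544 * C * (1 / (n : ℝ) ^ 2) := by
        have := mul_le_mul_of_nonneg_left hd6 (by positivity : 0 ≤ 12544 * C)
        calc 12544 * C / ((R : ℝ) + 1) ^ 6 * 1 ^ 2 = 12544 * C * (1 / ((R : ℝ) + 1) ^ 6) := by ring
          _ ≤ _ := this
      have a2 : 12000000 * C * (1 / (T : ℝ)) ^ 2 ≤ 12000000 * C * (9 / (n : ℝ) ^ 2) :=
        mul_le_mul_of_nonneg_left hL (by positivity)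
      calc _ ≤ 12000000 * C * (9 / (n : ℝ) ^ 2) + 12544 * C * (1 / (n : ℝ) ^ 2) := add_le_add a2 a1
        _ = 108012544 * C / (n : ℝ) ^ 2 := by ring
    calc _ ≤ 108012544 * C / (n : ℝ) ^ 2 * (4 * (n : ℝ) ^ 2) :=
          mul_le_mul h1 hcard hcard0 (by positivity)
      _ = 432050176 * C := by field_simp; ring
      _ ≤ 432050176 * (C + 1) := by linarith
  have hfin : ((n : ℝ) ^ 2 / 320000) ^ 2 ≤ 432050176 * (C + 1) * Vf :=
    calc ((n : ℝ) ^ 2 / 320000) ^ 2 ≤ A ^ 2 := pow_le_pow_left₀ (by positivity) hA1 2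
      _ ≤ _ := hbog
      _ ≤ 432050176 * (C + 1) * Vf := mul_le_mul_of_nonneg_right hco hVf0
  refine le_trans ?_ hvar
  rw [div_mul_eq_mul_div, one_mul, div_le_iff₀ (by positivity)]
  calc (n : ℝ) ^ 4 = 320000 ^ 2 * ((n : ℝ) ^ 2 / 320000) ^ 2 := by ring
    _ ≤ 320000 ^ 2 * (432050176 * (C + 1) * Vf) := mul_le_mul_of_nonneg_left hfin (by positivity)
    _ = Vf * (320000 ^ 2 * (432050176 * (C + 1))) := by ring

end AL
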