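import Pool.Agent.Helper74.AL.S1a
import Pool.Agent.Helper74.AL.K6

/-!
ALPHA piece S1: two rows of the diamond with positive covariance at a large distance.
-/

open Finset RP4 KP

namespace AL

private lemma box_sum_S1 (T : ℕ) (h : V → ℤ) :
    (∑ x ∈ Box (0, 0) T, (h x : ℝ)) = ∑ y ∈ Icc (-(T : ℤ)) T, rs T y h := by
  unfold Box
  simp only [zero_sub, zero_add]
  rw [Finset.sum_product_right]
  refine Finset.sum_congr rfl fun y _ => ?_
  unfold rs row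
  rw [Finset.sum_image (fun a _ b _ hab => congrArg Prod.fst hab)]

private lemma tot_S1 (D : Finset V) (T : ℕ) :
    avg (Om D) (fun h => (∑ x ∈ Box (0, 0) T, (h x : ℝ)) ^ 2) =
      ∑ y ∈ Icc (-(T : ℤ)) T, ∑ y' ∈ Icc (-(T : ℤ)) T, Cr D T y y' := by
  unfold Cr
  rw [show (fun h : V → ℤ => (∑ x ∈ Box (0, 0) T, (h x : ℝ)) ^ 2) =
    fun h => ∑ y ∈ Icc (-(T : ℤ)) T, ∑ y' ∈ Icc (-(T : ℤ)) T, rs T y h * rs T y' h from by
      funext h
      rw [box_sum_S1, sq, Finset.sum_mul_sum]]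
  rw [avg_sum']
  refine Finset.sum_congr rfl fun y _ => ?_
  rw [avg_sum']

private lemma Cr_comm_S1 (D : Finset V) (T : ℕ) (y y' : ℤ) : Cr D T y y' = Cr D T y' y := by
  unfold Cr
  congr 1
  funext h
  ring

/-- `D = diam (2 n)`, `T = n / 2`, `R = 4 n` (`MD.diam_bd`).  `kp_diam`: `∑_{y, y' ∈ Icc (-T) T} Cr D T y y' = avg ((∑_{Box 0 T} h)^2) ≥ c n^4` (the box is the disjoint union of the rows; expand the
product).  Pairs with `|y' - y| ≤ k` contribute at most `(2 T + 1) (2 k + 1) (2 T + 1) (4 C n) ≤ 16 C n^3 (2 k + 1)`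
(`Cr_le`, `2 T + 1 ≤ 2 n`), which is `≤ (c/2) n^4` for `k = ⌊η n⌋` with `η` small (depending on `c, C`) and `n` large.  So the pairs with `|y' - y| > k` have total `≥ (c/2) n^4`; there are at most
`(2 T + 1)^2 ≤ 4 n^2` of them, so one of them has `Cr ≥ (c/8) n^2`; by the symmetry `Cr D T y y' = Cr D T y' y` we may assume `y < y'`, then `y' - y ≥ k + 1 ≥ η n`. -/
theorem two_rows {C : ℝ} (hC : 0 ≤ C) (hrow : RowAll C) : ∃ c η : ℝ, 0 < c ∧ 0 < η ∧ ∃ n₀ : ℕ, 1 ≤ n₀ ∧ ∀ n : ℕ, n₀ ≤ n →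
    ∃ y y' : ℤ, |y| ≤ n ∧ |y'| ≤ n ∧ η * n ≤ (y' : ℝ) - y ∧ c * (n : ℝ) ^ 2 ≤ Cr (diam (2 * n)) (n / 2) y y' := by
  obtain ⟨c0, hc0, m0, hm0, hk⟩ := kp_diam
  set η := c0 / (128 * (C + 1)) with hη
  have hη0 : 0 < η := by positivity
  obtain ⟨m1, hm1⟩ := exists_nat_ge (64 * C / c0)
  refine ⟨c0 / 16, η, by positivity, hη0, max m0 m1, le_max_of_le_left hm0, fun n hn => ?_⟩
  have hn1 : m0 ≤ n := (le_max_left _ _).trans hn
  have hn2 : m1 ≤ n := (le_max_right _ _).trans hn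
  have hn0 : 1 ≤ n := hm0.trans hn1
  have hnR : (1 : ℝ) ≤ n := by exact_mod_cast hn0
  by_contra hcon
  push Not at hcon
  set D := diam (2 * n) with hDd
  set T := n / 2 with hT
  have hTn : 2 * T ≤ n := by omega
  have hTR : (2 * T + 1 : ℝ) ≤ 2 * n := by
    have : (2 * T : ℝ) ≤ n := by exact_mod_cast hTn
    linarith
  have hD : BdryPar D 0 := diam_bdryPar (2 * n) (even_two_mul n)
  have hb : ∀ u ∈ D, ∀ v ∈ D, |u.1 - v.1| ≤ ((4 * n : ℕ) : ℤ) ∧ |u.2 - v.2| ≤ ((4 * n : ℕ) : ℤ) := by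
    intro u hu v hv
    obtain ⟨a1, a2⟩ := MD.diam_bd n u hu
    obtain ⟨b1, b2⟩ := MD.diam_bd n v hv
    rw [abs_le] at a1 a2 b1 b2
    push_cast at a1 a2 b1 b2 ⊢
    constructor <;> rw [abs_le] <;> constructor <;> omega
  have hle : ∀ y y', Cr D T y y' ≤ (2 * T + 1) * (C * (4 * n : ℕ)) :=
    Cr_le hC hrow (R := 4 * n) (by omega) hD hb T
  set k := ⌊η * n⌋₊ with hkd
  have hkη : (k : ℝ) ≤ η * n := Nat.floor_le (by positivity)
  -- bound of one covariance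
  have hone : ∀ y ∈ Icc (-(T : ℤ)) T, ∀ y' ∈ Icc (-(T : ℤ)) T, Cr D T y y' ≤
      (if y' ∈ Icc (y - k) (y + k) then (2 * T + 1) * (C * (4 * n : ℕ)) else 0) + c0 / 16 * (n : ℝ) ^ 2 := by
    intro y hy y' hy'
    rw [mem_Icc] at hy hy'
    have hTn' : (T : ℤ) ≤ n := by omega
    have hy1 : |y| ≤ n := abs_le.2 ⟨by omega, by omega⟩
    have hy2 : |y'| ≤ n := abs_le.2 ⟨by omega, by omega⟩
    split_ifs with hmem
    · have := hle y y'
      have : 0 ≤ c0 / 16 * (n : ℝ) ^ 2 := by positivity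
      linarith
    · rw [mem_Icc, not_and_or] at hmem
      have hfl : ∀ z : ℤ, (k : ℤ) < z → η * n ≤ (z : ℝ) := by
        intro z hz
        have h1 : (k : ℤ) + 1 ≤ z := hz
        have h2 : ((k : ℝ) + 1) ≤ z := by exact_mod_cast h1
        exact (Nat.lt_floor_add_one (η * n)).le.trans h2
      rcases hmem with hm | hm
      · have hz : (k : ℤ) < y - y' := by omega
        have h1 := hfl _ hz
        push_cast at h1
        have h2 := hcon y' y hy2 hy1 h1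
        rw [Cr_comm_S1]
        linarith
      · have hz : (k : ℤ) < y' - y := by omega
        have h1 := hfl _ hz
        push_cast at h1
        have h2 := hcon y y' hy1 hy2 h1
        linarith
  have hcardT : (Icc (-(T : ℤ)) T).card = 2 * T + 1 := by
    rw [Int.card_Icc]; omega
  have hnear : ∀ y : ℤ, (∑ y' ∈ Icc (-(T : ℤ)) T, (if y' ∈ Icc (y - k) (y + k) then
      (2 * T + 1) * (C * (4 * n : ℕ)) else (0 : ℝ))) ≤ (2 * k + 1) * ((2 * T + 1) * (C * (4 * n : ℕ))) := by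
    intro y
    rw [← Finset.sum_filter, Finset.sum_const, nsmul_eq_mul]
    have h1 : ((Icc (-(T : ℤ)) T).filter (fun y' => y' ∈ Icc (y - k) (y + k))).card ≤ 2 * k + 1 := by
      have h2 : ((Icc (-(T : ℤ)) T).filter (fun y' => y' ∈ Icc (y - k) (y + k))) ⊆ Icc (y - k) (y + k) :=
        fun z hz => (mem_filter.1 hz).2
      refine (card_le_card h2).trans ?_
      rw [Int.card_Icc]; omega
    have h3 : (((Icc (-(T : ℤ)) T).filter (fun y' => y' ∈ Icc (y - k) (y + k))).card : ℝ) ≤ 2 * k + 1 := by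
      exact_mod_cast h1
    exact mul_le_mul_of_nonneg_right h3 (by positivity)
  have htot := hk n hn1
  rw [tot_S1] at htot
  have hup : (∑ y ∈ Icc (-(T : ℤ)) T, ∑ y' ∈ Icc (-(T : ℤ)) T, Cr D T y y') ≤
      (2 * T + 1) * ((2 * k + 1) * ((2 * T + 1) * (C * (4 * n : ℕ))) + (2 * T + 1) * (c0 / 16 * (n : ℝ) ^ 2)) := by
    have h1 : ∀ y ∈ Icc (-(T : ℤ)) T, (∑ y' ∈ Icc (-(T : ℤ)) T, Cr D T y y') ≤
        (2 * k + 1) * ((2 * T + 1) * (C * (4 * n : ℕ))) + (2 * T + 1) * (c0 / 16 * (n : ℝ) ^ 2) := by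
      intro y hy
      refine (Finset.sum_le_sum fun y' hy' => hone y hy y' hy').trans ?_
      rw [Finset.sum_add_distrib, Finset.sum_const, hcardT, nsmul_eq_mul]
      have := hnear y
      push_cast at this ⊢
      linarith
    refine (Finset.sum_le_sum h1).trans (le_of_eq ?_)
    rw [Finset.sum_const, hcardT, nsmul_eq_mul]
    push_cast
    ring
  have hT0 : (0 : ℝ) ≤ 2 * T + 1 := by positivity
  have e1 : (2 * T + 1 : ℝ) * (2 * T + 1) ≤ (2 * n) * (2 * n) := mul_le_mul hTR hTR hT0 (by positivity)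
  have e2 : (2 * T + 1 : ℝ) * ((2 * k + 1) * ((2 * T + 1) * (C * (4 * n : ℕ))) + (2 * T + 1) * (c0 / 16 * (n : ℝ) ^ 2))
      ≤ (2 * n) * (2 * n) * ((2 * (η * n) + 1) * (C * (4 * n)) + c0 / 16 * (n : ℝ) ^ 2) := by
    have e3 : (2 * T + 1 : ℝ) * ((2 * k + 1) * ((2 * T + 1) * (C * (4 * n : ℕ))) + (2 * T + 1) * (c0 / 16 * (n : ℝ) ^ 2)) =
        (2 * T + 1 : ℝ) * (2 * T + 1) * ((2 * k + 1) * (C * (4 * n)) + c0 / 16 * (n : ℝ) ^ 2) := by
      push_cast; ring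
    rw [e3]
    refine mul_le_mul e1 ?_ (by positivity) (by positivity)
    have : (2 * k + 1 : ℝ) * (C * (4 * n)) ≤ (2 * (η * n) + 1) * (C * (4 * n)) :=
      mul_le_mul_of_nonneg_right (by linarith) (by positivity)
    linarith
  have e4 : C * η ≤ c0 / 128 := by
    rw [hη, ← mul_div_assoc, div_le_div_iff₀ (by positivity) (by norm_num)]
    nlinarith
  have e5 : 64 * C ≤ c0 * n := by
    have h1 : 64 * C / c0 ≤ n := hm1.trans (by exact_mod_cast hn2)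
    rw [div_le_iff₀ hc0] at h1
    linarith
  have e6 : (2 * n : ℝ) * (2 * n) * ((2 * (η * n) + 1) * (C * (4 * n)) + c0 / 16 * (n : ℝ) ^ 2) =
      32 * (C * η) * (n : ℝ) ^ 4 + 16 * C * (n : ℝ) ^ 3 + c0 / 4 * (n : ℝ) ^ 4 := by ring
  have hn3 : (0 : ℝ) < (n : ℝ) ^ 3 := by positivity
  have hn4 : (0 : ℝ) < (n : ℝ) ^ 4 := by positivity
  have e7 : 32 * (C * η) * (n : ℝ) ^ 4 ≤ c0 / 4 * (n : ℝ) ^ 4 :=
    mul_le_mul_of_nonneg_right (by linarith) hn4.le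
  have e8 : 16 * C * (n : ℝ) ^ 3 ≤ c0 / 4 * (n : ℝ) ^ 4 := by
    have : 16 * C * (n : ℝ) ^ 3 ≤ c0 / 4 * n * (n : ℝ) ^ 3 :=
      mul_le_mul_of_nonneg_right (by linarith) hn3.le
    calc _ ≤ _ := this
      _ = _ := by ring
  have e9 : 0 < c0 / 4 * (n : ℝ) ^ 4 := by positivity
  rw [e6] at e2
  linarith [htot.trans (hup.trans e2)]

end AL
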