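import Pool.Agent.Helper74.AL.R1
import Pool.Agent.Helper74.AL.S1

/-!
ALPHA piece R2: iteration of the doubling.
-/

open Finset RP4 KP

namespace AL

/-- Induction on `k`.  `k = 0`: `two_rows`, `D = diam (2 n)`, `L = 2`.  Step: given `D, y, y'` (`y < y'`) for `k`, take `c = y'`, `D' = dbl D y'`, new rows `y` and `y'' = 2 y' - y`: `y'' - y = 2 (y' - y) ≥ 2^(k+1) η n`,
`|y''| ≤ (2 L + 1) n`, `D' ⊆ Rec (-2n) (2n) (-(3 L n)) (3 L n)` (`dbl_sub`).  `rp_step`: `(c_k n^2)^2 ≤ Cr D' y y'' * Cr D' y' y'`, and `Cr_le` with `R = (6 L + 4) n`: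
`Cr D' T y' y' ≤ (2 T + 1) C (6 L + 4) n ≤ 2 C (6 L + 4) n^2`.  So `Cr D' T y y'' ≥ c_k^2 n^4 / (2 C (6L+4) n^2 + n^2)` (add `n^2` to have a positive denominator), `T = n / 2`. -/
theorem iter {C : ℝ} (hC : 0 ≤ C) (hrow : RowAll C) : ∃ η : ℝ, 0 < η ∧ ∀ k : ℕ, ∃ c : ℝ, 0 < c ∧ ∃ L n₀ : ℕ, 2 ≤ L ∧ 1 ≤ n₀ ∧
    ∀ n : ℕ, n₀ ≤ n → ∃ (D : Finset V) (y y' : ℤ), BdryPar D 0 ∧
      (D : Set V) ⊆ DV.Rec (-(2 * n)) (2 * n) (-(L * n)) (L * n) ∧ |y| ≤ n ∧ |y'| ≤ L * n ∧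
      2 ^ k * η * n ≤ (y' : ℝ) - y ∧ c * (n : ℝ) ^ 2 ≤ Cr D (n / 2) y y' := by
  obtain ⟨c, η, hc, hη, n₀, hn₀, hrows⟩ := two_rows hC hrow
  refine ⟨η, hη, fun k => ?_⟩
  induction k with
  | zero =>
    refine ⟨c, hc, 2, n₀, le_refl 2, hn₀, fun n hn => ?_⟩
    obtain ⟨y, y', h1, h2, h3, h4⟩ := hrows n hn
    refine ⟨diam (2 * n), y, y', diam_bdryPar (2 * n) (even_two_mul n), ?_, h1, ?_, ?_, h4⟩
    · intro v hv
      obtain ⟨a1, a2⟩ := MD.diam_bd n v (Finset.mem_coe.1 hv)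
      rw [abs_le] at a1 a2
      push_cast at a1 a2 ⊢
      exact ⟨a1.1, a1.2, a2.1, a2.2⟩
    · push_cast
      have : (0 : ℤ) ≤ n := Int.natCast_nonneg n
      linarith
    · simpa using h3
  | succ k ih =>
    obtain ⟨ck, hck, L, m₀, hL, hm₀, hk⟩ := ih
    set M : ℝ := 2 * C * (6 * L + 4) + 1 with hM
    have hM0 : 0 < M := by positivity
    refine ⟨ck ^ 2 / M, by positivity, 3 * L, m₀, by omega, hm₀, fun n hn => ?_⟩
    obtain ⟨D, y, y', hD, hsub, hy, hy', hgap, hcr⟩ := hk n hn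
    have hn1 : 1 ≤ n := hm₀.trans hn
    have hnR : (1 : ℝ) ≤ n := by exact_mod_cast hn1
    have hnZ : (1 : ℤ) ≤ n := by exact_mod_cast hn1
    have hLZ : (2 : ℤ) ≤ L := by exact_mod_cast hL
    have hLn : (n : ℤ) ≤ L * n := by nlinarith
    have hyy : y ≤ y' := by
      have h0 : (0 : ℝ) ≤ (y' : ℝ) - y := le_trans (by positivity) hgap
      have h1 : (y : ℝ) ≤ y' := by linarith
      exact_mod_cast h1
    have hD' : BdryPar (dbl D y') 0 := dbl_bdryPar hD y'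
    have hs := dbl_sub hsub y'
    have hD2 : ((dbl D y' : Finset V) : Set V) ⊆
        DV.Rec (-(2 * n)) (2 * n) (-((3 * L : ℕ) * n)) ((3 * L : ℕ) * n) := by
      intro v hv
      obtain ⟨a1, a2, a3, a4⟩ := hs hv
      push_cast
      exact ⟨a1, a2, by linarith, by linarith⟩
    set T := n / 2 with hT
    have hTR : (2 * T + 1 : ℝ) ≤ 2 * n := by
      have h1 : 2 * T ≤ n := by omega
      have : (2 * T : ℝ) ≤ n := by exact_mod_cast h1
      linarith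
    have hbd : ∀ u ∈ dbl D y', ∀ v ∈ dbl D y',
        |u.1 - v.1| ≤ (((6 * L + 4) * n : ℕ) : ℤ) ∧ |u.2 - v.2| ≤ (((6 * L + 4) * n : ℕ) : ℤ) := by
      intro u hu v hv
      obtain ⟨a1, a2, a3, a4⟩ := hD2 (Finset.mem_coe.2 hu)
      obtain ⟨b1, b2, b3, b4⟩ := hD2 (Finset.mem_coe.2 hv)
      push_cast at a3 a4 b3 b4 ⊢
      constructor <;> rw [abs_le] <;> constructor <;> nlinarith
    have hR : 1 ≤ (6 * L + 4) * n := Nat.one_le_iff_ne_zero.2 (by positivity)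
    have hself : Cr (dbl D y') T y' y' ≤ M * (n : ℝ) ^ 2 := by
      have h1 := Cr_le hC hrow hR hD' hbd T y' y'
      have h2 : (2 * T + 1 : ℝ) * (C * (((6 * L + 4) * n : ℕ) : ℝ)) ≤
          2 * n * (C * (((6 * L + 4) * n : ℕ) : ℝ)) :=
        mul_le_mul_of_nonneg_right hTR (by positivity)
      have h3 : 2 * (n : ℝ) * (C * (((6 * L + 4) * n : ℕ) : ℝ)) =
          2 * C * (6 * L + 4) * (n : ℝ) ^ 2 := by
        push_cast
        ring
      have h4 : M * (n : ℝ) ^ 2 = 2 * C * (6 * L + 4) * (n : ℝ) ^ 2 + (n : ℝ) ^ 2 := by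
        rw [hM]
        ring
      have h5 : (0 : ℝ) ≤ (n : ℝ) ^ 2 := by positivity
      linarith
    refine ⟨dbl D y', y, 2 * y' - y, hD', hD2, hy, ?_, ?_, ?_⟩
    · rw [abs_le] at hy hy' ⊢
      push_cast
      constructor <;> nlinarith
    · push_cast
      have h1 : (2 : ℝ) ^ (k + 1) * η * n = 2 * (2 ^ k * η * n) := by
        rw [pow_succ]
        ring
      rw [h1]
      linarith
    · have h1 := rp_step hD T hyy
      have h2 : (ck * (n : ℝ) ^ 2) ^ 2 ≤ (Cr D T y y') ^ 2 :=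
        pow_le_pow_left₀ (by positivity) hcr 2
      have h3 : Cr (dbl D y') T y (2 * y' - y) * Cr (dbl D y') T y' y' ≤
          Cr (dbl D y') T y (2 * y' - y) * (M * (n : ℝ) ^ 2) :=
        mul_le_mul_of_nonneg_left hself (Cr_nonneg _ _ _ _)
      have h4 : (ck * (n : ℝ) ^ 2) ^ 2 ≤ Cr (dbl D y') T y (2 * y' - y) * (M * (n : ℝ) ^ 2) :=
        h2.trans (h1.trans h3)
      have hn2 : (0 : ℝ) < (n : ℝ) ^ 2 := by positivity
      have h5 : ck ^ 2 * (n : ℝ) ^ 2 ≤ Cr (dbl D y') T y (2 * y' - y) * M := by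
        have h6 : ck ^ 2 * (n : ℝ) ^ 2 * (n : ℝ) ^ 2 ≤
            Cr (dbl D y') T y (2 * y' - y) * M * (n : ℝ) ^ 2 := by
          calc ck ^ 2 * (n : ℝ) ^ 2 * (n : ℝ) ^ 2 = (ck * (n : ℝ) ^ 2) ^ 2 := by ring
            _ ≤ _ := h4
            _ = _ := by ring
        exact le_of_mul_le_mul_right h6 hn2
      rw [div_mul_eq_mul_div, div_le_iff₀ hM0]
      exact h5

end AL
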