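import Pool.Agent.Helper74.AL.U1a
import Pool.Agent.Helper74.AL.R2
import Pool.Agent.Helper74.AL.F4a

/-!
ALPHA piece U1: a tube with a nonzero crossing in the long direction.
-/

open Finset RP4 KP

namespace AL

private lemma jn_h74 {D : Finset V} {T : ℕ} {y y' : ℤ} {c A n : ℝ} (hc : 0 ≤ c) (hA : 0 < A) (hn : 0 < n)
    (h1 : c * n ^ 2 ≤ Cr D T y y') (h2 : avg (Om D) (fun h => rs T y h ^ 4) ≤ A * n ^ 4)
    (h3 : avg (Om D) (fun h => rs T y' h ^ 4) ≤ A * n ^ 4) :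
    c ^ 2 / A ≤ avg (Om D) (fun h => ind (DV.JnNz (row T y : Set V) (row T y' : Set V) h)) := by
  set P := avg (Om D) (fun h => ind (DV.JnNz (row T y : Set V) (row T y' : Set V) h)) with hP
  have hP0 : 0 ≤ P := avg_nonneg _ _ fun g => ind_nonneg _
  have hz := DV.pz (S := Om D) (DV.sgnInv_Zs D 0 (bdry D)) (row T y) (row T y') (fun _ => 1) (fun _ => 1)
  simp only [one_mul] at hz
  have e1 : (avg (Om D) fun g => (∑ x ∈ row T y, (g x : ℝ)) * ∑ x ∈ row T y', (g x : ℝ)) = Cr D T y y' := rfl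
  have e2 : (avg (Om D) fun g => (∑ x ∈ row T y, (g x : ℝ)) ^ 4) = avg (Om D) (fun h => rs T y h ^ 4) := rfl
  have e3 : (avg (Om D) fun g => (∑ x ∈ row T y', (g x : ℝ)) ^ 4) = avg (Om D) (fun h => rs T y' h ^ 4) := rfl
  rw [e1, e2, e3] at hz
  change _ ≤ _ * P ^ 2 at hz
  have p1 : 0 ≤ avg (Om D) (fun h => rs T y h ^ 4) := avg_nonneg _ _ fun g => by positivity
  have p2 : 0 ≤ avg (Om D) (fun h => rs T y' h ^ 4) := avg_nonneg _ _ fun g => by positivity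
  have h4 : (c * n ^ 2) ^ 4 ≤ (Cr D T y y') ^ 4 := pow_le_pow_left₀ (by positivity) h1 4
  have h5 : (c * n ^ 2) ^ 4 ≤ (A * n ^ 4) * (A * n ^ 4) * P ^ 2 := by
    refine h4.trans (hz.trans ?_)
    exact mul_le_mul_of_nonneg_right (mul_le_mul h2 h3 p2 (by positivity)) (sq_nonneg P)
  have h6 : (c ^ 2 / A) ^ 2 ≤ P ^ 2 := by
    have h7 : (c * n ^ 2) ^ 4 = (c ^ 2 / A) ^ 2 * (A * n ^ 4) ^ 2 := by
      field_simp
    rw [h7] at h5
    have h8 : 0 < (A * n ^ 4) ^ 2 := by positivity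
    nlinarith
  exact abs_le_of_sq_le_sq' h6 hP0 |>.2

private lemma four_h74 {C : ℝ} (hC : 0 ≤ C) (hrow : RowAll C) (L : ℕ) : ∃ A : ℝ, 0 < A ∧ ∀ n : ℕ, 1 ≤ n → ∀ D : Finset V,
    BdryPar D 0 → (D : Set V) ⊆ DV.Rec (-(2 * n)) (2 * n) (-(L * n)) (L * n) → ∀ y : ℤ,
      avg (Om D) (fun h => rs (n / 2) y h ^ 4) ≤ A * (n : ℝ) ^ 4 := by
  obtain ⟨B, hB, hfour⟩ := rs_four
  refine ⟨B * (Real.sqrt (2 * (C * (2 * L + 4))) + 2) ^ 4 + 1, by positivity, fun n hn D hD hDr y => ?_⟩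
  have hn1 : (1 : ℝ) ≤ n := by exact_mod_cast hn
  have hR : 1 ≤ (2 * L + 4) * n := Nat.mul_pos (by omega) hn
  have hd : ∀ u ∈ D, ∀ v ∈ D, |u.1 - v.1| ≤ ((2 * L + 4) * n : ℕ) ∧ |u.2 - v.2| ≤ ((2 * L + 4) * n : ℕ) := by
    intro u hu v hv
    obtain ⟨a1, a2, a3, a4⟩ := hDr hu
    obtain ⟨b1, b2, b3, b4⟩ := hDr hv
    push_cast
    have hLn : 0 ≤ (L : ℤ) * n := by positivity
    have hn0 : 0 ≤ (n : ℤ) := by positivity
    rw [abs_le, abs_le]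
    refine ⟨⟨?_, ?_⟩, ?_, ?_⟩ <;> nlinarith
  have h1 := Cr_le hC hrow hR hD hd (n / 2) y y
  have h2 := hfour D hD (n / 2) y
  have hT : (2 * ((n / 2 : ℕ) : ℝ) + 1) ≤ 2 * n := by
    have : 2 * (n / 2) + 1 ≤ 2 * n := by omega
    exact_mod_cast this
  have h3 : Cr D (n / 2) y y ≤ (n : ℝ) ^ 2 * (2 * (C * (2 * L + 4))) := by
    refine h1.trans ?_
    have h4 : (0 : ℝ) ≤ C * (((2 * L + 4) * n : ℕ) : ℝ) := by positivity
    refine (mul_le_mul_of_nonneg_right hT h4).trans (le_of_eq ?_)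
    push_cast
    ring
  have h5 : Real.sqrt (Cr D (n / 2) y y) ≤ n * Real.sqrt (2 * (C * (2 * L + 4))) := by
    refine (Real.sqrt_le_sqrt h3).trans (le_of_eq ?_)
    rw [Real.sqrt_mul (by positivity), Real.sqrt_sq (by positivity)]
  have h6 : Real.sqrt (Cr D (n / 2) y y) + (2 * ((n / 2 : ℕ) : ℝ) + 1) ≤ n * (Real.sqrt (2 * (C * (2 * L + 4))) + 2) := by
    linarith
  have h7 : 0 ≤ Real.sqrt (Cr D (n / 2) y y) + (2 * ((n / 2 : ℕ) : ℝ) + 1) := by positivity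
  calc avg (Om D) (fun h => rs (n / 2) y h ^ 4)
      ≤ B * (Real.sqrt (Cr D (n / 2) y y) + (2 * ((n / 2 : ℕ) : ℝ) + 1)) ^ 4 := h2
    _ ≤ B * (n * (Real.sqrt (2 * (C * (2 * L + 4))) + 2)) ^ 4 :=
        mul_le_mul_of_nonneg_left (pow_le_pow_left₀ h7 h6 4) hB
    _ = B * (Real.sqrt (2 * (C * (2 * L + 4))) + 2) ^ 4 * (n : ℝ) ^ 4 := by ring
    _ ≤ _ := by
        refine mul_le_mul_of_nonneg_right ?_ (by positivity)
        linarith

/-- `iter` with `2^k η ≥ 19`.  Let `D, y, y'` be the data for `n ≥ n₀`, `T = n / 2`, `E = DV.JnNz (row T y) (row T y')`.  `DV.pz` (file Pz, Helper97; `DV.sgnInv_Zs`, `Om D = Zs D 0 (bdry D)`), `s = row T y`, `t = row T y'`, `f = k = 1`: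
`(c n^2)^4 ≤ Cr^4 ≤ E(rs y)^4 E(rs y')^4 P(E)^2`.  `rs_four` and `Cr_le` (`R = (2 L + 4) n`): both fourth moments are `≤ C' n^4`.  So `P(E)^2 ≥ c^4 / C'^2`, `P(E) ≥ c'`.
On `E` there are `u ∈ row T y`, `v ∈ row T y'` with `Con (nz h) u v`, `u.2 = y ≤ n`, `v.2 = y' ≥ y + 19 n ≥ 18 n`.  Translate everything by `(0, -10 n)` (even; `avg_Om_img`, `trans`):
`q.2 ≤ -9 n ≤ -(8 n + 1)`, `q'.2 ≥ 8 n + n`... to have `8 n + 1 ≤ q'.2` use `2^k η ≥ 20`.  The new `L` is `L + 10`. -/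
theorem tube {C : ℝ} (hC : 0 ≤ C) (hrow : RowAll C) : ∃ c : ℝ, 0 < c ∧ ∃ L n₀ : ℕ, 9 ≤ L ∧ 1 ≤ n₀ ∧ ∀ n : ℕ, n₀ ≤ n →
    ∃ D : Finset V, BdryPar D 0 ∧ (D : Set V) ⊆ DV.Rec (-(2 * n)) (2 * n) (-(L * n)) (L * n) ∧
      c ≤ avg (Om D) (fun h => ind (∃ q q', DV.Con (DV.nz h) q q' ∧ q.2 ≤ -(8 * n + 1) ∧ 8 * n + 1 ≤ q'.2)) := by
  obtain ⟨η, hη, H⟩ := iter hC hrow
  obtain ⟨k, hk⟩ := pow_unbounded_of_one_lt (20 / η) (one_lt_two : (1 : ℝ) < 2)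
  obtain ⟨c, hc, L, n₀, hL, hn₀, Hk⟩ := H k
  obtain ⟨A, hA, hfour⟩ := four_h74 hC hrow L
  refine ⟨c ^ 2 / A, by positivity, L + 10, n₀, by omega, hn₀, fun n hn => ?_⟩
  obtain ⟨D, y, y', hD, hDr, hy, hy', hyy, hcr⟩ := Hk n hn
  have hn1 : 1 ≤ n := hn₀.trans hn
  have hnR : (1 : ℝ) ≤ n := by exact_mod_cast hn1
  have hnZ : (1 : ℤ) ≤ n := by exact_mod_cast hn1
  have hdist : 20 * (n : ℤ) ≤ y' - y := by
    have h1 : 20 ≤ 2 ^ k * η := by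
      rw [div_lt_iff₀ hη] at hk
      exact hk.le
    have h2 : 20 * (n : ℝ) ≤ (y' : ℝ) - y := by
      refine le_trans ?_ hyy
      exact mul_le_mul_of_nonneg_right h1 (by positivity)
    exact_mod_cast h2
  have hP := jn_h74 (D := D) (T := n / 2) (y := y) (y' := y') hc.le hA (by positivity : (0 : ℝ) < n) hcr
    (hfour n hn1 D hD hDr y) (hfour n hn1 D hD hDr y')
  -- translation
  set τ := trans ((0 : ℤ), -(10 * (n : ℤ))) with hτ
  have hτl : LSym τ := trans_lsym _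
  have hτv : ∀ v : V, τ v = (v.1, v.2 - 10 * n) := by
    intro v
    rw [hτ]
    show v + ((0 : ℤ), -(10 * (n : ℤ))) = _
    ext <;> simp <;> ring
  have hτs : ∀ v : V, τ.symm v = (v.1, v.2 + 10 * n) := by
    intro v
    rw [Equiv.symm_apply_eq, hτv]
    ext <;> simp
  have hpar : ∀ v, Even (par (τ v) - par v) := by
    intro v
    rw [hτv]
    unfold par
    exact ⟨-(5 * n), by simp only []; ring⟩
  refine ⟨img τ D, ?_, ?_, ?_⟩
  · intro v hv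
    rw [bdry_img hτl, T1_mem_img] at hv
    have h1 := hD _ hv
    have h2 := hpar (τ.symm v)
    rw [Equiv.apply_symm_apply] at h2
    have e : par v - 0 = (par (τ.symm v) - 0) + (par v - par (τ.symm v)) := by ring
    rw [e]
    exact h1.add h2
  · intro v hv
    rw [Finset.mem_coe, T1_mem_img, hτs] at hv
    obtain ⟨a1, a2, a3, a4⟩ := hDr hv
    simp only [] at a1 a2 a3 a4
    refine ⟨a1, a2, ?_, ?_⟩ <;> push_cast <;> linarith
  · refine hP.trans ?_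
    rw [← avg_Om_img hτl hpar D]
    refine avg_mono fun g _ => ind_mono ?_
    rintro ⟨u, hu, v, hv, huv⟩
    rw [Finset.mem_coe, mem_row] at hu hv
    refine ⟨τ u, τ v, con_map hτl huv fun w hw => hw, ?_, ?_⟩
    · rw [hτv]
      simp only []
      have := (abs_le.1 hy).2
      omega
    · rw [hτv]
      simp only []
      have := (abs_le.1 hy).1
      omega

end AL
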