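import Pool.Agent.Helper74.AL.F4b
import Pool.Agent.Helper74.AL.F2
import Pool.Agent.Helper74.AL.U1

/-!
ALPHA piece F4: frames of nonzero sites in every zero environment.
-/

open Finset RP4 KP

namespace AL

private lemma incE_and_f4 {E E' : (V → ℤ) → Prop} (h : IncE E) (h' : IncE E') : IncE (fun g => E g ∧ E' g) :=
  ⟨fun g => and_congr (h.abs g) (h'.abs g), fun g g' h1 h2 h3 => ⟨h.mono g g' h1 h2 h3.1, h'.mono g g' h1 h2 h3.2⟩⟩

/-- FRAME (ALPHA).  `tube`, `four_cross`, and three times `pa_ev` (intersections of increasing events are increasing): probability at least `c ^ 4`. -/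
theorem frame {C : ℝ} (hC : 0 ≤ C) (hrow : RowAll C) : ∃ c : ℝ, 0 < c ∧ ∃ L n₀ : ℕ, 9 ≤ L ∧ 1 ≤ n₀ ∧ ∀ n : ℕ, n₀ ≤ n →
    ∀ (D : Finset V) (p : ℤ) (Z : Finset V) (x : V), Env D p Z x (4 * n - 1) (L * n) →
      c ≤ avg (Zs D p Z) (fun h => ind (DV.Frm Adj (DV.nz h) x (4 * n) (8 * n))) := by
  obtain ⟨c, hc, L, n₀, hL, hn₀, ht⟩ := tube hC hrow
  refine ⟨c ^ 4, pow_pos hc 4, L + 1, n₀, by omega, hn₀, ?_⟩
  intro n hn D p Z x hE
  obtain ⟨W, hW, hWr, hcW⟩ := ht n hn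
  have hE' : Env D p Z x (4 * n - 1) ((L + 1) * n) := by
    have h1 : (((L + 1 : ℕ) : ℤ) * n) = ((L : ℤ) + 1) * n := by push_cast; ring
    rw [h1] at hE
    exact hE
  obtain ⟨⟨hl, hr⟩, htp, hbt⟩ := four_cross hL (hn₀.trans hn) hW hWr hcW hE'
  have iL := incE_XL x (4 * n) (8 * n)
  have iR := incE_XR x (4 * n) (8 * n)
  have iT := incE_XT x (4 * n) (8 * n)
  have iB := incE_XB x (4 * n) (8 * n)
  have hb := hE.bd
  have s1 := pa_ev (D := D) (p := p) hb iT iB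
  have s2 := pa_ev (D := D) (p := p) hb iL iR
  have s3 := pa_ev (D := D) (p := p) hb (incE_and_f4 iT iB) (incE_and_f4 iL iR)
  have m1 : c * c ≤ avg (Zs D p Z) (fun h => ind (DV.XT Adj (DV.nz h) x (4 * n) (8 * n) ∧
      DV.XB Adj (DV.nz h) x (4 * n) (8 * n))) :=
    le_trans (mul_le_mul htp hbt hc.le (hc.le.trans htp)) s1
  have m2 : c * c ≤ avg (Zs D p Z) (fun h => ind (DV.XL Adj (DV.nz h) x (4 * n) (8 * n) ∧
      DV.XR Adj (DV.nz h) x (4 * n) (8 * n))) :=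
    le_trans (mul_le_mul hl hr hc.le (hc.le.trans hl)) s2
  have hcc : 0 ≤ c * c := by positivity
  have m3 := le_trans (mul_le_mul m1 m2 hcc (hcc.trans m1)) s3
  have e1 : c ^ 4 = c * c * (c * c) := by ring
  rw [e1]
  refine m3.trans (le_of_eq ?_)
  congr 1
  funext h
  congr 1
  refine propext ⟨fun h1 => ⟨h1.1.1, h1.1.2, h1.2.1, h1.2.2⟩, fun h1 => ⟨⟨h1.top, h1.bot⟩, h1.lft, h1.rgt⟩⟩

end AL
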