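import Pool.Agent.Helper74.AL.F3
import Pool.Agent.Helper74.AL.F4a

/-!
ALPHA piece F4b: the four crossings of a frame.
-/

open Finset RP4 KP

namespace AL

/-- adjacency and parity for the swap followed by a translation -/
private lemma lsym_swap_f4b (w : V) : LSym (swapV.trans (RP4.trans w)) := by
  have h1 := swapV_lsym
  have h2 := trans_lsym w
  constructor
  · intro u v
    rw [Equiv.trans_apply, Equiv.trans_apply, h2.adj, h1.adj]
  · intro u v
    rw [Equiv.trans_apply, Equiv.trans_apply]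
    have a1 := h2.par (swapV u) (swapV v)
    have a2 := h1.par u v
    rw [Int.even_iff] at a1 a2 ⊢
    omega

private lemma mem_f4b {L n : ℕ} (hL : 9 ≤ L) (hn : 1 ≤ n) {x v : V} {s t : ℤ} (hs : |s| ≤ 8 * n) (hs' : 4 * n ≤ |s|)
    (ht : |t| ≤ L * n + 1) :
    ((|v.1 - x.1| = |s| ∧ |v.2 - x.2| = |t|) ∨ (|v.1 - x.1| = |t| ∧ |v.2 - x.2| = |s|)) →
    v ∈ DV.Sq x ((L + 1) * n) ∧ v ∉ DV.Sq x (4 * n - 1) := by
  have hn' : (1 : ℤ) ≤ n := by exact_mod_cast hn
  have hL' : (9 : ℤ) ≤ L := by exact_mod_cast hL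
  have h1 : (8 : ℤ) * n ≤ (L + 1) * n := by nlinarith
  have h2 : (L : ℤ) * n + 1 ≤ (L + 1) * n := by nlinarith
  rintro (⟨e1, e2⟩ | ⟨e1, e2⟩)
  · refine ⟨⟨?_, ?_⟩, fun h => ?_⟩
    · rw [e1]
      exact hs.trans h1
    · rw [e2]
      exact ht.trans h2
    · have h3 := h.1
      rw [e1] at h3
      linarith
  · refine ⟨⟨?_, ?_⟩, fun h => ?_⟩
    · rw [e1]
      exact ht.trans h2
    · rw [e2]
      exact hs.trans h1
    · have h3 := h.2
      rw [e2] at h3
      linarith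

/-- The four crossings.  `W` = the tube of width `4 n`, `ε ∈ {0, 1}` such that the translation below has the parity of `p`: `hp` of `cross_gen` needs `par (τ v) + p - par v` even, `par (τ v) = par v + x.1 + x.2 ∓ 6 n + ε` for the translations, the same for swap followed by a translation.
LEFT: `τ v = v + (x.1 - 6 n, x.2 + ε)` (`trans`): `W` goes to columns `x.1 - 8 n .. x.1 - 4 n`, rows `x.2 + ε - L n .. x.2 + ε + L n`, inside `Sq x ((L+1) n)` (`L ≥ 9`), outside `Sq x (4 n - 1)`: `Env.dom`, `Env.free`.  If `Con {v ∈ W, h (τ v) ≠ 0} q q'` with `q.2 ≤ -(8 n + 1)`, `8 n + 1 ≤ q'.2`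
then `con_map` gives a path in `nz h ∩ {x.1 - 8 n ≤ v.1 ≤ x.1 - 4 n}` from a row `≤ x.2 - 8 n` to a row `≥ x.2 + 8 n`, and `cut_rows` (`a = x.2 - 8 n`, `b = x.2 + 8 n`) gives `XL`.  RIGHT: `x.1 + 6 n`.
TOP / BOTTOM: `τ v = (v.2 + x.1 + ε, v.1 + x.2 ± 6 n)` (`swapV` followed by `trans`; `LSym` is closed under composition or check directly), cut the columns: apply `cut_rows` to the path before it is moved by `τ` (rows `-8 n - ε .. 8 n - ε`, so that after the move the columns are `x.1 - 8 n .. x.1 + 8 n`).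
(All four can be done in this way: first `cut_rows` with `a = -8 n - ε`, `b = 8 n - ε` for the path in `{v ∈ W | h (τ v) ≠ 0}`, then `con_map` into `nz h ∩ Rec ..`.) -/
theorem four_cross {c : ℝ} {L n : ℕ} (hL : 9 ≤ L) (hn : 1 ≤ n) {W : Finset V} (hW : BdryPar W 0)
    (hWr : (W : Set V) ⊆ DV.Rec (-(2 * n)) (2 * n) (-(L * n)) (L * n))
    (hc : c ≤ avg (Om W) (fun h => ind (∃ q q', DV.Con (DV.nz h) q q' ∧ q.2 ≤ -(8 * n + 1) ∧ 8 * n + 1 ≤ q'.2)))
    {D : Finset V} {p : ℤ} {Z : Finset V} {x : V} (hE : Env D p Z x (4 * n - 1) ((L + 1) * n)) :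
    (c ≤ avg (Zs D p Z) (fun h => ind (DV.XL Adj (DV.nz h) x (4 * n) (8 * n))) ∧
      c ≤ avg (Zs D p Z) (fun h => ind (DV.XR Adj (DV.nz h) x (4 * n) (8 * n)))) ∧
    c ≤ avg (Zs D p Z) (fun h => ind (DV.XT Adj (DV.nz h) x (4 * n) (8 * n))) ∧
      c ≤ avg (Zs D p Z) (fun h => ind (DV.XB Adj (DV.nz h) x (4 * n) (8 * n))) := by
  have hn' : (1 : ℤ) ≤ n := by exact_mod_cast hn
  obtain ⟨ε, hε, hεp⟩ : ∃ ε : ℤ, (ε = 0 ∨ ε = 1) ∧ Even (x.1 + x.2 + ε + p) := by
    rcases Int.even_or_odd (x.1 + x.2 + p) with h | h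
    · refine ⟨0, Or.inl rfl, ?_⟩
      rw [Int.even_iff] at h ⊢
      omega
    · refine ⟨1, Or.inr rfl, ?_⟩
      rw [Int.odd_iff] at h
      rw [Int.even_iff]
      omega
  have hWr' : ∀ v ∈ W, -(2 * (n : ℤ)) ≤ v.1 ∧ v.1 ≤ 2 * n ∧ -((L : ℤ) * n) ≤ v.2 ∧ v.2 ≤ L * n :=
    fun v hv => hWr hv
  -- the vertical crossings
  have vert : ∀ k : ℤ, (k = 6 * n ∨ k = -(6 * n)) → ∀ E : (V → ℤ) → Prop,
      (∀ h : V → ℤ, (∃ u u', DV.Con (DV.nz h ∩ DV.Rec (x.1 + k - 2 * n) (x.1 + k + 2 * n) (x.2 - 8 * n)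
        (x.2 + 8 * n)) u u' ∧ u.2 = x.2 - 8 * n ∧ u'.2 = x.2 + 8 * n) → E h) →
      c ≤ avg (Zs D p Z) (fun h => ind (E h)) := by
    intro k hk E hEv
    refine cross_gen hW hc (trans_lsym (x.1 + k, x.2 + ε)) (fun v => ?_) hE.bd hE.sub hE.par
      (fun v hv => ?_) (fun h hh => hEv h ?_)
    · simp only [RP4.par, RP4.trans, Equiv.coe_addRight, Prod.fst_add, Prod.snd_add]
      rw [Int.even_iff] at hεp ⊢
      rcases hk with rfl | rfl <;> omega
    · obtain ⟨a1, a2, a3, a4⟩ := hWr' v hv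
      have hm := mem_f4b (x := x) (v := RP4.trans (x.1 + k, x.2 + ε) v) hL hn (s := v.1 + k) (t := v.2 + ε)
        (by rw [abs_le]; rcases hk with rfl | rfl <;> constructor <;> linarith)
        (by rw [le_abs]; rcases hk with rfl | rfl
            · left; linarith
            · right; linarith)
        (by rw [abs_le]; rcases hε with rfl | rfl <;> constructor <;> linarith)
        (Or.inl ⟨by
          simp only [RP4.trans, Equiv.coe_addRight, Prod.fst_add]
          congr 1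
          ring, by
          simp only [RP4.trans, Equiv.coe_addRight, Prod.snd_add]
          congr 1
          ring⟩)
      exact ⟨hE.dom _ hm.1 hm.2, hE.free _ hm.1 hm.2⟩
    · obtain ⟨q, q', h1, h2, h3⟩ := hh
      obtain ⟨u, u', h4, h5, h6⟩ := cut_rows (a := -(8 * n) - ε) (b := 8 * n - ε) (by linarith) h1
        (by rcases hε with rfl | rfl <;> linarith) (by rcases hε with rfl | rfl <;> linarith)
      refine ⟨RP4.trans (x.1 + k, x.2 + ε) u, RP4.trans (x.1 + k, x.2 + ε) u',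
        con_map (trans_lsym _) h4 ?_, ?_, ?_⟩
      · rintro w ⟨⟨hw, hw'⟩, hw1, hw2⟩
        obtain ⟨a1, a2, a3, a4⟩ := hWr' w hw
        refine ⟨hw', ?_⟩
        simp only [RP4.trans, Equiv.coe_addRight, DV.Rec, Set.mem_ofPred_eq, Prod.fst_add, Prod.snd_add]
        refine ⟨?_, ?_, ?_, ?_⟩ <;> linarith
      · simp only [RP4.trans, Equiv.coe_addRight, Prod.snd_add]
        rw [h5]
        ring
      · simp only [RP4.trans, Equiv.coe_addRight, Prod.snd_add]
        rw [h6]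
        ring
  -- the horizontal crossings
  have hori : ∀ k : ℤ, (k = 6 * n ∨ k = -(6 * n)) → ∀ E : (V → ℤ) → Prop,
      (∀ h : V → ℤ, (∃ u u', DV.Con (DV.nz h ∩ DV.Rec (x.1 - 8 * n) (x.1 + 8 * n) (x.2 + k - 2 * n)
        (x.2 + k + 2 * n)) u u' ∧ u.1 = x.1 - 8 * n ∧ u'.1 = x.1 + 8 * n) → E h) →
      c ≤ avg (Zs D p Z) (fun h => ind (E h)) := by
    intro k hk E hEv
    refine cross_gen hW hc (lsym_swap_f4b (x.1 + ε, x.2 + k)) (fun v => ?_) hE.bd hE.sub hE.par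
      (fun v hv => ?_) (fun h hh => hEv h ?_)
    · simp only [RP4.par, RP4.trans, swapV, Equiv.trans_apply, Equiv.coe_fn_mk, Equiv.coe_addRight,
        Prod.fst_add, Prod.snd_add]
      rw [Int.even_iff] at hεp ⊢
      rcases hk with rfl | rfl <;> omega
    · obtain ⟨a1, a2, a3, a4⟩ := hWr' v hv
      have hm := mem_f4b (x := x) (v := (swapV.trans (RP4.trans (x.1 + ε, x.2 + k))) v) hL hn
        (s := v.1 + k) (t := v.2 + ε)
        (by rw [abs_le]; rcases hk with rfl | rfl <;> constructor <;> linarith)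
        (by rw [le_abs]; rcases hk with rfl | rfl
            · left; linarith
            · right; linarith)
        (by rw [abs_le]; rcases hε with rfl | rfl <;> constructor <;> linarith)
        (Or.inr ⟨by
          simp only [RP4.trans, swapV, Equiv.trans_apply, Equiv.coe_fn_mk, Equiv.coe_addRight,
            Prod.fst_add]
          congr 1
          ring, by
          simp only [RP4.trans, swapV, Equiv.trans_apply, Equiv.coe_fn_mk, Equiv.coe_addRight,
            Prod.snd_add]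
          congr 1
          ring⟩)
      exact ⟨hE.dom _ hm.1 hm.2, hE.free _ hm.1 hm.2⟩
    · obtain ⟨q, q', h1, h2, h3⟩ := hh
      obtain ⟨u, u', h4, h5, h6⟩ := cut_rows (a := -(8 * n) - ε) (b := 8 * n - ε) (by linarith) h1
        (by rcases hε with rfl | rfl <;> linarith) (by rcases hε with rfl | rfl <;> linarith)
      refine ⟨(swapV.trans (RP4.trans (x.1 + ε, x.2 + k))) u,
        (swapV.trans (RP4.trans (x.1 + ε, x.2 + k))) u', con_map (lsym_swap_f4b _) h4 ?_, ?_, ?_⟩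
      · rintro w ⟨⟨hw, hw'⟩, hw1, hw2⟩
        obtain ⟨a1, a2, a3, a4⟩ := hWr' w hw
        refine ⟨hw', ?_⟩
        simp only [RP4.trans, swapV, Equiv.trans_apply, Equiv.coe_fn_mk, Equiv.coe_addRight, DV.Rec,
          Set.mem_ofPred_eq, Prod.fst_add, Prod.snd_add]
        refine ⟨?_, ?_, ?_, ?_⟩ <;> linarith
      · simp only [RP4.trans, swapV, Equiv.trans_apply, Equiv.coe_fn_mk, Equiv.coe_addRight,
          Prod.fst_add]
        rw [h5]
        ring
      · simp only [RP4.trans, swapV, Equiv.trans_apply, Equiv.coe_fn_mk, Equiv.coe_addRight,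
          Prod.fst_add]
        rw [h6]
        ring
  refine ⟨⟨?_, ?_⟩, ?_, ?_⟩
  · refine vert (-(6 * n)) (Or.inr rfl) _ (fun h hh => ?_)
    obtain ⟨u, u', h1, h2, h3⟩ := hh
    refine ⟨u, u', ?_, h2, h3⟩
    have e : DV.Rec (x.1 + -(6 * n) - 2 * n) (x.1 + -(6 * n) + 2 * n) (x.2 - 8 * n) (x.2 + 8 * n) =
        DV.Rec (x.1 - 8 * n) (x.1 - 4 * n) (x.2 - 8 * n) (x.2 + 8 * n) := by
      congr 1 <;> ring
    rw [← e]
    exact h1
  · refine vert (6 * n) (Or.inl rfl) _ (fun h hh => ?_)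
    obtain ⟨u, u', h1, h2, h3⟩ := hh
    refine ⟨u, u', ?_, h2, h3⟩
    have e : DV.Rec (x.1 + 6 * n - 2 * n) (x.1 + 6 * n + 2 * n) (x.2 - 8 * n) (x.2 + 8 * n) =
        DV.Rec (x.1 + 4 * n) (x.1 + 8 * n) (x.2 - 8 * n) (x.2 + 8 * n) := by
      congr 1 <;> ring
    rw [← e]
    exact h1
  · refine hori (6 * n) (Or.inl rfl) _ (fun h hh => ?_)
    obtain ⟨u, u', h1, h2, h3⟩ := hh
    refine ⟨u, u', ?_, h2, h3⟩
    have e : DV.Rec (x.1 - 8 * n) (x.1 + 8 * n) (x.2 + 6 * n - 2 * n) (x.2 + 6 * n + 2 * n) =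
        DV.Rec (x.1 - 8 * n) (x.1 + 8 * n) (x.2 + 4 * n) (x.2 + 8 * n) := by
      congr 1 <;> ring
    rw [← e]
    exact h1
  · refine hori (-(6 * n)) (Or.inr rfl) _ (fun h hh => ?_)
    obtain ⟨u, u', h1, h2, h3⟩ := hh
    refine ⟨u, u', ?_, h2, h3⟩
    have e : DV.Rec (x.1 - 8 * n) (x.1 + 8 * n) (x.2 + -(6 * n) - 2 * n) (x.2 + -(6 * n) + 2 * n) =
        DV.Rec (x.1 - 8 * n) (x.1 + 8 * n) (x.2 - 8 * n) (x.2 - 4 * n) := by
      congr 1 <;> ring
    rw [← e]
    exact h1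

end AL
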