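import Pool.Agent.Helper74.AL.Defs

/-!
ALPHA piece K1: a height function with vanishing Laplacian on a block is steep.
-/

open Finset RP4 KP

namespace AL

private lemma abs1_h74 {x : ℤ} (h : |x| = 1) : x = 1 ∨ x = -1 := by
  rcases abs_cases x with ⟨h1, _⟩ | ⟨h1, _⟩ <;> omega

section grid

variable (H : ℤ → ℤ → ℤ)
  (hx : ∀ a b : ℤ, -5 ≤ a → a ≤ 4 → -5 ≤ b → b ≤ 5 → H (a + 1) b - H a b = 1 ∨ H (a + 1) b - H a b = -1)
  (hy : ∀ a b : ℤ, -5 ≤ a → a ≤ 5 → -5 ≤ b → b ≤ 4 → H a (b + 1) - H a b = 1 ∨ H a (b + 1) - H a b = -1)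
  (hL : ∀ a b : ℤ, -4 ≤ a → a ≤ 4 → -4 ≤ b → b ≤ 4 → H (a + 1) b + H (a - 1) b + H a (b + 1) + H a (b - 1) = 4 * H a b)

include hx hy hL

/-- no saddle -/
private lemma ns_h74 (a b : ℤ) (h1 : -3 ≤ a) (h2 : a ≤ 3) (h3 : -3 ≤ b) (h4 : b ≤ 3) :
    H (a + 1) b - H a b = H a b - H (a - 1) b ∧ H a (b + 1) - H a b = H a b - H a (b - 1) := by
  have e1 := hx a b (by omega) (by omega) (by omega) (by omega)
  have e2 := hx (a - 1) b (by omega) (by omega) (by omega) (by omega)
  have e3 := hy a b (by omega) (by omega) (by omega) (by omega)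
  have e4 := hy a (b - 1) (by omega) (by omega) (by omega) (by omega)
  have e5 := hx (a + 1) b (by omega) (by omega) (by omega) (by omega)
  have e6 := hx a (b + 1) (by omega) (by omega) (by omega) (by omega)
  have e7 := hx a (b - 1) (by omega) (by omega) (by omega) (by omega)
  have e8 := hy (a + 1) b (by omega) (by omega) (by omega) (by omega)
  have e9 := hy (a + 1) (b - 1) (by omega) (by omega) (by omega) (by omega)
  have l1 := hL a b (by omega) (by omega) (by omega) (by omega)
  have l2 := hL (a + 1) b (by omega) (by omega) (by omega) (by omega)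
  rw [show a - 1 + 1 = a by ring] at e2
  rw [show b - 1 + 1 = b by ring] at e4 e9
  rw [show a + 1 - 1 = a by ring] at l2
  rcases e1 with e1 | e1 <;> rcases e2 with e2 | e2 <;> rcases e3 with e3 | e3 <;>
    rcases e4 with e4 | e4 <;> omega

/-- the vertical step does not change in a horizontal move -/
private lemma hm_h74 (a b : ℤ) (h1 : -3 ≤ a) (h2 : a + 1 ≤ 3) (h3 : -3 ≤ b) (h4 : b ≤ 3) :
    H (a + 1) (b + 1) - H (a + 1) b = H a (b + 1) - H a b := by
  obtain ⟨_, n1⟩ := ns_h74 H hx hy hL a b (by omega) (by omega) (by omega) (by omega)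
  obtain ⟨_, n2⟩ := ns_h74 H hx hy hL (a + 1) b (by omega) (by omega) (by omega) (by omega)
  have e1 := hx a b (by omega) (by omega) (by omega) (by omega)
  have e3 := hy a b (by omega) (by omega) (by omega) (by omega)
  have e6 := hx a (b + 1) (by omega) (by omega) (by omega) (by omega)
  have e7 := hx a (b - 1) (by omega) (by omega) (by omega) (by omega)
  have e8 := hy (a + 1) b (by omega) (by omega) (by omega) (by omega)
  rcases e1 with e1 | e1 <;> rcases e3 with e3 | e3 <;> rcases e8 with e8 | e8 <;> omega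

/-- the horizontal step does not change in a vertical move -/
private lemma vm_h74 (a b : ℤ) (h1 : -3 ≤ a) (h2 : a ≤ 3) (h3 : -3 ≤ b) (h4 : b + 1 ≤ 3) :
    H (a + 1) (b + 1) - H a (b + 1) = H (a + 1) b - H a b := by
  obtain ⟨n1, _⟩ := ns_h74 H hx hy hL a b (by omega) (by omega) (by omega) (by omega)
  obtain ⟨n2, _⟩ := ns_h74 H hx hy hL a (b + 1) (by omega) (by omega) (by omega) (by omega)
  have e1 := hx a b (by omega) (by omega) (by omega) (by omega)
  have e3 := hy a b (by omega) (by omega) (by omega) (by omega)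
  have e6 := hx a (b + 1) (by omega) (by omega) (by omega) (by omega)
  have e8 := hy (a + 1) b (by omega) (by omega) (by omega) (by omega)
  have e9 := hy (a - 1) b (by omega) (by omega) (by omega) (by omega)
  rcases e1 with e1 | e1 <;> rcases e3 with e3 | e3 <;> rcases e6 with e6 | e6 <;> omega

/-- the steps are constant on the axis -/
private lemma ax_h74 (n : ℕ) (hn : n ≤ 3) : (H (n + 1) 0 - H n 0 = H 1 0 - H 0 0 ∧ H n 1 - H n 0 = H 0 1 - H 0 0 ∧
    H n 0 = H 0 0 + (H 1 0 - H 0 0) * n) ∧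
    (H (-n + 1) 0 - H (-n) 0 = H 1 0 - H 0 0 ∧ H (-n) 1 - H (-n) 0 = H 0 1 - H 0 0 ∧
    H (-n) 0 = H 0 0 - (H 1 0 - H 0 0) * n) := by
  induction n with
  | zero => simp
  | succ n ih =>
    obtain ⟨⟨i1, i2, i3⟩, j1, j2, j3⟩ := ih (by omega)
    have c := ns_h74 H hx hy hL (n + 1) 0 (by omega) (by omega) (by omega) (by omega)
    have d := ns_h74 H hx hy hL (-n) 0 (by omega) (by omega) (by omega) (by omega)
    have p := hm_h74 H hx hy hL n 0 (by omega) (by omega) (by omega) (by omega)
    have q := hm_h74 H hx hy hL (-n - 1) 0 (by omega) (by omega) (by omega) (by omega)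
    rw [show (n : ℤ) + 1 - 1 = n by ring] at c
    rw [show -(n : ℤ) - 1 + 1 = -n by ring] at q
    rw [zero_add] at p q
    push_cast
    rw [show -((n : ℤ) + 1) + 1 = -n by ring, show -((n : ℤ) + 1) = -n - 1 by ring]
    refine ⟨⟨by linarith [c.1], by linarith, ?_⟩, ⟨by linarith [d.1], by linarith, ?_⟩⟩
    · have : H (n + 1) 0 = H n 0 + (H 1 0 - H 0 0) := by linarith
      rw [this, i3]
      ring
    · have : H (-n - 1) 0 = H (-n) 0 - (H 1 0 - H 0 0) := by linarith [d.1]
      rw [this, j3]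
      ring

private lemma grid_h74 (a b : ℤ) (h1 : -3 ≤ a) (h2 : a ≤ 3) (h3 : -3 ≤ b) (h4 : b ≤ 3) :
    H a b = H 0 0 + (H 1 0 - H 0 0) * a + (H 0 1 - H 0 0) * b := by
  have hax : ∀ a : ℤ, -3 ≤ a → a ≤ 3 → H a 1 - H a 0 = H 0 1 - H 0 0 ∧ H a 0 = H 0 0 + (H 1 0 - H 0 0) * a := by
    intro a ha ha'
    rcases le_total 0 a with h | h
    · obtain ⟨n, rfl⟩ := Int.eq_ofNat_of_zero_le h
      exact (ax_h74 H hx hy hL n (by omega)).1.2
    · obtain ⟨n, hn⟩ := Int.eq_ofNat_of_zero_le (neg_nonneg.2 h)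
      have e : a = -(n : ℤ) := by omega
      subst e
      obtain ⟨k1, k2⟩ := (ax_h74 H hx hy hL n (by omega)).2.2
      exact ⟨k1, by rw [k2]; ring⟩
  have key : ∀ n : ℕ, n ≤ 3 → (H a (n + 1) - H a n = H a 1 - H a 0 ∧ H a n = H a 0 + (H a 1 - H a 0) * n) ∧
      (H a (-n + 1) - H a (-n) = H a 1 - H a 0 ∧ H a (-n) = H a 0 - (H a 1 - H a 0) * n) := by
    intro n
    induction n with
    | zero => simp
    | succ n ih =>
      intro hn
      obtain ⟨⟨i1, i3⟩, j1, j3⟩ := ih (by omega)
      have c := ns_h74 H hx hy hL a (n + 1) (by omega) (by omega) (by omega) (by omega)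
      have d := ns_h74 H hx hy hL a (-n) (by omega) (by omega) (by omega) (by omega)
      rw [show (n : ℤ) + 1 - 1 = n by ring] at c
      push_cast
      rw [show -((n : ℤ) + 1) + 1 = -n by ring, show -((n : ℤ) + 1) = -n - 1 by ring]
      refine ⟨⟨by linarith [c.2], ?_⟩, ⟨by linarith [d.2], ?_⟩⟩
      · have : H a (n + 1) = H a n + (H a 1 - H a 0) := by linarith
        rw [this, i3]
        ring
      · have : H a (-n - 1) = H a (-n) - (H a 1 - H a 0) := by linarith [d.2]
        rw [this, j3]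
        ring
  obtain ⟨k1, k2⟩ := hax a h1 h2
  have : H a b = H a 0 + (H a 1 - H a 0) * b := by
    rcases le_total 0 b with h | h
    · obtain ⟨n, rfl⟩ := Int.eq_ofNat_of_zero_le h
      exact (key n (by omega)).1.2
    · obtain ⟨n, hn⟩ := Int.eq_ofNat_of_zero_le (neg_nonneg.2 h)
      have e : b = -(n : ℤ) := by omega
      subst e
      rw [(key n (by omega)).2.2]
      ring
  rw [this, k1, k2]

end grid

/-- The four neighbours of `x ∈ Box z 4` lie in `Box z 5`, so each of the four differences is `1` or `-1`, two of each sign (`Lap h x = 0`).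
(1) NO SADDLE: let `x ∈ Box z 3` and `h (x + e1) - h x = h (x - e1) - h x = a`, `h (x + e2) - h x = h (x - e2) - h x = -a` (`a = ±1`).  The corners
`x + e1 + e2`, `x + e1 - e2` are adjacent to `x + e1` (height `h x + a`) and to `x ± e2` (height `h x - a`), so their height is `h x` (`h x + a ± 1 = h x - a ± 1`
forces `h x`).  Then `x + e1 ∈ Box z 4` has three neighbours of height `h (x + e1) - a` and its Laplacian is not zero.  So for `x ∈ Box z 3`:
`h (x + e1) = h x + s`, `h (x - e1) = h x - s`, `h (x + e2) = h x + t`, `h (x - e2) = h x - t` with `s, t = ±1` (the type `(s, t)` of `x`; from `Lap = 0` and the differences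
`±1`: if `h (x + e1) - h x = h (x - e1) - h x` then the two others are the opposite sign: saddle).
(2) CONSTANT TYPE: if `x, y = x + b e2 ∈ Box z 3` (`b = ±1`), choose `a = ±1` with `a s = - b t`; the corner `x + a e1 + b e2` is adjacent to `x + a e1` (height `h x + a s`)
and to `y` (height `h x + b t = h x - a s`), so its height is `h x`; hence `h (y + a e1) = h y + a s`, the first entry of the type of `y` is `s`; the second entry is
`t` because `h (y - b e2) = h x = h y - b t`.  In the same way for `y = x + b e1`.  So all `x ∈ Box z 3` have the same type (move from `z` first horizontally, then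
vertically, inside the square), and `h v = h z + s (v.1 - z.1) + t (v.2 - z.2)` by the same induction. -/
theorem steep {h : V → ℤ} {z : V} (hst : ∀ u ∈ Box z 5, ∀ v ∈ Box z 5, Adj u v → |h u - h v| = 1)
    (hL : ∀ x ∈ Box z 4, Lap h x = 0) : ∃ s t : ℤ, (s = 1 ∨ s = -1) ∧ (t = 1 ∨ t = -1) ∧
      ∀ v ∈ Box z 3, h v = h z + s * (v.1 - z.1) + t * (v.2 - z.2) := by
  have hx : ∀ a b : ℤ, -5 ≤ a → a ≤ 4 → -5 ≤ b → b ≤ 5 →
      h (z.1 + (a + 1), z.2 + b) - h (z.1 + a, z.2 + b) = 1 ∨
      h (z.1 + (a + 1), z.2 + b) - h (z.1 + a, z.2 + b) = -1 := by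
    intro a b h1 h2 h3 h4
    refine abs1_h74 (hst _ ?_ _ ?_ ?_)
    · rw [mem_Box, abs_le, abs_le]
      constructor <;> constructor <;> simp only [] <;> push_cast <;> omega
    · rw [mem_Box, abs_le, abs_le]
      constructor <;> constructor <;> simp only [] <;> push_cast <;> omega
    · unfold Adj
      rw [show (z.1 + (a + 1), z.2 + b).1 - (z.1 + a, z.2 + b).1 = 1 by simp only []; ring,
        show (z.1 + (a + 1), z.2 + b).2 - (z.1 + a, z.2 + b).2 = 0 by simp only []; ring]
      simp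
  have hy : ∀ a b : ℤ, -5 ≤ a → a ≤ 5 → -5 ≤ b → b ≤ 4 →
      h (z.1 + a, z.2 + (b + 1)) - h (z.1 + a, z.2 + b) = 1 ∨
      h (z.1 + a, z.2 + (b + 1)) - h (z.1 + a, z.2 + b) = -1 := by
    intro a b h1 h2 h3 h4
    refine abs1_h74 (hst _ ?_ _ ?_ ?_)
    · rw [mem_Box, abs_le, abs_le]
      constructor <;> constructor <;> simp only [] <;> push_cast <;> omega
    · rw [mem_Box, abs_le, abs_le]
      constructor <;> constructor <;> simp only [] <;> push_cast <;> omega
    · unfold Adj
      rw [show (z.1 + a, z.2 + (b + 1)).1 - (z.1 + a, z.2 + b).1 = 0 by simp only []; ring,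
        show (z.1 + a, z.2 + (b + 1)).2 - (z.1 + a, z.2 + b).2 = 1 by simp only []; ring]
      simp
  have hL' : ∀ a b : ℤ, -4 ≤ a → a ≤ 4 → -4 ≤ b → b ≤ 4 →
      h (z.1 + (a + 1), z.2 + b) + h (z.1 + (a - 1), z.2 + b) + h (z.1 + a, z.2 + (b + 1)) +
        h (z.1 + a, z.2 + (b - 1)) = 4 * h (z.1 + a, z.2 + b) := by
    intro a b h1 h2 h3 h4
    have := hL (z.1 + a, z.2 + b) (by
      rw [mem_Box, abs_le, abs_le]
      constructor <;> constructor <;> simp only [] <;> push_cast <;> omega)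
    unfold Lap at this
    simp only [] at this
    rw [show z.1 + (a + 1) = z.1 + a + 1 by ring, show z.1 + (a - 1) = z.1 + a - 1 by ring,
      show z.2 + (b + 1) = z.2 + b + 1 by ring, show z.2 + (b - 1) = z.2 + b - 1 by ring]
    linarith
  have g := grid_h74 (fun a b => h (z.1 + a, z.2 + b)) hx hy hL'
  refine ⟨h (z.1 + 1, z.2 + 0) - h (z.1 + 0, z.2 + 0), h (z.1 + 0, z.2 + 1) - h (z.1 + 0, z.2 + 0), ?_, ?_, ?_⟩
  · exact hx 0 0 (by norm_num) (by norm_num) (by norm_num) (by norm_num)
  · exact hy 0 0 (by norm_num) (by norm_num) (by norm_num) (by norm_num)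
  · intro v hv
    rw [mem_Box, abs_le, abs_le] at hv
    obtain ⟨⟨h1, h2⟩, h3, h4⟩ := hv
    push_cast at h1 h2 h3 h4
    have := g (v.1 - z.1) (v.2 - z.2) (by omega) (by omega) (by omega) (by omega)
    simp only [add_sub_cancel] at this
    have e : h (z.1 + 0, z.2 + 0) = h z := by simp
    rw [e] at this ⊢
    exact this

end AL
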