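import Pool.Agent.Helper74.AL.K1
import Pool.Agent.Helper74.AL.K2

/-!
ALPHA piece K3: every block of every domain is active.
-/

open Finset RP4 KP

namespace AL

private noncomputable def offK3 (e : ℤ) : Finset V :=
  ((Icc (-2) 2 : Finset ℤ) ×ˢ (Icc (-2) 2 : Finset ℤ)).filter (fun o => (o.1 + o.2) % 2 = e)

private lemma off1_K3 : (offK3 1).card = 12 := by decide

private lemma off0_K3 : (offK3 0).card = 13 := by decide

private noncomputable def oddK3 (z : V) (e : ℤ) : Finset V := (offK3 e).image (fun o => ((z.1 + o.1, z.2 + o.2) : V))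

private lemma card_oddK3 (z : V) (e : ℤ) : (oddK3 z e).card = (offK3 e).card := by
  unfold oddK3
  refine card_image_of_injective _ fun a b h => ?_
  have h1 := congrArg Prod.fst h
  have h2 := congrArg Prod.snd h
  simp only at h1 h2
  exact Prod.ext (by linarith) (by linarith)

private lemma mem_oddK3 {z v : V} {e : ℤ} (h : v ∈ oddK3 z e) :
    v ∈ Box z 2 ∧ (v.1 - z.1 + (v.2 - z.2)) % 2 = e := by
  unfold oddK3 at h
  obtain ⟨o, ho, rfl⟩ := mem_image.1 h
  unfold offK3 at ho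
  rw [mem_filter, mem_product, mem_Icc, mem_Icc] at ho
  obtain ⟨⟨⟨h1, h2⟩, h3, h4⟩, h5⟩ := ho
  constructor
  · rw [mem_Box]
    simp only [add_sub_cancel_left, abs_le]
    push_cast
    exact ⟨⟨h1, h2⟩, h3, h4⟩
  · simp only [add_sub_cancel_left]
    exact h5

private lemma adj_K3 {z u v : V} (hv : v ∈ Box z 2) (h : Adj u v) : u ∈ Box z 3 := by
  rw [mem_Box, abs_le, abs_le] at *
  unfold Adj at h
  have h1 := abs_nonneg (u.1 - v.1)
  have h2 := abs_nonneg (u.2 - v.2)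
  have h3 : |u.1 - v.1| ≤ 1 := by linarith
  have h4 : |u.2 - v.2| ≤ 1 := by linarith
  rw [abs_le] at h3 h4
  push_cast at *
  obtain ⟨⟨a1, a2⟩, a3, a4⟩ := hv
  exact ⟨⟨by linarith, by linarith⟩, by linarith, by linarith⟩

private lemma box_K3 {z v : V} {m n : ℕ} (hmn : m ≤ n) (hv : v ∈ Box z m) : v ∈ Box z n := by
  rw [mem_Box] at *
  have : (m : ℤ) ≤ n := by exact_mod_cast hmn
  exact ⟨hv.1.trans this, hv.2.trans this⟩

private lemma odd_K3 {D : Finset V} {z v : V} {e : ℤ} (hz : Box z 5 ⊆ D) (he : (par z + e) % 2 = 1)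
    (h : v ∈ oddK3 z e) : v ∈ core D ∧ par v % 2 = 1 ∧ ∀ u, Adj u v → u ∈ Box z 3 := by
  obtain ⟨h1, h2⟩ := mem_oddK3 h
  refine ⟨?_, ?_, fun u hu => adj_K3 h1 hu⟩
  · unfold core
    rw [mem_sdiff, mem_bdry]
    refine ⟨hz (box_K3 (by norm_num) h1), ?_⟩
    rintro ⟨_, u, hu, hu'⟩
    exact hu' (hz (box_K3 (by norm_num) (adj_K3 h1 hu)))
  · unfold par at *
    omega

private lemma pattK3 {D : Finset V} (hD : BdryPar D 0) {z : V} (hz : Box z 5 ⊆ D) (s t : ℤ) :
    avg (Om D) (fun h => ind (∀ v ∈ Box z 3, h v = h z + s * (v.1 - z.1) + t * (v.2 - z.2))) ≤ 1 / 64 := by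
  have hS : Box z 3 ⊆ D := fun v hv => hz (box_K3 (by norm_num) hv)
  have hzz : z ∈ Box z 3 := by
    rw [mem_Box]
    simp
  rcases Int.emod_two_eq_zero_or_one (par z) with hp | hp
  · have he : (par z + 1) % 2 = 1 := by omega
    have h1 := rel_patt (D := D) (S := Box z 3) (O := oddK3 z 1) hD hS
      (fun v hv => box_K3 (by norm_num) (mem_oddK3 hv).1) (fun v hv => odd_K3 hz he hv)
      (fun v => s * (v.1 - z.1) + t * (v.2 - z.2)) hzz hp
    rw [card_oddK3, off1_K3] at h1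
    refine le_trans (avg_mono fun h _ => ind_mono fun h2 v hv => ?_) (h1.trans (by norm_num))
    rw [h2 v hv]
    ring
  · have he : (par z + 0) % 2 = 1 := by omega
    have hx : ((z.1 + 1, z.2) : V) ∈ Box z 3 := by
      rw [mem_Box]
      simp
    have h1 := rel_patt (D := D) (S := Box z 3) (O := oddK3 z 0) hD hS
      (fun v hv => box_K3 (by norm_num) (mem_oddK3 hv).1) (fun v hv => odd_K3 hz he hv)
      (fun v => s * (v.1 - z.1) + t * (v.2 - z.2) - s) hx (by
        show (z.1 + 1 + z.2) % 2 = 0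
        unfold par at hp
        omega)
    rw [card_oddK3, off0_K3] at h1
    refine le_trans (avg_mono fun h _ => ind_mono fun h2 v hv => ?_) (h1.trans (by norm_num))
    have h3 := h2 _ hx
    simp only at h3
    rw [h2 v hv, h3]
    ring

private lemma addK3 (S : Finset (V → ℤ)) (F G : (V → ℤ) → ℝ) :
    avg S (fun h => F h + G h) = avg S F + avg S G := by
  unfold avg
  rw [Finset.sum_add_distrib, add_div]

private lemma stepK3 {D : Finset V} {z : V} (hz : Box z 5 ⊆ D) {h : V → ℤ} (hh : h ∈ Om D) :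
    (1 : ℝ) ≤ (∑ x ∈ Box z 4, (Lap h x : ℝ) ^ 2) +
      ∑ p ∈ ({1, -1} : Finset ℤ) ×ˢ ({1, -1} : Finset ℤ),
        ind (∀ v ∈ Box z 3, h v = h z + p.1 * (v.1 - z.1) + p.2 * (v.2 - z.2)) := by
  have hn1 : 0 ≤ ∑ x ∈ Box z 4, (Lap h x : ℝ) ^ 2 := Finset.sum_nonneg fun x _ => sq_nonneg _
  have hn2 : 0 ≤ ∑ p ∈ ({1, -1} : Finset ℤ) ×ˢ ({1, -1} : Finset ℤ),
      ind (∀ v ∈ Box z 3, h v = h z + p.1 * (v.1 - z.1) + p.2 * (v.2 - z.2)) :=
    Finset.sum_nonneg fun p _ => ind_nonneg _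
  by_cases hL : ∀ x ∈ Box z 4, Lap h x = 0
  · obtain ⟨s, t, hs, ht, hv⟩ := steep (fun u hu v hv ha => (mem_Om.1 hh).1.step u (hz hu) v (hz hv) ha) hL
    have hm : ((s, t) : ℤ × ℤ) ∈ ({1, -1} : Finset ℤ) ×ˢ ({1, -1} : Finset ℤ) := by
      rw [mem_product]
      constructor
      · rw [mem_insert, mem_singleton]
        exact hs
      · rw [mem_insert, mem_singleton]
        exact ht
    have h1 := Finset.single_le_sum (f := fun p : ℤ × ℤ =>
      ind (∀ v ∈ Box z 3, h v = h z + p.1 * (v.1 - z.1) + p.2 * (v.2 - z.2)))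
      (fun p _ => ind_nonneg _) hm
    have h2 : ind (∀ v ∈ Box z 3, h v = h z + s * (v.1 - z.1) + t * (v.2 - z.2)) = 1 := by
      unfold ind
      rw [if_pos hv]
    simp only [h2] at h1
    linarith
  · push Not at hL
    obtain ⟨x, hx, hx'⟩ := hL
    have h1 := Finset.single_le_sum (f := fun x : V => (Lap h x : ℝ) ^ 2) (fun x _ => sq_nonneg _) hx
    have h2 : (1 : ℝ) ≤ (Lap h x : ℝ) ^ 2 := by
      have : (1 : ℤ) ≤ Lap h x ^ 2 := by
        have := sq_nonneg (Lap h x)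
        have h3 : Lap h x ^ 2 ≠ 0 := pow_ne_zero 2 hx'
        omega
      exact_mod_cast this
    linarith

/-- For `h ∈ Om D` (integer valued) `(Lap h x : ℝ) ^ 2 ≥ 1` if `Lap h x ≠ 0`, so the sum is at least the probability that `Lap h x ≠ 0` for some `x ∈ Box z 4`, that is
`1 - P(Lap h x = 0 for all x ∈ Box z 4)` (`Om D` is nonempty, `avg` of `1` is `1`).  On the last event `steep` (the steps of `h ∈ Om D` between adjacent points of
`Box z 5 ⊆ D` are `±1`, `IsHom.step`) gives one of the four patterns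
`h v = h z + s (v.1 - z.1) + t (v.2 - z.2)`, `v ∈ S = Box z 3`.  Let `x₀ = z` if `par z` is even, otherwise `x₀ = z + (1, 0)`; relative to `x₀`: `h v = h x₀ + ρ v`,
`ρ v = s (v.1 - x₀.1) + t (v.2 - x₀.2)`.  `O` = the points `v ∈ Box z 2` with `par v % 2 = 1`: their neighbours are in `Box z 3`, they are in `core D` (all neighbours in `D`),
`12 ≤ #O ≤ 25` (count; e.g. `O` contains the image of 12 explicit offsets; or use instead an explicit set `O` of 12 such points in each of the two parity cases, then `#O = 12`).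
`rel_patt`: each pattern has probability at most `(4 * 12 + 8) / 2 ^ 12 ≤ 1 / 64`, together at most `1 / 16`. -/
theorem act {D : Finset V} (hD : BdryPar D 0) {z : V} (hz : Box z 5 ⊆ D) :
    1 / 2 ≤ ∑ x ∈ Box z 4, avg (Om D) (fun h => (Lap h x : ℝ) ^ 2) := by
  have hne : (Om D).Nonempty := Om_nonempty hD
  have h1 : avg (Om D) (fun _ => (1 : ℝ)) = 1 := by
    unfold avg
    rw [Finset.sum_const, nsmul_eq_mul, mul_one]
    exact div_self (by exact_mod_cast hne.card_pos.ne')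
  have h2 : avg (Om D) (fun _ => (1 : ℝ)) ≤ avg (Om D) (fun h => (∑ x ∈ Box z 4, (Lap h x : ℝ) ^ 2) +
      ∑ p ∈ ({1, -1} : Finset ℤ) ×ˢ ({1, -1} : Finset ℤ),
        ind (∀ v ∈ Box z 3, h v = h z + p.1 * (v.1 - z.1) + p.2 * (v.2 - z.2))) :=
    avg_mono fun h hh => stepK3 hz hh
  rw [h1, addK3, avg_sum', avg_sum'] at h2
  have h3 : ∑ p ∈ ({1, -1} : Finset ℤ) ×ˢ ({1, -1} : Finset ℤ), avg (Om D) (fun h =>
      ind (∀ v ∈ Box z 3, h v = h z + p.1 * (v.1 - z.1) + p.2 * (v.2 - z.2)))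
      ≤ ∑ p ∈ ({1, -1} : Finset ℤ) ×ˢ ({1, -1} : Finset ℤ), (1 / 64 : ℝ) :=
    Finset.sum_le_sum fun p _ => pattK3 hD hz p.1 p.2
  have h4 : (({1, -1} : Finset ℤ) ×ˢ ({1, -1} : Finset ℤ)).card = 4 := by decide
  rw [Finset.sum_const, h4, nsmul_eq_mul] at h3
  have h5 : ((4 : ℕ) : ℝ) * (1 / 64) = 1 / 16 := by norm_num
  rw [h5] at h3
  linarith

end AL
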