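import Pool.Agent.Helper74.AL.Defs

/-!
ALPHA piece K4a: patterns along a steep line.
-/

open Finset RP4 KP

namespace AL

private lemma K4a_bd {a : ℤ → ℤ} {l : ℕ} (hs : ∀ i : ℤ, 0 ≤ i → i < l → |a (i + 1) - a i| = 1) (n : ℕ) :
    ∀ i : ℤ, 0 ≤ i → i + n ≤ l → |a (i + n) - a i| ≤ n := by
  induction n with
  | zero => intro i _ _; simp
  | succ n ih =>
    intro i h0 h1
    push_cast at h1 ⊢
    have e1 := abs_le.1 (ih i h0 (by omega))
    have e2 := hs (i + n) (by omega) (by omega)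
    rw [show i + ((n : ℤ) + 1) = i + n + 1 by ring]
    rw [abs_eq (by norm_num)] at e2
    rw [abs_le]
    constructor <;> rcases e2 with e2 | e2 <;> omega

private lemma K4a_line {a : ℤ → ℤ} {l : ℕ} (hs : ∀ i : ℤ, 0 ≤ i → i < l → |a (i + 1) - a i| = 1)
    (he : |a l - a 0| = l) : ∃ s : ℤ, (s = 1 ∨ s = -1) ∧ ∀ i : ℤ, 0 ≤ i → i ≤ l → a i = a 0 + s * i := by
  have key : ∀ i : ℤ, 0 ≤ i → i ≤ l → |a i - a 0| ≤ i ∧ |a l - a i| ≤ l - i := by
    intro i h0 h1
    have e1 := K4a_bd hs i.toNat 0 le_rfl (by omega)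
    have e2 := K4a_bd hs ((l : ℤ) - i).toNat i h0 (by omega)
    rw [show (0 : ℤ) + (i.toNat : ℤ) = i by omega, show ((i.toNat : ℕ) : ℤ) = i by omega] at e1
    rw [show i + ((((l : ℤ) - i).toNat : ℕ) : ℤ) = l by omega,
      show ((((l : ℤ) - i).toNat : ℕ) : ℤ) = l - i by omega] at e2
    exact ⟨e1, e2⟩
  rw [abs_eq (by omega)] at he
  rcases he with he | he
  · refine ⟨1, Or.inl rfl, fun i h0 h1 => ?_⟩
    obtain ⟨e1, e2⟩ := key i h0 h1
    rw [abs_le] at e1 e2
    omega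
  · refine ⟨-1, Or.inr rfl, fun i h0 h1 => ?_⟩
    obtain ⟨e1, e2⟩ := key i h0 h1
    rw [abs_le] at e1 e2
    omega

private lemma K4a_side {b : ℤ → ℤ} {s c : ℤ} (hs : s = 1 ∨ s = -1) (l : ℕ)
    (h1 : ∀ i : ℤ, 0 ≤ i → i ≤ l → |b i - (c + s * i)| = 1)
    (h2 : ∀ i : ℤ, 0 ≤ i → i < l → |b (i + 1) - b i| = 1) :
    ∃ m ∈ range (l + 2), ∀ i : ℤ, 0 ≤ i → i ≤ l → b i = c + s * i + (if i < m then s else -s) := by
  induction l with
  | zero =>
    have e := h1 0 le_rfl (by simp)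
    rw [abs_eq (by norm_num)] at e
    by_cases hb : b 0 = c + s
    · refine ⟨1, by simp, fun i i0 i1 => ?_⟩
      have : i = 0 := by push_cast at i1; omega
      subst this
      simp [hb]
    · refine ⟨0, by simp, fun i i0 i1 => ?_⟩
      have : i = 0 := by push_cast at i1; omega
      subst this
      simp only [Nat.cast_zero, lt_irrefl, if_false, mul_zero] at e ⊢
      rcases hs with rfl | rfl <;> omega
  | succ l ih =>
    obtain ⟨m, hm, ihm⟩ := ih (fun i i0 i1 => h1 i i0 (by push_cast; omega))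
      (fun i i0 i1 => h2 i i0 (by push_cast; omega))
    rw [mem_range] at hm
    have f1 := h1 ((l : ℤ) + 1) (by omega) (by push_cast; omega)
    have f2 := h2 (l : ℤ) (by omega) (by push_cast; omega)
    have f3 := ihm l (by omega) le_rfl
    rw [abs_eq (by norm_num)] at f1 f2
    by_cases hml : m ≤ l
    · refine ⟨m, mem_range.2 (by omega), fun i i0 i1 => ?_⟩
      push_cast at i1
      rcases lt_or_eq_of_le i1 with i2 | i2
      · exact ihm i i0 (by omega)
      · subst i2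
        rw [if_neg (by omega)] at f3 ⊢
        rcases hs with rfl | rfl <;> omega
    · have hm2 : m = l + 1 := by omega
      subst hm2
      rw [if_pos (by push_cast; omega)] at f3
      by_cases hb : b ((l : ℤ) + 1) = c + s * ((l : ℤ) + 1) + s
      · refine ⟨l + 2, mem_range.2 (by omega), fun i i0 i1 => ?_⟩
        push_cast at i1
        rcases lt_or_eq_of_le i1 with i2 | i2
        · rw [ihm i i0 (by omega), if_pos (by push_cast; omega), if_pos (by push_cast; omega)]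
        · subst i2
          rw [if_pos (by push_cast; omega)]
          exact hb
      · refine ⟨l + 1, mem_range.2 (by omega), fun i i0 i1 => ?_⟩
        push_cast at i1
        rcases lt_or_eq_of_le i1 with i2 | i2
        · exact ihm i i0 (by omega)
        · subst i2
          rw [if_neg (by push_cast; omega)]
          rcases hs with rfl | rfl <;> omega

private lemma K4a_dist {x d : V} (hd : d ∈ dirs) (i j : ℤ) (h0 : 0 ≤ i) (hj : |j| ≤ 1) :
    dist1 x (pt (pt x d i) (prp d) j) ≤ i + 1 := by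
  rw [abs_le] at hj
  unfold dist1
  have e : ∀ u : ℤ, |u| = max u (-u) := fun u => rfl
  simp only [e]
  rcases mem_dirs.1 hd with rfl | rfl | rfl | rfl <;> simp only [pt, prp] <;> omega

private lemma K4a_adj1 {d : V} (hd : d ∈ dirs) (x : V) (i j : ℤ) :
    Adj (pt (pt x d (i + 1)) (prp d) j) (pt (pt x d i) (prp d) j) := by
  unfold Adj
  have e : ∀ u : ℤ, |u| = max u (-u) := fun u => rfl
  simp only [e]
  rcases mem_dirs.1 hd with rfl | rfl | rfl | rfl <;> simp only [pt, prp] <;> omega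

private lemma K4a_adj2 {d : V} (hd : d ∈ dirs) (x : V) (j : ℤ) (hj : |j| = 1) :
    Adj (pt x (prp d) j) x := by
  rw [abs_eq (by norm_num)] at hj
  unfold Adj
  have e : ∀ u : ℤ, |u| = max u (-u) := fun u => rfl
  simp only [e]
  rcases mem_dirs.1 hd with rfl | rfl | rfl | rfl <;> simp only [pt, prp] <;> omega

private lemma K4a_pt0 (x d : V) : pt x d 0 = x := by
  simp [pt]

/-- Let `h ∈ Om D`, `|h (pt x d l) - h x| = l`, all points at distance `≤ l + 1` from `x` in `D`.  The `l` steps along the line are `±1`, so they all have the same sign `s`: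
`h (pt x d i) = h x + s i`, `0 ≤ i ≤ l`.  Side column `j = ±1`: `u_i = pt (pt x d i) (prp d) j`, `t_i = s (h u_i - h (pt x d i)) = ±1`; `|h u_(i+1) - h u_i| = 1` gives
`t_(i+1) - t_i + 1 = ±1`, so `t_(i+1) ≤ t_i`: `t` is `1` for `i < m` and `-1` for `i ≥ m`, for some `0 ≤ m ≤ l + 1`.  So on
`S = {pt x d i} ∪ {pt (pt x d i) (prp d) (±1)}`, `0 ≤ i ≤ l`, the function `h - h x` is one of `2 (l + 2) ^ 2` patterns (`s`, `m`, `m'`). -/
theorem line_patt {D : Finset V} {x d : V} (hd : d ∈ dirs) {l : ℕ} (hl : 1 ≤ l) (hb : ∀ v, dist1 x v ≤ l + 1 → v ∈ D)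
    {h : V → ℤ} (hh : h ∈ Om D) (he : |h (pt x d l) - h x| = l) :
    ∃ s : ℤ, (s = 1 ∨ s = -1) ∧ ∃ m ∈ range (l + 2), ∃ m' ∈ range (l + 2),
      (∀ i : ℤ, 0 ≤ i → i ≤ l → h (pt x d i) = h x + s * i) ∧
      (∀ i : ℤ, 0 ≤ i → i ≤ l → h (pt (pt x d i) (prp d) 1) = h x + s * i + (if i < m then s else -s)) ∧
      ∀ i : ℤ, 0 ≤ i → i ≤ l → h (pt (pt x d i) (prp d) (-1)) = h x + s * i + (if i < m' then s else -s) := by
  have hst := (mem_Om.1 hh).1.step
  have hin : ∀ i j : ℤ, 0 ≤ i → i ≤ l → |j| ≤ 1 → pt (pt x d i) (prp d) j ∈ D := by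
    intro i j h0 h1 hj
    exact hb _ ((K4a_dist hd i j h0 hj).trans (by omega))
  have hin0 : ∀ i : ℤ, 0 ≤ i → i ≤ l → pt x d i ∈ D := by
    intro i h0 h1
    have := hin i 0 h0 h1 (by norm_num)
    rwa [K4a_pt0] at this
  have hs1 : ∀ i : ℤ, 0 ≤ i → i < l → |h (pt x d (i + 1)) - h (pt x d i)| = 1 := by
    intro i h0 h1
    have := K4a_adj1 hd x i 0
    rw [K4a_pt0, K4a_pt0] at this
    exact hst _ (hin0 _ (by omega) (by omega)) _ (hin0 _ h0 (by omega)) this
  obtain ⟨s, hs, hline⟩ := K4a_line (a := fun i => h (pt x d i)) hs1 (by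
    simp only [K4a_pt0]
    exact he)
  simp only [K4a_pt0] at hline
  have side : ∀ j : ℤ, |j| = 1 → ∃ m ∈ range (l + 2), ∀ i : ℤ, 0 ≤ i → i ≤ l →
      h (pt (pt x d i) (prp d) j) = h x + s * i + (if i < m then s else -s) := by
    intro j hj
    refine K4a_side (b := fun i => h (pt (pt x d i) (prp d) j)) hs l ?_ ?_
    · intro i h0 h1
      rw [← hline i h0 h1]
      exact hst _ (hin i j h0 h1 hj.le) _ (hin0 i h0 h1) (K4a_adj2 hd _ j hj)
    · intro i h0 h1
      exact hst _ (hin _ j (by omega) (by omega) hj.le) _ (hin _ j h0 (by omega) hj.le) (K4a_adj1 hd x i j)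
  obtain ⟨m, hm, h1⟩ := side 1 (by norm_num)
  obtain ⟨m', hm', h2⟩ := side (-1) (by norm_num)
  exact ⟨s, hs, m, hm, m', hm', hline, h1, h2⟩

end AL
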