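import Pool.Agent.Helper74.AL.Defs

/-!
ALPHA piece K6a: the tent function.
-/

open Finset RP4 KP

namespace AL

/-- the tent of height one over the square of radius `T` -/
noncomputable def tent (T : ℕ) (x : V) : ℝ := max 0 (((T : ℝ) - max |(x.1 : ℝ)| |(x.2 : ℝ)|) / T)

/-- elementary -/
theorem tent_props {T : ℕ} (hT : 1 ≤ T) : (∀ x, x ∉ Box (0, 0) T → tent T x = 0) ∧ (∀ x, 0 ≤ tent T x ∧ tent T x ≤ 1) ∧
    (∀ x y, |tent T x - tent T y| ≤ (1 / T) * dist1 x y) ∧ ∀ x ∈ Box (0, 0) (T / 2), 1 / 2 ≤ tent T x := by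
  have hT0 : (0 : ℝ) < T := by exact_mod_cast (by omega : 0 < T)
  have hcast : ∀ a : ℤ, ((|a| : ℤ) : ℝ) = |(a : ℝ)| := fun a => Int.cast_abs
  have hm : ∀ x : V, tent T x = max 0 (((T : ℝ) - max (abs (x.1 : ℝ)) (abs (x.2 : ℝ))) / T) :=
    fun x => rfl
  refine ⟨fun x hx => ?_, fun x => ⟨le_max_left _ _, ?_⟩, fun x y => ?_, fun x hx => ?_⟩
  · rw [mem_Box, not_and_or, not_le, not_le] at hx
    simp only [sub_zero] at hx
    have h1 : (T : ℝ) < max (abs (x.1 : ℝ)) (abs (x.2 : ℝ)) := by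
      rcases hx with hx | hx
      · refine lt_max_of_lt_left ?_
        rw [← hcast]
        exact_mod_cast hx
      · refine lt_max_of_lt_right ?_
        rw [← hcast]
        exact_mod_cast hx
    rw [hm]
    refine max_eq_left (div_nonpos_of_nonpos_of_nonneg ?_ hT0.le)
    linarith
  · refine max_le zero_le_one ?_
    rw [div_le_one hT0]
    have h1 : 0 ≤ max (abs (x.1 : ℝ)) (abs (x.2 : ℝ)) := le_trans (abs_nonneg _) (le_max_left _ _)
    linarith
  · have h1 : abs (max (abs (x.1 : ℝ)) (abs (x.2 : ℝ)) - max (abs (y.1 : ℝ)) (abs (y.2 : ℝ))) ≤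
        ((dist1 x y : ℤ) : ℝ) := by
      have h2 := abs_max_sub_max_le_max (abs (x.1 : ℝ)) (abs (x.2 : ℝ)) (abs (y.1 : ℝ))
        (abs (y.2 : ℝ))
      have h3 : abs (abs (x.1 : ℝ) - abs (y.1 : ℝ)) ≤ abs ((x.1 : ℝ) - y.1) :=
        abs_abs_sub_abs_le _ _
      have h4 : abs (abs (x.2 : ℝ) - abs (y.2 : ℝ)) ≤ abs ((x.2 : ℝ) - y.2) :=
        abs_abs_sub_abs_le _ _
      have h5 : ((dist1 x y : ℤ) : ℝ) = abs ((x.1 : ℝ) - y.1) + abs ((x.2 : ℝ) - y.2) := by
        unfold dist1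
        push_cast
        rfl
      rw [h5]
      refine h2.trans (max_le ?_ ?_)
      · exact h3.trans (le_add_of_nonneg_right (abs_nonneg _))
      · exact h4.trans (le_add_of_nonneg_left (abs_nonneg _))
    have h2 : abs (tent T x - tent T y) ≤
        abs (((T : ℝ) - max (abs (x.1 : ℝ)) (abs (x.2 : ℝ))) / T -
        ((T : ℝ) - max (abs (y.1 : ℝ)) (abs (y.2 : ℝ))) / T) := by
      rw [hm, hm]
      have h3 := abs_max_sub_max_le_max (0 : ℝ)
        (((T : ℝ) - max (abs (x.1 : ℝ)) (abs (x.2 : ℝ))) / T) 0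
        (((T : ℝ) - max (abs (y.1 : ℝ)) (abs (y.2 : ℝ))) / T)
      exact h3.trans (max_le (by rw [sub_self, abs_zero]; exact abs_nonneg _) le_rfl)
    refine h2.trans ?_
    rw [← sub_div, abs_div, abs_of_pos hT0, div_mul_eq_mul_div, one_mul]
    refine div_le_div_of_nonneg_right ?_ hT0.le
    rw [abs_sub_comm] at h1
    refine le_trans (le_of_eq ?_) h1
    congr 1
    ring
  · rw [mem_Box] at hx
    simp only [sub_zero] at hx
    obtain ⟨hx1, hx2⟩ := hx
    have h0 : ((T / 2 : ℕ) : ℝ) ≤ (T : ℝ) / 2 := Nat.cast_div_le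
    have h1 : abs (x.1 : ℝ) ≤ (T : ℝ) / 2 := by
      refine le_trans ?_ h0
      rw [← hcast]
      have h9 := (Int.cast_le (R := ℝ)).2 hx1
      rw [Int.cast_natCast] at h9
      exact h9
    have h2 : abs (x.2 : ℝ) ≤ (T : ℝ) / 2 := by
      refine le_trans ?_ h0
      rw [← hcast]
      have h9 := (Int.cast_le (R := ℝ)).2 hx2
      rw [Int.cast_natCast] at h9
      exact h9
    rw [hm]
    refine le_max_of_le_right ?_
    rw [le_div_iff₀ hT0]
    have h3 := max_le h1 h2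
    linarith

end AL
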