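import Pool.Agent.Helper74.AL.F2

/-!
ALPHA piece L1: positive frames.
-/

open Finset RP4 KP

namespace AL

private lemma avg_add_h53 (S : Finset (V → ℤ)) (F G : (V → ℤ) → ℝ) :
    avg S (fun h => F h + G h) = avg S F + avg S G := by
  unfold avg
  rw [Finset.sum_add_distrib, add_div]

private lemma avg_nonneg_h53 (S : Finset (V → ℤ)) (F : (V → ℤ) → ℝ) (h : ∀ g, 0 ≤ F g) : 0 ≤ avg S F := by
  unfold avg
  exact div_nonneg (Finset.sum_nonneg fun g _ => h g) (Nat.cast_nonneg _)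

private lemma pos_comp_h53 {D : Finset V} {p : ℤ} {h : V → ℤ} (hh : IsHom D p h) {q : V} (hq : 0 < h q) :
    DV.comp (DV.nz h) q ⊆ {v | 0 < h v} := by
  intro v hv
  refine DV.Jn.prop (P := fun v => 0 < h v) hv hq ?_
  intro a b hab ha hb hpa
  have h1 : a ∈ D := by
    by_contra h1
    exact ha (hh.off a h1)
  have h2 : b ∈ D := by
    by_contra h2
    exact hb (hh.off b h2)
  have h3 := hh.step a h1 b h2 hab
  have h4 : h b ≠ 0 := hb
  have h5 := abs_le.1 h3.le
  omega

private lemma nz_neg_h53 (h : V → ℤ) : DV.nz (-h) = DV.nz h := by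
  ext v
  unfold DV.nz
  simp

private lemma frame_sign_h53 {D : Finset V} {p : ℤ} {h : V → ℤ} (hh : IsHom D p h) {x : V} {n m : ℤ}
    (hn : 0 ≤ n) (hnm : n ≤ m) (hF : DV.Frm Adj (DV.nz h) x n m) :
    DV.Frm Adj {v | 0 < h v} x n m ∨ DV.Frm Adj {v | 0 < (-h) v} x n m := by
  obtain ⟨q, hq, hq'⟩ := DV.frame_one hn hnm hF
  have hq0 : h q ≠ 0 := hq
  rcases lt_or_gt_of_ne hq0 with h1 | h1
  · right
    refine DV.Frm.mono (fun _ _ h => h) ?_ hq'
    have h2 : 0 < (-h) q := by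
      rw [Pi.neg_apply]
      omega
    have h3 := pos_comp_h53 (h := -h) hh.neg h2
    rwa [nz_neg_h53] at h3
  · left
    exact DV.Frm.mono (fun _ _ h => h) (pos_comp_h53 hh h1) hq'

private lemma ind_or_h53 {P Q R : Prop} (h : P → Q ∨ R) : ind P ≤ ind Q + ind R := by
  by_cases hP : P
  · rcases h hP with hQ | hR
    · have h1 : ind P ≤ ind Q := ind_mono fun _ => hQ
      have h2 := ind_nonneg R
      linarith
    · have h1 : ind P ≤ ind R := ind_mono fun _ => hR
      have h2 := ind_nonneg Q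
      linarith
  · have h1 : ind P ≤ ind Q := ind_mono fun h2 => absurd h2 hP
    have h2 := ind_nonneg R
    linarith

/-- SIGN.  `DV.frame_one` (file Fr): a frame of nonzero sites lies in one component `DV.comp (DV.nz h) q`, `q ∈ nz h`.  For `h ∈ Zs D p Z` the sign is constant on the component: adjacent sites with nonzero heights are in `D` (`IsHom.off`) and their heights differ
by one, so they have the same sign (`DV.Jn.prop`).  So `Frm (nz h)` implies `Frm {0 < h}` or `Frm {h < 0}`, and the two have the same probability by `g ↦ -g` (`neg_mem_Zs` or directly). -/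
theorem pos_frame {D : Finset V} {p : ℤ} {Z : Finset V} (hb : bdry D ⊆ Z) {x : V} {n m : ℤ} (hn : 0 ≤ n) (hnm : n ≤ m) :
    avg (Zs D p Z) (fun h => ind (DV.Frm Adj (DV.nz h) x n m)) ≤
      2 * avg (Zs D p Z) (fun h => ind (DV.Frm Adj {v | 0 < h v} x n m)) := by
  have h1 : avg (Zs D p Z) (fun h => ind (DV.Frm Adj (DV.nz h) x n m)) ≤
      avg (Zs D p Z) (fun h => ind (DV.Frm Adj {v | 0 < h v} x n m) + ind (DV.Frm Adj {v | 0 < (-h) v} x n m)) := by
    refine avg_mono fun h hh => ind_or_h53 fun hF => ?_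
    exact frame_sign_h53 ((mem_Zs hb).1 hh).1 hn hnm hF
  rw [avg_add_h53, avg_neg_Zs hb (fun h => ind (DV.Frm Adj {v | 0 < h v} x n m))] at h1
  linarith

/-- the same for the negative sites (symmetry `g ↦ -g`) -/
theorem neg_frame {D : Finset V} {p : ℤ} {Z : Finset V} (hb : bdry D ⊆ Z) {x : V} {n m : ℤ} (hn : 0 ≤ n) (hnm : n ≤ m) :
    avg (Zs D p Z) (fun h => ind (DV.Frm Adj (DV.nz h) x n m)) ≤
      2 * avg (Zs D p Z) (fun h => ind (DV.Frm Adj {v | h v < 0} x n m)) := by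
  have h1 := pos_frame (p := p) hb (x := x) hn hnm
  rw [← avg_neg_Zs hb (fun h => ind (DV.Frm Adj {v | 0 < h v} x n m))] at h1
  have h2 : (fun h : V → ℤ => ind (DV.Frm Adj {v | 0 < (-h) v} x n m)) =
      fun h => ind (DV.Frm Adj {v | h v < 0} x n m) := by
    funext h
    have h3 : {v : V | 0 < (-h) v} = {v | h v < 0} := by
      ext v
      simp
    rw [h3]
  rw [h2] at h1
  exact h1

/-- `pos_frame` twice and `hpa_ev` -/
theorem two_pos {D : Finset V} {p : ℤ} {Z : Finset V} (hb : bdry D ⊆ Z) {x : V} {n m n' m' : ℤ} (hn : 0 ≤ n) (hnm : n ≤ m)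
    (hn' : 0 ≤ n') (hnm' : n' ≤ m') :
    avg (Zs D p Z) (fun h => ind (DV.Frm Adj (DV.nz h) x n m)) * avg (Zs D p Z) (fun h => ind (DV.Frm Adj (DV.nz h) x n' m')) ≤
      4 * avg (Zs D p Z) (fun h => ind (DV.Frm Adj {v | 0 < h v} x n m ∧ DV.Frm Adj {v | 0 < h v} x n' m')) := by
  have h1 := pos_frame (p := p) hb (x := x) hn hnm
  have h2 := pos_frame (p := p) hb (x := x) hn' hnm'
  have h3 := hpa_ev (p := p) hb (E := fun h => DV.Frm Adj {v | 0 < h v} x n m)
    (E' := fun h => DV.Frm Adj {v | 0 < h v} x n' m')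
    (fun g g' hg h => DV.Frm.mono (fun _ _ h => h) (fun v (hv : 0 < g v) => lt_of_lt_of_le hv (hg v)) h)
    (fun g g' hg h => DV.Frm.mono (fun _ _ h => h) (fun v (hv : 0 < g v) => lt_of_lt_of_le hv (hg v)) h)
  have h4 := avg_nonneg_h53 (Zs D p Z) (fun h => ind (DV.Frm Adj {v | 0 < h v} x n m)) fun _ => ind_nonneg _
  have h5 := avg_nonneg_h53 (Zs D p Z) (fun h => ind (DV.Frm Adj (DV.nz h) x n' m')) fun _ => ind_nonneg _
  have h6 := mul_le_mul h1 h2 h5 (by positivity)
  linarith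

end AL
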