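import Pool.Agent.Helper74.AL.Defs
import Pool.Agent.Helper97.DV.Zl

/-!
ALPHA piece L2: the domain Markov property for the exploration of the sites of height at most zero.
-/

open Finset RP4 KP

namespace AL

/-- the nearest neighbour cluster of the zeros in the sites of height at most zero -/
noncomputable def NF (D : Finset V) (h : V → ℤ) (Z : Finset V) : Finset V := by
  classical exact D.filter (fun v => v ∈ DV.Nc (D : Set V) h (Z : Set V))

lemma coe_NF {D : Finset V} {h : V → ℤ} {Z : Finset V} : ((NF D h Z : Finset V) : Set V) = DV.Nc (D : Set V) h (Z : Set V) := by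
  classical
  ext v
  unfold NF
  rw [Finset.mem_coe, Finset.mem_filter]
  exact ⟨fun hv => hv.2, fun hv => ⟨DV.Nc_sub hv, hv⟩⟩

/-- the function one level down, off `N` -/
private noncomputable def dn_h15 (D N : Finset V) (h : V → ℤ) : V → ℤ := by
  classical exact fun v => if v ∈ D \ N then h v - 1 else 0

/-- glue the values of `h0` on `N` with the function `k` one level up -/
private noncomputable def up_h15 (D N : Finset V) (h0 k : V → ℤ) : V → ℤ := by
  classical exact fun v => if v ∈ N then h0 v else if v ∈ D then k v + 1 else 0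

private lemma Z_sub_NF_h15 {D : Finset V} {p : ℤ} {Z : Finset V} (hb : bdry D ⊆ Z) (hZD : Z ⊆ D) {h : V → ℤ}
    (hh : h ∈ Zs D p Z) : Z ⊆ NF D h Z := by
  intro z hz
  have h1 : z ∈ DV.Nc (D : Set V) h (Z : Set V) := by
    refine DV.sub_clus (Finset.mem_coe.2 hz) ⟨Finset.mem_coe.2 (hZD hz), ?_⟩
    have h2 := ((mem_Zs hb).1 hh).2 z hz
    show h z ≤ 0
    rw [h2]
  rw [← Finset.mem_coe, coe_NF]
  exact h1

private lemma NF_sub_h15 {D : Finset V} {h : V → ℤ} {Z : Finset V} : NF D h Z ⊆ D := by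
  intro v hv
  rw [← Finset.mem_coe, coe_NF] at hv
  exact Finset.mem_coe.1 (DV.Nc_sub hv)

private lemma unit1_h15 {D : Finset V} {p : ℤ} {h : V → ℤ} (hh : IsHom D p h) : DV.Unit1 (D : Set V) h :=
  fun u hu v hv huv => hh.step u (Finset.mem_coe.1 hu) v (Finset.mem_coe.1 hv) huv

/-- a boundary point of `D \ N` is an outer neighbour of `N` in `D` -/
private lemma bdry_nbr_h15 {D N Z : Finset V} (hb : bdry D ⊆ Z) (hZN : Z ⊆ N) {v : V} (hv : v ∈ bdry (D \ N)) :
    v ∈ D ∧ v ∉ N ∧ ∃ u ∈ N, u ∈ D ∧ Adj u v := by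
  obtain ⟨h1, u, h2, h3⟩ := mem_bdry.1 hv
  obtain ⟨h4, h5⟩ := Finset.mem_sdiff.1 h1
  have h6 : u ∈ D := by
    by_contra h6
    exact h5 (hZN (hb (mem_bdry.2 ⟨h4, u, h2, h6⟩)))
  have h7 : u ∈ N := by
    by_contra h7
    exact h3 (Finset.mem_sdiff.2 ⟨h6, h7⟩)
  exact ⟨h4, h5, u, h7, h6, h2⟩

private lemma one_h15 {D : Finset V} {p : ℤ} {Z : Finset V} {h : V → ℤ} (hh : IsHom D p h) {v u : V}
    (hu : u ∈ NF D h Z) (huv : Adj u v) (hv : v ∈ D) (hv' : v ∉ NF D h Z) : h v = 1 ∧ h u = 0 := by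
  have h1 : u ∈ DV.Nc (D : Set V) h (Z : Set V) := by
    rw [← coe_NF]
    exact Finset.mem_coe.2 hu
  have h2 : v ∉ DV.Nc (D : Set V) h (Z : Set V) := by
    rw [← coe_NF]
    exact fun h3 => hv' (Finset.mem_coe.1 h3)
  exact DV.nbr_Nc (unit1_h15 hh) h1 huv (Finset.mem_coe.2 hv) h2

private lemma dn_mem_h15 {D : Finset V} {p : ℤ} {Z : Finset V} (hb : bdry D ⊆ Z) (hZD : Z ⊆ D) {h : V → ℤ}
    (hh : h ∈ Zs D p Z) : dn_h15 D (NF D h Z) h ∈ Zs (D \ NF D h Z) (p + 1) (bdry (D \ NF D h Z)) := by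
  classical
  have hZN := Z_sub_NF_h15 hb hZD hh
  obtain ⟨hh1, hh2⟩ := (mem_Zs hb).1 hh
  rw [mem_Zs (Finset.Subset.refl _)]
  refine ⟨⟨fun v hv => ?_, fun v hv => ?_, fun u hu v hv huv => ?_⟩, fun v hv => ?_⟩
  · simp only [dn_h15, if_neg hv]
  · simp only [dn_h15, if_pos hv]
    have h1 := hh1.par v (Finset.mem_sdiff.1 hv).1
    have h2 : h v - 1 - RP4.par v - (p + 1) = (h v - RP4.par v - p) - 2 := by ring
    rw [h2]
    exact h1.sub (by decide)
  · simp only [dn_h15, if_pos hu, if_pos hv]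
    have h1 := hh1.step u (Finset.mem_sdiff.1 hu).1 v (Finset.mem_sdiff.1 hv).1 huv
    have h2 : h u - 1 - (h v - 1) = h u - h v := by ring
    rw [h2]
    exact h1
  · obtain ⟨h1, h2, u, h3, h4, h5⟩ := bdry_nbr_h15 hb hZN hv
    have h6 := (one_h15 hh1 h3 h5 h1 h2).1
    simp only [dn_h15, if_pos (Finset.mem_sdiff.2 ⟨h1, h2⟩)]
    omega

private lemma up_mem_h15 {D : Finset V} {p : ℤ} {Z : Finset V} (hb : bdry D ⊆ Z) (hZD : Z ⊆ D) {h k : V → ℤ}
    (hh : h ∈ Zs D p Z) (hk : k ∈ Zs (D \ NF D h Z) (p + 1) (bdry (D \ NF D h Z))) :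
    up_h15 D (NF D h Z) h k ∈ Zs D p Z := by
  classical
  have hZN := Z_sub_NF_h15 hb hZD hh
  obtain ⟨hh1, hh2⟩ := (mem_Zs hb).1 hh
  obtain ⟨hk1, hk2⟩ := (mem_Zs (Finset.Subset.refl _)).1 hk
  -- mixed edges
  have mix : ∀ u v : V, u ∈ NF D h Z → Adj u v → v ∈ D → v ∉ NF D h Z → h u = 0 ∧ k v = 0 := by
    intro u v hu huv hv hv'
    refine ⟨(one_h15 hh1 hu huv hv hv').2, hk2 v (mem_bdry.2 ⟨Finset.mem_sdiff.2 ⟨hv, hv'⟩, u, huv, ?_⟩)⟩
    exact fun h1 => (Finset.mem_sdiff.1 h1).2 hu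
  rw [mem_Zs hb]
  refine ⟨⟨fun v hv => ?_, fun v hv => ?_, fun u hu v hv huv => ?_⟩, fun v hv => ?_⟩
  · have h1 : v ∉ NF D h Z := fun h1 => hv (NF_sub_h15 h1)
    simp only [up_h15, if_neg h1, if_neg hv]
  · by_cases hN : v ∈ NF D h Z
    · simp only [up_h15, if_pos hN]
      exact hh1.par v hv
    · simp only [up_h15, if_neg hN, if_pos hv]
      have h1 := hk1.par v (Finset.mem_sdiff.2 ⟨hv, hN⟩)
      have h2 : k v + 1 - RP4.par v - p = (k v - RP4.par v - (p + 1)) + 2 := by ring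
      rw [h2]
      exact h1.add (by decide)
  · by_cases hNu : u ∈ NF D h Z
    · by_cases hNv : v ∈ NF D h Z
      · simp only [up_h15, if_pos hNu, if_pos hNv]
        exact hh1.step u hu v hv huv
      · obtain ⟨h1, h2⟩ := mix u v hNu huv hv hNv
        simp only [up_h15, if_pos hNu, if_neg hNv, if_pos hv, h1, h2]
        norm_num
    · by_cases hNv : v ∈ NF D h Z
      · obtain ⟨h1, h2⟩ := mix v u hNv (DV.adj_symm huv) hu hNu
        simp only [up_h15, if_pos hNv, if_neg hNu, if_pos hu, h1, h2]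
        norm_num
      · simp only [up_h15, if_neg hNu, if_neg hNv, if_pos hu, if_pos hv]
        have h1 := hk1.step u (Finset.mem_sdiff.2 ⟨hu, hNu⟩) v (Finset.mem_sdiff.2 ⟨hv, hNv⟩) huv
        have h2 : k u + 1 - (k v + 1) = k u - k v := by ring
        rw [h2]
        exact h1
  · simp only [up_h15, if_pos (hZN hv)]
    exact hh2 v hv

private lemma up_NF_h15 {D : Finset V} {p : ℤ} {Z : Finset V} (hb : bdry D ⊆ Z) (hZD : Z ⊆ D) {h k : V → ℤ}
    (hh : h ∈ Zs D p Z) (hk : k ∈ Zs (D \ NF D h Z) (p + 1) (bdry (D \ NF D h Z))) :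
    NF D (up_h15 D (NF D h Z) h k) Z = NF D h Z := by
  classical
  have hZN := Z_sub_NF_h15 hb hZD hh
  obtain ⟨hh1, hh2⟩ := (mem_Zs hb).1 hh
  obtain ⟨hk1, hk2⟩ := (mem_Zs (Finset.Subset.refl _)).1 hk
  have hN : ∀ v, v ∈ NF D h Z ↔ v ∈ DV.Nc (D : Set V) h (Z : Set V) := by
    intro v
    rw [← coe_NF, Finset.mem_coe]
  have key : DV.Nc (D : Set V) (up_h15 D (NF D h Z) h k) (Z : Set V) = DV.Nc (D : Set V) h (Z : Set V) := by
    refine DV.Nc_congr (fun v hv => ?_) (fun v hv => ?_)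
    · simp only [up_h15, if_pos (hZN (Finset.mem_coe.1 hv))]
    · rcases hv with hv | ⟨h1, h2, u, h3, h4⟩
      · simp only [up_h15, if_pos ((hN v).2 hv)]
      · have h1' : v ∈ D := Finset.mem_coe.1 h1
        have h2' : v ∉ NF D h Z := fun h5 => h2 ((hN v).1 h5)
        have h3' : u ∈ NF D h Z := (hN u).2 h3
        have h6 := (one_h15 hh1 h3' h4 h1' h2').1
        have h7 : k v = 0 := hk2 v (mem_bdry.2 ⟨Finset.mem_sdiff.2 ⟨h1', h2'⟩, u, h4,
          fun h8 => (Finset.mem_sdiff.1 h8).2 h3'⟩)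
        simp only [up_h15, if_neg h2', if_pos h1', h6, h7]
        norm_num
  apply Finset.coe_injective
  rw [coe_NF, coe_NF, key]

/-- the class of `h0`: the sum over the class is the sum over the functions one level up -/
private lemma class_h15 {D : Finset V} {p : ℤ} {Z : Finset V} (hb : bdry D ⊆ Z) (hZD : Z ⊆ D) {h0 : V → ℤ}
    (hh0 : h0 ∈ Zs D p Z) (H : (V → ℤ) → ℝ) (S : Finset (V → ℤ))
    (hS : ∀ h, h ∈ S ↔ h ∈ Zs D p Z ∧ NF D h Z = NF D h0 Z ∧ ∀ v ∈ NF D h0 Z, h v = h0 v) :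
    ∑ h ∈ S, H (dn_h15 D (NF D h0 Z) h) =
      ∑ k ∈ Zs (D \ NF D h0 Z) (p + 1) (bdry (D \ NF D h0 Z)), H k := by
  classical
  refine Finset.sum_nbij' (fun h => dn_h15 D (NF D h0 Z) h) (fun k => up_h15 D (NF D h0 Z) h0 k) ?_ ?_ ?_ ?_
    (fun h _ => rfl)
  · intro h hh
    obtain ⟨h1, h2, h3⟩ := (hS h).1 hh
    have h4 := dn_mem_h15 hb hZD h1
    rw [h2] at h4
    exact h4
  · intro k hk
    refine (hS _).2 ⟨up_mem_h15 hb hZD hh0 hk, up_NF_h15 hb hZD hh0 hk, fun v hv => ?_⟩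
    simp only [up_h15, if_pos hv]
  · intro h hh
    obtain ⟨h1, h2, h3⟩ := (hS h).1 hh
    obtain ⟨h4, h5⟩ := (mem_Zs hb).1 h1
    funext v
    by_cases hv : v ∈ NF D h0 Z
    · simp only [up_h15, if_pos hv]
      exact (h3 v hv).symm
    · by_cases hvD : v ∈ D
      · simp only [up_h15, dn_h15, if_neg hv, if_pos hvD, if_pos (Finset.mem_sdiff.2 ⟨hvD, hv⟩)]
        ring
      · simp only [up_h15, if_neg hv, if_neg hvD]
        exact (h4.off v hvD).symm
  · intro k hk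
    obtain ⟨h4, h5⟩ := (mem_Zs (Finset.Subset.refl _)).1 hk
    funext v
    by_cases hv : v ∈ D \ NF D h0 Z
    · have hv' := Finset.mem_sdiff.1 hv
      simp only [up_h15, dn_h15, if_pos hv, if_neg hv'.2, if_pos hv'.1]
      ring
    · simp only [dn_h15, if_neg hv]
      exact (h4.off v hv).symm

/-- MARKOV PROPERTY.  For `h ∈ Zs D p Z` let `N = NF D h Z`: `Z ⊆ N ⊆ D` (`h = 0` on `Z`), `h ≤ 0` on `N`, and `h = 1` on `bdry (D \ N)`: a point of `bdry (D \ N)` is not in `bdry D ⊆ Z ⊆ N`, so all its neighbours are in `D` and one of them is in `N`: `DV.nbr_eq_one`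
(file Zl, Helper97).  Fix `N` and values `u` on `N` that occur.  The functions `h ∈ Zs D p Z` with `NF D h Z = N`, `h = u` on `N` are in bijection with `k ∈ Zs (D \ N) (p + 1) (bdry (D \ N))` by
`k = h - 1` on `D \ N`, `0` off `D \ N`, `h = k + 1` on `D \ N`, `h = u` on `N`, `0` off `D`: the steps inside `N` and inside `D \ N` are fine, an edge between `v ∈ D \ N` and `w ∈ N`: `v ∈ bdry (D \ N)`, `h v = 1`, and
`u w = 0` (`DV.nbr_Nc`); `NF D h Z = N` again by `DV.Nc_congr` (`h` agrees with a given member on `N` and on its outer neighbours in `D`, where it is `1`).  Parity: `h v - par v - p` even, so `k v - par v - (p + 1)` is even.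
So for each class (sum over `N` with `P N` and `u`): `∑_{h in the class} F h ≥ ∑_{k} G N k ≥ c * (size of the class)` (`hGF`, `hG`).  Sum over the classes, and `F ≥ 0` on the rest; divide by `#(Zs D p Z)`. -/
theorem markov {D : Finset V} {p : ℤ} {Z : Finset V} (hb : bdry D ⊆ Z) (hZD : Z ⊆ D) (P : Finset V → Prop)
    (G : Finset V → (V → ℤ) → ℝ) (F : (V → ℤ) → ℝ) (hF0 : ∀ g, 0 ≤ F g) (c : ℝ)
    (hG : ∀ N : Finset V, P N → Z ⊆ N → N ⊆ D → c ≤ avg (Zs (D \ N) (p + 1) (bdry (D \ N))) (G N))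
    (hGF : ∀ h ∈ Zs D p Z, P (NF D h Z) → G (NF D h Z) (fun v => if v ∈ D \ NF D h Z then h v - 1 else 0) ≤ F h) :
    c * avg (Zs D p Z) (fun h => ind (P (NF D h Z))) ≤ avg (Zs D p Z) F := by
  classical
  have hdn : ∀ (N : Finset V) (h : V → ℤ), dn_h15 D N h = fun v => if v ∈ D \ N then h v - 1 else 0 := by
    intro N h
    funext v
    simp only [dn_h15]
  unfold avg
  rw [← mul_div_assoc]
  refine div_le_div_of_nonneg_right ?_ (Nat.cast_nonneg _)
  rw [Finset.mul_sum]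
  -- the members with the property
  let SP : Finset (V → ℤ) := (Zs D p Z).filter (fun h => P (NF D h Z))
  have e1 : ∑ h ∈ Zs D p Z, c * ind (P (NF D h Z)) = ∑ h ∈ SP, c := by
    rw [Finset.sum_filter]
    refine Finset.sum_congr rfl fun h _ => ?_
    unfold ind
    split_ifs <;> simp
  have e2 : ∑ h ∈ SP, F h ≤ ∑ h ∈ Zs D p Z, F h :=
    Finset.sum_le_sum_of_subset_of_nonneg (Finset.filter_subset _ _) (fun h _ _ => hF0 h)
  have e3 : ∑ h ∈ SP, G (NF D h Z) (dn_h15 D (NF D h Z) h) ≤ ∑ h ∈ SP, F h := by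
    refine Finset.sum_le_sum fun h hh => ?_
    obtain ⟨h1, h2⟩ := Finset.mem_filter.1 hh
    have h3 := hGF h h1 h2
    rw [hdn]
    convert h3 using 2
  have e4 : 0 ≤ ∑ h ∈ SP, (G (NF D h Z) (dn_h15 D (NF D h Z) h) - c) := by
    let Φ : (V → ℤ) → Finset V × (V → ℤ) := fun h => (NF D h Z, fun v => if v ∈ NF D h Z then h v else 0)
    rw [← Finset.sum_fiberwise_of_maps_to (g := Φ) (t := SP.image Φ)
      (fun h hh => Finset.mem_image_of_mem Φ hh)]
    refine Finset.sum_nonneg fun b hbm => ?_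
    obtain ⟨h0, hh0, rfl⟩ := Finset.mem_image.1 hbm
    obtain ⟨hz0, hP0⟩ := Finset.mem_filter.1 hh0
    have hS : ∀ h, h ∈ SP.filter (fun h => Φ h = Φ h0) ↔
        h ∈ Zs D p Z ∧ NF D h Z = NF D h0 Z ∧ ∀ v ∈ NF D h0 Z, h v = h0 v := by
      intro h
      rw [Finset.mem_filter]
      constructor
      · rintro ⟨h1, h2⟩
        have h3 : NF D h Z = NF D h0 Z := congrArg Prod.fst h2
        refine ⟨(Finset.mem_filter.1 h1).1, h3, fun v hv => ?_⟩
        have h4 : (if v ∈ NF D h Z then h v else 0) = (if v ∈ NF D h0 Z then h0 v else 0) :=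
          congrFun (congrArg Prod.snd h2) v
        rw [h3, if_pos hv, if_pos hv] at h4
        exact h4
      · rintro ⟨h1, h2, h3⟩
        refine ⟨Finset.mem_filter.2 ⟨h1, by rw [h2]; exact hP0⟩, ?_⟩
        refine Prod.ext h2 ?_
        funext v
        show (if v ∈ NF D h Z then h v else 0) = (if v ∈ NF D h0 Z then h0 v else 0)
        rw [h2]
        split_ifs with hv
        · exact h3 v hv
        · rfl
    have h5 : ∑ h ∈ SP.filter (fun h => Φ h = Φ h0), (G (NF D h Z) (dn_h15 D (NF D h Z) h) - c) =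
        ∑ h ∈ SP.filter (fun h => Φ h = Φ h0),
          (fun k => G (NF D h0 Z) k - c) (dn_h15 D (NF D h0 Z) h) := by
      refine Finset.sum_congr rfl fun h hh => ?_
      rw [((hS h).1 hh).2.1]
    rw [h5, class_h15 hb hZD hz0 (fun k => G (NF D h0 Z) k - c) _ hS, Finset.sum_sub_distrib,
      Finset.sum_const, nsmul_eq_mul]
    have h6 := hG (NF D h0 Z) hP0 (Z_sub_NF_h15 hb hZD hz0) NF_sub_h15
    unfold avg at h6
    have h7 : (0 : ℝ) < ((Zs (D \ NF D h0 Z) (p + 1) (bdry (D \ NF D h0 Z))).card : ℝ) := by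
      have h8 : (Zs (D \ NF D h0 Z) (p + 1) (bdry (D \ NF D h0 Z))).Nonempty :=
        ⟨_, dn_mem_h15 hb hZD hz0⟩
      exact_mod_cast h8.card_pos
    rw [le_div_iff₀ h7] at h6
    linarith
  rw [Finset.sum_sub_distrib] at e4
  rw [e1]
  linarith

end AL
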