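import Pool.Agent.Helper74.AL.L3a
import Pool.Agent.Helper74.AL.L1
import Pool.Agent.Helper74.AL.F4

/-!
ALPHA piece L3: frames of height at least two.
-/

open Finset RP4 KP

namespace AL

/-- LOOP.  Let `c, L, n₀` be the constants of `frame`.  Scales `n`, `L n`, `L^2 n`: `Env D p Z x (4 n - 1) (L^3 n)` contains the environments for `frame` at the scales `n` and `m = L^2 n`; `two_pos`: both frames are positive with probability `≥ c^2 / 4`.  `markov` with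
`P N := Env (D \ N) (p + 1) (bdry (D \ N)) x (8 n + 1) (4 m - 1)`, `G N k := ind (Frm Adj {v | 0 < k v} x (4 L n) (8 L n))`, `F h := ind (Frm Adj {v | 2 ≤ h v} x (4 L n) (8 L n))`: for `N` with `P N` the environment at the scale `L n` is contained
(`8 n + 1 ≤ 4 L n - 1`, `L (L n) ≤ 4 L^2 n - 1`; `Env.mono`), so by `frame` (parity `p + 1`) and `pos_frame` the probability is `≥ c / 2`; where `k v = h v - 1 > 0` we have `h v ≥ 2` (`DV.Frm.mono`).  Result `c^3 / 8`; rename the constants. -/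
theorem loop {C : ℝ} (hC : 0 ≤ C) (hrow : RowAll C) : ∃ c : ℝ, 0 < c ∧ ∃ M L n₀ : ℕ, 9 ≤ M ∧ 2 * M ≤ L ∧ 1 ≤ n₀ ∧ ∀ n : ℕ, n₀ ≤ n →
    ∀ (D : Finset V) (p : ℤ) (Z : Finset V) (x : V), Env D p Z x (4 * n - 1) (L * n) →
      c ≤ avg (Zs D p Z) (fun h => ind (DV.Frm Adj {v | 2 ≤ h v} x (M * n) (2 * M * n))) := by
  obtain ⟨c, hc, L, n₀, hL, hn₀, hfr⟩ := frame hC hrow
  refine ⟨c ^ 3 / 8, by positivity, 4 * L, L ^ 3, n₀, by omega, ?_, hn₀, ?_⟩
  · nlinarith [Nat.mul_le_mul hL hL]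
  intro n hn D p Z x hE
  have hn1 : (1 : ℤ) ≤ n := by
    have : 1 ≤ n := hn₀.trans hn
    exact_mod_cast this
  have hLz : (9 : ℤ) ≤ (L : ℤ) := by exact_mod_cast hL
  have hLL : (81 : ℤ) ≤ (L : ℤ) * L := by nlinarith
  have hLn : (9 : ℤ) * n ≤ (L : ℤ) * n := by nlinarith
  have hLLn : (81 : ℤ) * n ≤ (L : ℤ) * L * n := by nlinarith
  have hm : n₀ ≤ L ^ 2 * n := by
    have h1 : 1 ≤ L ^ 2 := Nat.one_le_pow _ _ (by omega)
    nlinarith
  have hln : n₀ ≤ L * n := by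
    have h1 : 1 ≤ L := by omega
    nlinarith
  have hcast : (((L ^ 2 * n : ℕ)) : ℤ) = (L : ℤ) * L * n := by
    push_cast
    ring
  have hcast' : (((L * n : ℕ)) : ℤ) = (L : ℤ) * n := by push_cast; ring
  have hcast3 : (((L ^ 3 : ℕ)) : ℤ) * n = (L : ℤ) * ((L : ℤ) * L * n) := by
    push_cast
    ring
  rw [hcast3] at hE
  have hpos : (0 : ℤ) ≤ (L : ℤ) * L * n := by positivity
  -- the frame at the scale `n`
  have hE1 : Env D p Z x (4 * (n : ℤ) - 1) ((L : ℤ) * n) := by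
    refine hE.mono le_rfl ?_
    have : (n : ℤ) ≤ (L : ℤ) * L * n := by linarith
    exact mul_le_mul_of_nonneg_left this (by linarith)
  have f1 := hfr n hn D p Z x hE1
  -- the frame at the scale `L ^ 2 * n`
  have hE2 : Env D p Z x (4 * ((L ^ 2 * n : ℕ) : ℤ) - 1) ((L : ℤ) * ((L ^ 2 * n : ℕ) : ℤ)) := by
    rw [hcast]
    exact hE.mono (by linarith) le_rfl
  have f2 := hfr (L ^ 2 * n) hm D p Z x hE2
  have hbd := hE.bd
  have f3 := two_pos (p := p) hbd (x := x) (n := 4 * (n : ℤ)) (m := 8 * (n : ℤ))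
    (n' := 4 * ((L ^ 2 * n : ℕ) : ℤ)) (m' := 8 * ((L ^ 2 * n : ℕ) : ℤ)) (by linarith) (by linarith)
    (by rw [hcast]; linarith) (by rw [hcast]; linarith)
  have f4 : c * c ≤ avg (Zs D p Z) (fun h => ind (DV.Frm Adj (DV.nz h) x (4 * (n : ℤ)) (8 * (n : ℤ)))) *
      avg (Zs D p Z) (fun h => ind (DV.Frm Adj (DV.nz h) x (4 * ((L ^ 2 * n : ℕ) : ℤ)) (8 * ((L ^ 2 * n : ℕ) : ℤ)))) :=
    mul_le_mul f1 f2 hc.le (hc.le.trans f1)
  -- the environment at the scale in the middle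
  have f5 : avg (Zs D p Z) (fun h => ind (DV.Frm Adj {v | 0 < h v} x (4 * (n : ℤ)) (8 * (n : ℤ)) ∧
      DV.Frm Adj {v | 0 < h v} x (4 * ((L ^ 2 * n : ℕ) : ℤ)) (8 * ((L ^ 2 * n : ℕ) : ℤ)))) ≤
      avg (Zs D p Z) (fun h => ind (Env (D \ NF D h Z) (p + 1) (bdry (D \ NF D h Z)) x (8 * (n : ℤ) + 1)
        (4 * ((L ^ 2 * n : ℕ) : ℤ) - 1))) := by
    refine avg_mono fun h hh => ind_mono fun hF => ?_
    refine env_of_frames (L := (L : ℤ)) (by omega) ?_ hLz ?_ hh hF.1 hF.2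
    · rw [hcast]
      linarith
    · rw [hcast]
      exact hE
  have f6 := markov (p := p) hbd hE.sub
    (fun N => Env (D \ N) (p + 1) (bdry (D \ N)) x (8 * (n : ℤ) + 1) (4 * ((L ^ 2 * n : ℕ) : ℤ) - 1))
    (fun _ k => ind (DV.Frm Adj {v | 0 < k v} x (((4 * L : ℕ) : ℤ) * n) (2 * ((4 * L : ℕ) : ℤ) * n)))
    (fun h => ind (DV.Frm Adj {v | 2 ≤ h v} x (((4 * L : ℕ) : ℤ) * n) (2 * ((4 * L : ℕ) : ℤ) * n)))
    (fun _ => ind_nonneg _) (c / 2) ?_ ?_
  · have f7 : c / 2 * (c * c / 4) ≤ c / 2 * avg (Zs D p Z) (fun h => ind (Env (D \ NF D h Z) (p + 1)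
        (bdry (D \ NF D h Z)) x (8 * (n : ℤ) + 1) (4 * ((L ^ 2 * n : ℕ) : ℤ) - 1))) := by
      refine mul_le_mul_of_nonneg_left ?_ (by positivity)
      linarith
    have f8 : c ^ 3 / 8 = c / 2 * (c * c / 4) := by ring
    rw [f8]
    exact f7.trans f6
  · intro N hN _ _
    have hN' : Env (D \ N) (p + 1) (bdry (D \ N)) x (4 * ((L * n : ℕ) : ℤ) - 1) ((L : ℤ) * ((L * n : ℕ) : ℤ)) := by
      refine Env.mono hN ?_ ?_
      · rw [hcast']
        linarith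
      · rw [hcast, hcast']
        have e1 : (L : ℤ) * ((L : ℤ) * n) = (L : ℤ) * L * n := by ring
        rw [e1]
        linarith
    have g1 := hfr (L * n) hln (D \ N) (p + 1) (bdry (D \ N)) x hN'
    have g2 := pos_frame (p := p + 1) (Finset.Subset.refl (bdry (D \ N))) (x := x) (n := 4 * ((L * n : ℕ) : ℤ))
      (m := 8 * ((L * n : ℕ) : ℤ)) (by positivity) (by rw [hcast']; linarith)
    have e1 : 4 * ((L * n : ℕ) : ℤ) = ((4 * L : ℕ) : ℤ) * n := by push_cast; ring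
    have e2 : 8 * ((L * n : ℕ) : ℤ) = 2 * ((4 * L : ℕ) : ℤ) * n := by push_cast; ring
    rw [e1, e2] at g1 g2
    linarith
  · intro h _ _
    refine ind_mono fun hF => DV.Frm.mono (fun _ _ h => h) ?_ hF
    intro v hv
    have hv' : 0 < (if v ∈ D \ NF D h Z then h v - 1 else 0) := hv
    show 2 ≤ h v
    split_ifs at hv' with h1
    · omega
    · omega

end AL
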