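import Pool.Agent.Helper74.AL.L2

/-!
ALPHA piece L3a: two positive frames leave an annulus free.
-/

open Finset RP4 KP

namespace AL

private lemma L3a_nf {D : Finset V} {h : V → ℤ} {Z : Finset V} {v : V} :
    v ∈ NF D h Z ↔ v ∈ DV.Nc (D : Set V) h (Z : Set V) := by
  rw [← coe_NF, Finset.mem_coe]

private lemma L3a_sq {x u v : V} {a : ℤ} (h : Adj u v) (hv : v ∈ DV.Sq x a) : u ∈ DV.Sq x (a + 1) := by
  have hk := DV.adj_kng h
  have h1 := abs_le.1 hk.1
  have h2 := abs_le.1 hk.2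
  have h3 := abs_le.1 hv.1
  have h4 := abs_le.1 hv.2
  exact ⟨abs_le.2 ⟨by omega, by omega⟩, abs_le.2 ⟨by omega, by omega⟩⟩

/-- DETERMINISTIC PART.  `h ∈ Zs D p Z`, `Env D p Z x (4 n - 1) (L m)`, positive frames between `Sq x (4 n)` and `Sq x (8 n)`, and between `Sq x (4 m)` and `Sq x (8 m)`, `8 n + 2 ≤ 4 m`, `8 m ≤ L m`.  Then `N = NF D h Z` satisfies `N ∩ Sq x (4 m) ⊆ Sq x (8 n)`: let `v ∈ N ∩ Sq x (4 m)`; it is joined to some `z ∈ Z` by an
nn path in `{h ≤ 0}`.  `z` is in `Sq x (4 n - 1)` or outside `Sq x (L m)`.  In the second case the path from `v ∈ Sq x (4 m)` leaves `Sq x (8 m)` and meets the second frame (`DV.block_king`, an nn path is a king path: `DV.Jn.mono`, `DV.adj_kng`), contradiction; in the first case, if `v ∉ Sq x (8 n)`, the path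
from `z` to `v` meets the first frame.  So the domain `D \ N` with the zeros `bdry (D \ N)` is an environment: a point `v ∈ Sq x (4 m - 1)`, `v ∉ Sq x (8 n + 1)` is in `D` (`Env.dom`), not in `N`; and it has no neighbour in `N` and all its neighbours are in `D`, so it is not in `bdry (D \ N)`. -/
theorem env_of_frames {D : Finset V} {p : ℤ} {Z : Finset V} {x : V} {n m : ℕ} {L : ℤ} (hn : 1 ≤ n) (hnm : 8 * (n : ℤ) + 2 ≤ 4 * m) (hL : 9 ≤ L)
    (hE : Env D p Z x (4 * n - 1) (L * m)) {h : V → ℤ} (hh : h ∈ Zs D p Z)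
    (h1 : DV.Frm Adj {v | 0 < h v} x (4 * n) (8 * n)) (h2 : DV.Frm Adj {v | 0 < h v} x (4 * m) (8 * m)) :
    Env (D \ NF D h Z) (p + 1) (bdry (D \ NF D h Z)) x (8 * n + 1) (4 * m - 1) := by
  have hm : (1 : ℤ) ≤ m := by omega
  have hLm : 9 * (m : ℤ) ≤ L * m := by nlinarith
  have hg := (mem_Zs hE.bd).1 hh
  have hst : DV.Unit1 (D : Set V) h := fun u hu v hv huv => hg.1.step u hu v hv huv
  have core : ∀ v ∈ NF D h Z, v ∈ DV.Sq x (4 * m) → v ∈ DV.Sq x (8 * n) := by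
    intro v hv hv4
    by_contra hv8
    obtain ⟨z, hz, hzv⟩ := L3a_nf.1 hv
    by_cases hzi : z ∈ DV.Sq x (4 * n - 1)
    · obtain ⟨w, hw, hw'⟩ := DV.block_king (by omega) h1
        (DV.Jn.mono (fun _ _ => DV.adj_kng) (Set.Subset.refl _) hzv)
        (DV.Sq_mono (by omega) hzi) hv8
      have e1 : h w ≤ 0 := hw.2
      have e2 : 0 < h w := hw'
      omega
    · have hzo : z ∉ DV.Sq x (8 * m) := by
        intro hz8
        exact hE.free z (DV.Sq_mono (by linarith) hz8) hzi (Finset.mem_coe.1 hz)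
      obtain ⟨w, hw, hw'⟩ := DV.block_king (by omega) h2
        (DV.Jn.mono (fun _ _ => DV.adj_kng) (Set.Subset.refl _) (DV.Con.symm' hzv)) hv4 hzo
      have e1 : h w ≤ 0 := hw.2
      have e2 : 0 < h w := hw'
      omega
  have nbrN : ∀ v ∈ bdry (D \ NF D h Z), ∃ u ∈ NF D h Z, Adj u v := by
    intro v hv
    obtain ⟨hvD, u, huv, hu⟩ := mem_bdry.1 hv
    rw [Finset.mem_sdiff] at hvD hu
    have hvb : v ∉ bdry D := by
      intro hb
      refine hvD.2 (L3a_nf.2 (DV.sub_clus (Finset.mem_coe.2 (hE.bd hb)) ⟨Finset.mem_coe.2 hvD.1, ?_⟩))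
      exact (hg.2 v (hE.bd hb)).le
    have huD : u ∈ D := by
      by_contra hu'
      exact hvb (mem_bdry.2 ⟨hvD.1, u, huv, hu'⟩)
    exact ⟨u, by_contra fun h' => hu ⟨huD, h'⟩, huv⟩
  refine ⟨Finset.Subset.refl _, fun v hv => (mem_bdry.1 hv).1, fun v hv => ?_, fun v hv hv' => ?_,
    fun v hv hv' hb => ?_⟩
  · obtain ⟨u, hu, huv⟩ := nbrN v hv
    have hvD := Finset.mem_sdiff.1 (mem_bdry.1 hv).1
    have e := (DV.nbr_Nc hst (L3a_nf.1 hu) huv (Finset.mem_coe.2 hvD.1)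
      (fun h' => hvD.2 (L3a_nf.2 h'))).1
    obtain ⟨k, hk⟩ := hg.1.par v hvD.1
    rw [e] at hk
    exact ⟨-p - k, by linarith⟩
  · have hD := hE.dom v (DV.Sq_mono (by linarith) hv) (fun h' => hv' (DV.Sq_mono (by omega) h'))
    rw [Finset.mem_sdiff]
    exact ⟨hD, fun hN => hv' (DV.Sq_mono (by omega) (core v hN (DV.Sq_mono (by omega) hv)))⟩
  · obtain ⟨u, hu, huv⟩ := nbrN v hb
    have hu4 : u ∈ DV.Sq x (4 * m) := DV.Sq_mono (by omega) (L3a_sq huv hv)
    exact hv' (L3a_sq (DV.adj_symm huv) (core u hu hu4))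

end AL
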