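import Pool.Agent.Helper74.AL.R1a
import Pool.Agent.Helper63.RP4.Fin

/-!
ALPHA piece R1: reflection positivity doubles the distance of two rows.
-/

open Finset RP4 KP

namespace AL

/-- the reflection as an equivalence -/
private def thE_h74 (c : ℤ) : V ≃ V := ⟨MD.th c, MD.th c, MD.th_th c, MD.th_th c⟩

private lemma rs_th_h74 (T : ℕ) (y c : ℤ) (h : V → ℤ) : rs T y (fun v => h (MD.th c v)) = rs T (2 * c - y) h := by
  unfold rs
  refine Finset.sum_bij (fun x _ => MD.th c x) ?_ ?_ ?_ ?_
  · intro x hx
    rw [mem_row] at hx ⊢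
    refine ⟨hx.1, ?_⟩
    unfold MD.th
    simp only []
    rw [hx.2]
  · intro x _ x' _ he
    have := congrArg (MD.th c) he
    simpa using this
  · intro x hx
    rw [mem_row] at hx
    refine ⟨MD.th c x, ?_, MD.th_th c x⟩
    rw [mem_row]
    refine ⟨hx.1, ?_⟩
    unfold MD.th
    simp only []
    rw [hx.2]
    ring
  · intro x _
    rfl

/-- DOUBLING.  `D' = dbl D c`; by `Cr_mono` (and `Cr ≥ 0`) it is enough to bound `(Cr D' T y c) ^ 2`.  `rp_gen` with `reflD_th c` and `F = rs T y + t rs T c`, `t` real (both depend only on the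
rows `≤ c`): `0 ≤ ∑_{h ∈ Om D'} (rs T y h + t rs T c h) (rs T y (h ∘ θ) + t rs T c (h ∘ θ))`.  Here `rs T c (h ∘ θ) = rs T c h`, `rs T y (h ∘ θ) = rs T (2 c - y) h` (`θ` maps the segment of the row `y` onto the one of the
row `2 c - y`).  Divide by `#(Om D')`: `0 ≤ Cr y (2c-y) + t (Cr y c + Cr c (2c-y)) + t^2 Cr c c`, and `Cr c (2 c - y) = Cr y c` by the symmetry of `Om D'` under `θ` (`avg_Om_img` with the
equivalence `v ↦ th c v`, `D'` is mapped to itself; or: apply `rp_gen`-type bilinear symmetry, i.e. the substitution `h ↦ h ∘ θ` in the sum).  The quadratic polynomial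
in `t` is nonnegative for all real `t`: discriminant (`discrim_le_zero`), or take `t = - Cr y c / Cr c c` (if `Cr c c = 0` then `Cr y c = 0` as the linear function is bounded below). -/
theorem rp_step {D : Finset V} (hD : BdryPar D 0) (T : ℕ) {y c : ℤ} (hyc : y ≤ c) :
    (Cr D T y c) ^ 2 ≤ Cr (dbl D c) T y (2 * c - y) * Cr (dbl D c) T c c := by
  set D' := dbl D c with hD'
  have hsub : D ⊆ D' := fun v hv => mem_dbl.2 (Or.inl hv)
  have hinv : ∀ v, v ∈ D' ↔ MD.th c v ∈ D' := by
    intro v
    rw [hD', mem_dbl, mem_dbl, MD.th_th]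
    tauto
  have hbp : BdryPar D' 0 := dbl_bdryPar hD c
  have h0 : 0 ≤ Cr D T y c := by
    rw [Cr_eq]
    exact Finset.sum_nonneg fun x _ => Finset.sum_nonneg fun w _ => MD.cv_nonneg D x w
  have h1 : Cr D T y c ≤ Cr D' T y c := Cr_mono hsub hD hbp T y c
  have h2 : (Cr D T y c) ^ 2 ≤ (Cr D' T y c) ^ 2 := pow_le_pow_left₀ h0 h1 2
  refine h2.trans ?_
  -- symmetry
  have hsym : Cr D' T c (2 * c - y) = Cr D' T y c := by
    have hl : LSym (thE_h74 c) := by
      constructor
      · intro u v
        exact (reflD_th c).adj u v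
      · intro u v
        have a := (reflD_th c).par u
        have b := (reflD_th c).par v
        have e : par (thE_h74 c u) - par (thE_h74 c v) - (par u - par v) =
            (par (MD.th c u) - par u) - (par (MD.th c v) - par v) := by
          show par (MD.th c u) - par (MD.th c v) - (par u - par v) = _
          ring
        rw [e]
        exact a.sub b
    have himg : img (thE_h74 c) D' = D' := by
      ext v
      rw [T1_mem_img]
      exact (hinv v).symm
    have := avg_Om_img hl (fun v => (reflD_th c).par v) D' (fun h => rs T y h * rs T c h)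
    rw [himg] at this
    unfold Cr
    rw [← this]
    congr 1
    funext g
    show rs T c g * rs T (2 * c - y) g = rs T y (fun v => g (MD.th c v)) * rs T c (fun v => g (MD.th c v))
    rw [rs_th_h74, rs_th_h74, show 2 * c - c = c by ring]
    ring
  -- positivity
  have hrow : ∀ (y' : ℤ), y' ≤ c → ∀ g g' : V → ℤ, (∀ v : V, v.2 ≤ c → g v = g' v) → rs T y' g = rs T y' g' := by
    intro y' hy' g g' he
    unfold rs
    refine Finset.sum_congr rfl fun x hx => ?_
    rw [he x (by rw [(mem_row.1 hx).2]; exact hy')]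
  have hpos : ∀ t : ℝ, 0 ≤ Cr D' T y (2 * c - y) + t * (2 * Cr D' T y c) + t ^ 2 * Cr D' T c c := by
    intro t
    have hp := rp_gen (reflD_th c) D' hinv (fun h => rs T y h + t * rs T c h) (by
      intro g g' he
      show rs T y g + t * rs T c g = rs T y g' + t * rs T c g'
      rw [hrow y hyc g g' he, hrow c le_rfl g g' he])
    have hav : 0 ≤ avg (Om D') (fun h => (rs T y h + t * rs T c h) *
        (rs T y (fun v => h (MD.th c v)) + t * rs T c (fun v => h (MD.th c v)))) :=
      div_nonneg hp (Nat.cast_nonneg _)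
    have he : (fun h : V → ℤ => (rs T y h + t * rs T c h) *
        (rs T y (fun v => h (MD.th c v)) + t * rs T c (fun v => h (MD.th c v)))) =
        fun h => rs T y h * rs T (2 * c - y) h + (t * (rs T y h * rs T c h) + (t * (rs T c h * rs T (2 * c - y) h) +
          t ^ 2 * (rs T c h * rs T c h))) := by
      funext h
      rw [rs_th_h74, rs_th_h74, show 2 * c - c = c by ring]
      ring
    rw [he, avg_add, avg_add, avg_add, avg_const_mul, avg_const_mul, avg_const_mul] at hav
    have e1 : avg (Om D') (fun h => rs T c h * rs T (2 * c - y) h) = Cr D' T y c := hsym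
    rw [e1] at hav
    unfold Cr at *
    linarith
  have hdis := discrim_le_zero (a := Cr D' T c c) (b := 2 * Cr D' T y c) (c := Cr D' T y (2 * c - y)) (by
    intro t
    have := hpos t
    nlinarith [this])
  unfold discrim at hdis
  nlinarith [hdis]

end AL
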