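import Pool.Agent.Helper74.AL.Defs
import Pool.Agent.Helper35.MD.B2

/-!
ALPHA piece R1a: the doubled domain.
-/

open Finset RP4 KP

namespace AL

private lemma R1a_adj {c : ℤ} {u v : V} (h : Adj u v) : Adj (MD.th c u) (MD.th c v) := by
  unfold Adj MD.th at *
  simp only at *
  rw [← h]
  congr 1
  rw [show 2 * c - u.2 - (2 * c - v.2) = -(u.2 - v.2) by ring, abs_neg]

/-- A boundary point of `dbl D c` is in `D` or in the reflection of `D`, and it is a boundary point of that set; `th c` preserves adjacency and the parity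
(`par (th c v) - par v = 2 (c - v.2)`). -/
theorem dbl_bdryPar {D : Finset V} (hD : BdryPar D 0) (c : ℤ) : BdryPar (dbl D c) 0 := by
  intro v hv
  obtain ⟨h1, u, h2, h3⟩ := mem_bdry.1 hv
  rw [mem_dbl, not_or] at h3
  rcases mem_dbl.1 h1 with h | h
  · exact hD v (mem_bdry.2 ⟨h, u, h2, h3.1⟩)
  · have h4 := hD (MD.th c v) (mem_bdry.2 ⟨h, MD.th c u, R1a_adj h2, h3.2⟩)
    have h5 : par (MD.th c v) = v.1 + (2 * c - v.2) := rfl
    have h6 : par v = v.1 + v.2 := rfl
    rw [h5, Int.even_iff] at h4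
    rw [h6, Int.even_iff]
    omega

/-- elementary -/
theorem dbl_sub {D : Finset V} {a b : ℤ} (h : (D : Set V) ⊆ DV.Rec (-a) a (-b) b) (c : ℤ) :
    ((dbl D c : Finset V) : Set V) ⊆ DV.Rec (-a) a (-(b + 2 * |c|)) (b + 2 * |c|) := by
  intro v hv
  have h0 : 0 ≤ |c| := abs_nonneg c
  have h1 : c ≤ |c| := le_abs_self c
  have h2 : -c ≤ |c| := neg_le_abs c
  rcases mem_dbl.1 (Finset.mem_coe.1 hv) with h3 | h3
  · obtain ⟨h4, h5, h6, h7⟩ := h (Finset.mem_coe.2 h3)
    exact ⟨h4, h5, by linarith, by linarith⟩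
  · obtain ⟨h4, h5, h6, h7⟩ := h (Finset.mem_coe.2 h3)
    simp only [MD.th] at h4 h5 h6 h7
    exact ⟨h4, h5, by linarith, by linarith⟩

/-- the reflection in the row `c` (`θ = MD.th c`, `H v = v.2 ≤ c`) -/
theorem reflD_th (c : ℤ) : ReflD (MD.th c) (fun v => v.2 ≤ c) := by
  refine ⟨fun v => MD.th_th c v, fun u v => ⟨fun h => ?_, fun h => R1a_adj h⟩, fun v => ?_,
    fun v => ?_, fun v h1 h2 => ?_, fun u v h => ?_⟩
  · have h1 := R1a_adj (c := c) h
    rwa [MD.th_th, MD.th_th] at h1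
  · have e : RP4.par (MD.th c v) - RP4.par v = (v.1 + (2 * c - v.2)) - (v.1 + v.2) := rfl
    rw [e, Int.even_iff]
    omega
  · have e : (MD.th c v).2 = 2 * c - v.2 := rfl
    simp only [e]
    omega
  · have e : (MD.th c v).2 = 2 * c - v.2 := rfl
    simp only [e] at h1 h2
    have h3 : v.2 = c := by omega
    refine Prod.ext rfl ?_
    rw [e]
    omega
  · have eu : (MD.th c u).2 = 2 * c - u.2 := rfl
    have ev : (MD.th c v).2 = 2 * c - v.2 := rfl
    simp only [eu, ev]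
    unfold Adj at h
    have h1 : |u.2 - v.2| ≤ 1 := by
      have := abs_nonneg (u.1 - v.1)
      linarith
    rw [abs_le] at h1
    omega

/-- MONOTONICITY.  `Cr_eq`; for `x, w ∈ D` `MD.cv D x w ≤ MD.cv D' x w` by `RP4.cov_mono`, otherwise `MD.cv D x w = 0 ≤ MD.cv D' x w` (`MD.cv_zero`, symmetric in `x, w`; `MD.cv_nonneg`). -/
theorem Cr_mono {D D' : Finset V} (hDD' : D ⊆ D') (hD : BdryPar D 0) (hD' : BdryPar D' 0) (T : ℕ) (y y' : ℤ) :
    Cr D T y y' ≤ Cr D' T y y' := by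
  rw [Cr_eq, Cr_eq]
  refine Finset.sum_le_sum fun x _ => Finset.sum_le_sum fun w _ => ?_
  by_cases hx : x ∈ core D
  · by_cases hw : w ∈ core D
    · unfold MD.cv
      exact cov_mono D D' hDD' hD hD' x w (mem_sdiff.1 hx).1 (mem_sdiff.1 hw).1
    · have h1 : MD.cv D x w = MD.cv D w x := by
        unfold MD.cv
        congr 1
        funext h
        ring
      rw [h1, MD.cv_zero hw]
      exact MD.cv_nonneg D' x w
  · rw [MD.cv_zero hx]
    exact MD.cv_nonneg D' x w

end AL
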