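import Pool.Agent.Helper74.AL.Defs
import Pool.Agent.Helper35.MD.B2

/-!
ALPHA piece S1a: covariances of row sums.
-/

open Finset RP4 KP

namespace AL

/-- Covariance of two row sums from above: `Cr D T y y' = ∑_{w ∈ row T y'} ∑_{x ∈ row T y} cv x w` (`Cr_eq`), for `w ∉ D` the terms vanish (`MD.cv_zero` in file B2, symmetric: `cv D x w = cv D w x`),
for `w ∈ D` the inner sum is at most the full row sum (`MD.cv_nonneg`, terms with `x ∉ D` vanish), `≤ C R` by `hrow`. -/
theorem Cr_le {C : ℝ} (hC : 0 ≤ C) (hrow : RowAll C) {R : ℕ} (hR : 1 ≤ R) {D : Finset V} (hD : BdryPar D 0)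
    (hd : ∀ u ∈ D, ∀ v ∈ D, |u.1 - v.1| ≤ R ∧ |u.2 - v.2| ≤ R) (T : ℕ) (y y' : ℤ) :
    Cr D T y y' ≤ (2 * T + 1) * (C * R) := by
  have hCR : 0 ≤ C * R := mul_nonneg hC (Nat.cast_nonneg R)
  have h0 : ∀ x w : V, x ∉ D → MD.cv D x w = 0 := by
    intro x w hx
    refine MD.cv_zero fun h => hx ?_
    unfold core at h
    exact (Finset.mem_sdiff.1 h).1
  have h0' : ∀ x w : V, w ∉ D → MD.cv D x w = 0 := by
    intro x w hw
    have e : MD.cv D x w = MD.cv D w x := by
      unfold MD.cv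
      simp only [mul_comm]
    rw [e]
    exact h0 w x hw
  have key : ∀ w, ∑ x ∈ row T y, MD.cv D x w ≤ C * R := by
    intro w
    by_cases hw : w ∈ D
    · refine le_trans ?_ (hrow R hR D hD hd w hw y)
      have h1 : ∑ x ∈ row T y, MD.cv D x w = ∑ x ∈ (row T y).filter (fun x => x ∈ D), MD.cv D x w := by
        rw [Finset.sum_filter]
        refine Finset.sum_congr rfl fun x _ => ?_
        split_ifs with hx
        · rfl
        · exact h0 x w hx
      rw [h1]
      refine Finset.sum_le_sum_of_subset_of_nonneg ?_ fun x _ _ => MD.cv_nonneg D x w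
      intro x hx
      obtain ⟨h2, h3⟩ := Finset.mem_filter.1 hx
      exact Finset.mem_filter.2 ⟨h3, (mem_row.1 h2).2⟩
    · rw [Finset.sum_eq_zero fun x _ => h0' x w hw]
      exact hCR
  rw [Cr_eq, Finset.sum_comm]
  refine le_trans (Finset.sum_le_card_nsmul _ _ (C * R) fun w _ => key w) ?_
  rw [card_row, nsmul_eq_mul]
  push_cast
  exact le_rfl

/-- By `Cr_eq` and `MD.cv_nonneg`. -/
theorem Cr_nonneg (D : Finset V) (T : ℕ) (y y' : ℤ) : 0 ≤ Cr D T y y' := by
  rw [Cr_eq]
  exact Finset.sum_nonneg fun x _ => Finset.sum_nonneg fun w _ => MD.cv_nonneg D x w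

end AL
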