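import Pool.Agent.Helper74.AL.Defs
import Pool.Agent.Helper27.GF.M5

/-!
ALPHA piece U1a: fourth moments of row sums.
-/

open Finset RP4 KP

namespace AL

private lemma rs_lin (T : ℕ) (y : ℤ) (h : V → ℤ) : GF.lin (row T y) (fun _ => 1) h = rs T y h := by
  unfold rs GF.lin
  exact Finset.sum_congr rfl fun x _ => one_mul _

/-- Moments of a row sum: `GF.moments 4` (Helper27, GF, M5) with `s = row T y`, `w = 1`: `E (rs)^4 ≤ C (√(E rs^2) + (2 T + 1))^4`. -/
theorem rs_four : ∃ C : ℝ, 0 ≤ C ∧ ∀ D : Finset V, BdryPar D 0 → ∀ (T : ℕ) (y : ℤ),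
    avg (Om D) (fun h => rs T y h ^ 4) ≤ C * (Real.sqrt (Cr D T y y) + (2 * T + 1)) ^ 4 := by
  obtain ⟨C, hC, hm⟩ := GF.moments 4
  refine ⟨C, hC, fun D hD T y => ?_⟩
  have h1 := hm D (row T y) (fun _ => 1) (Om_nonempty hD)
  have h2 : (∑ _x ∈ row T y, |(1 : ℝ)|) = 2 * T + 1 := by
    rw [abs_one, Finset.sum_const, nsmul_eq_mul, mul_one, card_row]
    push_cast
    ring
  have h3 : avg (Om D) (fun h => rs T y h ^ 2) = Cr D T y y := by
    unfold Cr
    simp only [pow_two]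
  simp only [rs_lin] at h1
  rw [h2, h3] at h1
  refine le_trans (le_of_eq ?_) h1
  congr 1
  funext h
  rw [show (4 : ℕ) = 2 * 2 from rfl, pow_mul, pow_mul, sq_abs]

end AL
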